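import Pool.Agent.Helper74.Hc.Union
import Pool.Agent.Helper48.HcFactor

/-! HC-10. The neutral part: each class `a` outside `V` is joined to `c` classes `b` (all four edges
`±a — ±b`), avoiding a given graph. -/

namespace Pool.Agent.Helper74.Hc

open Finset

namespace KPart

open Pool.Agent.Helper48 in
/-- Transfer of a graph `A` on the classes `1, …, n` to all edges `±a — ±b`. -/
noncomputable def B {n : ℕ} (A : Fin n → Fin n → ℤ) (x : ℤ) : Finset (Fin n) :=
  open Classical in univ.filter (fun b => ∃ a : Fin n, |x| = (a : ℤ) + 1 ∧ A a b = 1)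

def pos {n : ℕ} (b : Fin n) : ℤ := (b : ℤ) + 1

def neg {n : ℕ} (b : Fin n) : ℤ := -((b : ℤ) + 1)

theorem pos_inj {n : ℕ} : Function.Injective (pos (n := n)) := by
  intro a b h
  unfold pos at h
  apply Fin.ext
  omega

theorem neg_inj {n : ℕ} : Function.Injective (neg (n := n)) := by
  intro a b h
  unfold neg at h
  apply Fin.ext
  omega

noncomputable def K {n : ℕ} (A : Fin n → Fin n → ℤ) (x : ℤ) : Finset ℤ :=
  (B A x).image pos ∪ (B A x).image neg

theorem mem_K {n : ℕ} {A : Fin n → Fin n → ℤ} {x y : ℤ} :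
    y ∈ K A x ↔ ∃ a b : Fin n, |x| = (a : ℤ) + 1 ∧ |y| = (b : ℤ) + 1 ∧ A a b = 1 := by
  unfold K B
  simp only [mem_union, mem_image, mem_filter, mem_univ, true_and]
  constructor
  · rintro (⟨b, ⟨a, h1, h2⟩, rfl⟩ | ⟨b, ⟨a, h1, h2⟩, rfl⟩)
    · refine ⟨a, b, h1, ?_, h2⟩
      unfold pos
      rw [abs_of_nonneg (by omega)]
    · refine ⟨a, b, h1, ?_, h2⟩
      unfold neg
      rw [abs_neg, abs_of_nonneg (by omega)]
  · rintro ⟨a, b, h1, h2, h3⟩
    rcases le_total 0 y with hy | hy
    · left
      refine ⟨b, ⟨a, h1, h3⟩, ?_⟩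
      rw [abs_of_nonneg hy] at h2
      exact h2.symm
    · right
      refine ⟨b, ⟨a, h1, h3⟩, ?_⟩
      rw [abs_of_nonpos hy] at h2
      unfold neg
      omega

theorem disj {n : ℕ} (S : Finset (Fin n)) : Disjoint (S.image pos) (S.image neg) := by
  rw [Finset.disjoint_left]
  intro y h1 h2
  rw [mem_image] at h1 h2
  obtain ⟨a, _, rfl⟩ := h1
  obtain ⟨b, _, h3⟩ := h2
  unfold pos neg at h3
  omega

theorem B_eq {n : ℕ} {A : Fin n → Fin n → ℤ} {x : ℤ} {a : Fin n} (hx : |x| = (a : ℤ) + 1) :
    B A x = univ.filter (fun b => A a b = 1) := by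
  unfold B
  ext b
  simp only [mem_filter, mem_univ, true_and]
  constructor
  · rintro ⟨a', h1, h2⟩
    have : a' = a := by
      apply Fin.ext
      omega
    rwa [this] at h2
  · intro h
    exact ⟨a, hx, h⟩

end KPart

open KPart Pool.Agent.Helper48 in
/-- Use `exists_graph_deg` (Helper48.HcFactor) on `Fin m` with `F a b = 1` iff `a ≠ b` and `N` has an edge
between `±(a+1)` and `±(b+1)` (so the degrees of `F` are at most `2 r`), and `k a = 0` for `a + 1 ∈ V`,
`k a = c` otherwise. -/
theorem kpart (r c : ℕ) (hc : 1 ≤ c) : ∃ M : ℤ, ∀ m, M ≤ m → ∀ N : ℤ → Finset ℤ, Gr N →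
    (∀ x, (N x).card ≤ r) → ∀ V : Finset ℤ, V.card ≤ 16 → (∀ v ∈ V, 1 ≤ v ∧ v ≤ m) →
    Even (c * (m - V.card)) →
    ∃ K, IsLG K (I m \ ({0} ∪ V ∪ V.image (fun x => -x))) (2 * c) 0 ∧
      (∀ x, Disjoint (N x) (K x)) ∧ ∀ x, -x ∉ K x := by
  classical
  refine ⟨(2 * (2 * r) + 2 * c + 7) * ((2 * r) + c + 6) + 17 + 2 * r + c, ?_⟩
  intro m hm N hN hNr V hV16 hV hev
  have hprod : (0 : ℤ) ≤ (2 * (2 * r) + 2 * c + 7) * ((2 * r) + c + 6) := by positivity
  have hm0 : 0 ≤ m := by
    have : (0 : ℤ) ≤ r := by positivity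
    have : (0 : ℤ) ≤ c := by positivity
    omega
  obtain ⟨n, rfl⟩ : ∃ n : ℕ, m = (n : ℤ) := ⟨m.toNat, (Int.toNat_of_nonneg hm0).symm⟩
  -- the forbidden graph
  set P : Fin n → Fin n → Prop := fun a b => a ≠ b ∧
    ∃ x y : ℤ, |x| = (a : ℤ) + 1 ∧ |y| = (b : ℤ) + 1 ∧ y ∈ N x with hP
  set F : Fin n → Fin n → ℤ := fun a b => if P a b then 1 else 0 with hFdef
  have hPs : ∀ a b, P a b → P b a := by
    rintro a b ⟨h1, x, y, h2, h3, h4⟩
    exact ⟨h1.symm, y, x, h3, h2, hN.symm _ _ h4⟩
  have hF : IsAdj F := by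
    refine ⟨fun a b => ?_, fun a b => ?_, fun a => ?_⟩
    · simp only [hFdef]
      split_ifs
      · right; rfl
      · left; rfl
    · simp only [hFdef]
      by_cases h : P a b
      · rw [if_pos h, if_pos (hPs _ _ h)]
      · rw [if_neg h, if_neg (fun h' => h (hPs _ _ h'))]
    · simp only [hFdef]
      rw [if_neg]
      rintro ⟨h1, _⟩
      exact h1 rfl
  have hΔ : ∀ a, deg F a ≤ 2 * (r : ℤ) := by
    intro a
    rw [deg_eq_card hF]
    have h1 : ((univ.filter (fun b => F a b = 1)).image (pos (n := n))) ⊆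
        (N ((a : ℤ) + 1) ∪ N (-((a : ℤ) + 1))).image (fun z => |z|) := by
      intro z hz
      rw [mem_image] at hz
      obtain ⟨b, hb, rfl⟩ := hz
      rw [mem_filter] at hb
      have hb2 : P a b := by
        by_contra hcon
        have := hb.2
        simp only [hFdef, if_neg hcon] at this
        exact absurd this (by norm_num)
      obtain ⟨_, x, y, h2, h3, h4⟩ := hb2
      rw [mem_image]
      refine ⟨y, ?_, ?_⟩
      · rw [mem_union]
        rcases abs_choice x with h5 | h5
        · left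
          have : x = (a : ℤ) + 1 := by omega
          rwa [← this]
        · right
          have : x = -((a : ℤ) + 1) := by omega
          rwa [← this]
      · rw [h3]; rfl
    have h2 := card_le_card h1
    rw [card_image_of_injective _ pos_inj] at h2
    have h3 := h2.trans (card_image_le.trans (card_union_le _ _))
    have h4 := hNr ((a : ℤ) + 1)
    have h5 := hNr (-((a : ℤ) + 1))
    omega
  set k : Fin n → ℤ := fun a => if (pos a) ∈ V then 0 else (c : ℤ) with hk
  have hkc : ∀ a, 0 ≤ k a ∧ k a ≤ c := by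
    intro a
    simp only [hk]
    split_ifs
    · exact ⟨le_rfl, by positivity⟩
    · exact ⟨by positivity, le_rfl⟩
  have hdeg0 : ∀ a, 0 ≤ deg F a := fun a => sum_nonneg (fun b _ => hF.nonneg a b)
  have hrc0 : (0 : ℤ) ≤ r := by positivity
  have hcc0 : (0 : ℤ) ≤ c := by positivity
  have hcardV : (univ.filter (fun a : Fin n => pos a ∈ V)).card = V.card := by
    have h1 : (univ.filter (fun a : Fin n => pos a ∈ V)).image pos = V := by
      ext v
      rw [mem_image]
      constructor
      · rintro ⟨a, ha, rfl⟩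
        exact (mem_filter.mp ha).2
      · intro hv
        obtain ⟨h1, h2⟩ := hV v hv
        refine ⟨⟨(v - 1).toNat, by omega⟩, ?_, ?_⟩
        · rw [mem_filter]
          refine ⟨mem_univ _, ?_⟩
          have : pos (⟨(v - 1).toNat, by omega⟩ : Fin n) = v := by
            unfold pos
            show (((v - 1).toNat : ℕ) : ℤ) + 1 = v
            omega
          rw [this]
          exact hv
        · unfold pos
          show (((v - 1).toNat : ℕ) : ℤ) + 1 = v
          omega
    rw [← card_image_of_injective _ pos_inj, h1]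
  obtain ⟨Q, hQ, hFQ, hQdeg⟩ := exists_graph_deg hF (Δ := 2 * r) (δ := c) (Z := 16) hΔ (k := k)
    (fun a => (hkc a).1)
    (fun a => by
      have := hΔ a
      have := (hkc a).2
      omega)
    (fun a b => by
      have := (hkc a).2
      have := (hkc b).1
      omega)
    (by
      have h1 : (univ.filter (fun a => k a = 0)) ⊆ univ.filter (fun a : Fin n => pos a ∈ V) := by
        intro a ha
        rw [mem_filter] at ha ⊢
        refine ⟨mem_univ _, ?_⟩
        by_contra hcon
        have h2 := ha.2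
        simp only [hk, if_neg hcon] at h2
        omega
      have h2 := card_le_card h1
      rw [hcardV] at h2
      omega)
    (by
      have h1 : univ.filter (fun a => (n : ℤ) - 1 - deg F a - k a = 0) = ∅ := by
        rw [filter_eq_empty_iff]
        intro a _
        have := hΔ a
        have := (hkc a).2
        omega
      rw [h1]
      simp)
    (by
      have h1 : ∑ a, k a = (c : ℤ) * ((n : ℤ) - V.card) := by
        have h2 : ∀ a, k a = (c : ℤ) - (c : ℤ) * (if pos a ∈ V then 1 else 0) := by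
          intro a
          simp only [hk]
          split_ifs <;> ring
        rw [sum_congr rfl (fun a _ => h2 a), sum_sub_distrib, ← mul_sum, ← Finset.natCast_card_filter,
          hcardV, sum_const, card_univ, Fintype.card_fin, nsmul_eq_mul]
        ring
      rw [h1]
      exact hev)
    (by omega)
  have hpt : ∀ x ∈ I (n : ℤ) \ ({0} ∪ V ∪ V.image (fun x => -x)),
      ∃ a : Fin n, |x| = (a : ℤ) + 1 ∧ pos a ∉ V := by
    intro x hx
    rw [mem_sdiff, mem_union, mem_union, mem_image, mem_I, mem_singleton] at hx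
    obtain ⟨⟨h1, h2⟩, h3⟩ := hx
    push Not at h3
    obtain ⟨⟨h4, h5⟩, h6⟩ := h3
    have h7 : 1 ≤ |x| := Int.one_le_abs h4
    have h8 : |x| ≤ n := abs_le.mpr ⟨h1, h2⟩
    have h9 : ((⟨(|x| - 1).toNat, by omega⟩ : Fin n) : ℤ) + 1 = |x| := by
      show (((|x| - 1).toNat : ℕ) : ℤ) + 1 = |x|
      omega
    refine ⟨⟨(|x| - 1).toNat, by omega⟩, h9.symm, ?_⟩
    unfold pos
    rw [h9]
    intro hcon
    rcases abs_choice x with h10 | h10
    · rw [h10] at hcon
      exact h5 hcon
    · rw [h10] at hcon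
      exact h6 (-x) hcon (neg_neg x)
  refine ⟨K Q, ⟨⟨?_, ?_⟩, ?_, ?_, ?_⟩, ?_, ?_⟩
  · intro x y hy
    rw [mem_K] at hy ⊢
    obtain ⟨a, b, h1, h2, h3⟩ := hy
    exact ⟨b, a, h2, h1, by rw [hQ.symm]; exact h3⟩
  · intro x hx
    rw [mem_K] at hx
    obtain ⟨a, b, h1, h2, h3⟩ := hx
    have : a = b := by
      apply Fin.ext
      omega
    rw [this, hQ.diag] at h3
    exact absurd h3 (by norm_num)
  · intro x hx
    by_contra hne
    obtain ⟨y, hy⟩ := nonempty_iff_ne_empty.mpr hne
    rw [mem_K] at hy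
    obtain ⟨a, b, h1, h2, h3⟩ := hy
    have h4 : 1 ≤ deg Q a := by
      have : Q a b ≤ deg Q a := single_le_sum (fun b _ => hQ.nonneg a b) (mem_univ b)
      omega
    rw [hQdeg] at h4
    have h5 : pos a ∉ V := by
      intro hcon
      simp only [hk, if_pos hcon] at h4
      omega
    apply hx
    rw [mem_sdiff, mem_union, mem_union, mem_image, mem_I, mem_singleton]
    refine ⟨abs_le.mp (by have := a.2; omega), ?_⟩
    have hne0 : x ≠ 0 := by
      rintro rfl
      simp at h1
      omega
    rintro ((h6 | h6) | ⟨v, hv, h6⟩)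
    · exact hne0 h6
    · have := (hV x h6).1
      apply h5
      unfold pos
      rw [← h1, abs_of_nonneg (by omega)]
      exact h6
    · have := (hV v hv).1
      apply h5
      unfold pos
      rw [← h1, ← h6, abs_neg, abs_of_nonneg (by omega)]
      exact hv
  · intro x hx
    obtain ⟨a, h1, h2⟩ := hpt x hx
    unfold K
    rw [card_union_of_disjoint (disj _), card_image_of_injective _ pos_inj,
      card_image_of_injective _ neg_inj, B_eq h1]
    have h3 := deg_eq_card hQ a
    rw [hQdeg] at h3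
    simp only [hk, if_neg h2] at h3
    omega
  · intro x hx
    unfold K
    rw [sum_union (disj _), sum_image (fun a _ b _ h => pos_inj h),
      sum_image (fun a _ b _ h => neg_inj h), ← sum_add_distrib]
    have : ∀ b : Fin n, pos b + neg b = 0 := by
      intro b
      unfold pos neg
      ring
    rw [sum_congr rfl (fun b _ => this b)]
    simp
  · intro x
    rw [Finset.disjoint_left]
    intro y hy1 hy2
    rw [mem_K] at hy2
    obtain ⟨a, b, h1, h2, h3⟩ := hy2
    have hab : a ≠ b := by
      rintro rfl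
      rw [hQ.diag] at h3
      exact absurd h3 (by norm_num)
    have h4 := hFQ a b
    have h5 : F a b = 1 := by
      simp only [hFdef]
      rw [if_pos]
      exact ⟨hab, x, y, h1, h2, hy1⟩
    omega
  · intro x hx
    rw [mem_K] at hx
    obtain ⟨a, b, h1, h2, h3⟩ := hx
    rw [abs_neg] at h2
    have : a = b := by
      apply Fin.ext
      omega
    rw [this, hQ.diag] at h3
    exact absurd h3 (by norm_num)

end Pool.Agent.Helper74.Hc
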