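import Pool.Agent.Helper74.Hc.Place
import Pool.Agent.Helper74.Hc.KPart

/-! HC-11. Raising the degree by `4` and by `6`. For large `m` and the given graph `N` on `I m`: choose
`α, β` by `place`, the gadget `V, G` (`gad4`; for `6`: `gad6e` if `m` even, `gad6o` if `m` odd), the neutral
part `K` by `kpart` (`c = 2` resp. `c = 3`) outside `{0} ∪ ±V`. Then `G ∪ K` (disjoint supports) is a
label graph on `I m` of degree `4` (`6`), slope `0`, edge-disjoint from `N` (edges of `G` lie inside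
`GS α β`); `IsLG.overlay`. The loops of `N ∪ G ∪ K` are those of `N` and at most `21` more. -/

namespace Pool.Agent.Helper74.Hc

open Finset

namespace AddStep

theorem loops_mono {N : ℤ → Finset ℤ} {B B' : ℕ} (h : Loops N B) (hB : B ≤ B') : Loops N B' := by
  obtain ⟨S, h1, h2⟩ := h
  exact ⟨S, h1.trans hB, h2⟩

/-- the common part of the two steps -/
theorem step {r c B : ℕ} {s m α β : ℤ} {N : ℤ → Finset ℤ} (hN : IsLG N (I m) r s)
    (hL : Loops N B) (hβ : 1 ≤ β) (hα : 6 * β < α) (hm : 3 * α + 3 * β ≤ m)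
    (hpl : ∀ u w, u ∈ GS α β → w ∈ GS α β → w ∉ N u) {V : Finset ℤ} {G : ℤ → Finset ℤ}
    (hV : V ⊆ VP α β) (hV16 : V.card ≤ 16)
    (hG : IsLG G ({0} ∪ V ∪ V.image (fun x => -x)) (2 * c) 0) {K : ℤ → Finset ℤ}
    (hK : IsLG K (I m \ ({0} ∪ V ∪ V.image (fun x => -x))) (2 * c) 0)
    (hNK : ∀ x, Disjoint (N x) (K x)) (hK0 : ∀ x, -x ∉ K x) :
    ∃ N', IsLG N' (I m) (r + 2 * c) s ∧ Loops N' (B + 33) := by
  have hsub : ({0} ∪ V ∪ V.image (fun x => -x)) ⊆ GS α β := by
    unfold GS
    exact union_subset_union (union_subset_union_right hV) (image_subset_image hV)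
  have hsubI : ({0} ∪ V ∪ V.image (fun x => -x)) ⊆ I m := by
    intro x hx
    rw [mem_union, mem_union, mem_singleton, mem_image] at hx
    rw [mem_I]
    rcases hx with (rfl | hx) | ⟨v, hv, rfl⟩
    · omega
    · have := VP_pos hβ hα (hV hx)
      omega
    · have := VP_pos hβ hα (hV hv)
      omega
  have h1 := hG.union hK disjoint_sdiff
  rw [union_sdiff_of_subset hsubI] at h1
  have hd : ∀ x, Disjoint (N x) (G x ∪ K x) := by
    intro x
    rw [disjoint_union_right]
    refine ⟨?_, hNK x⟩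
    rw [Finset.disjoint_left]
    intro y hy1 hy2
    obtain ⟨h2, h3⟩ := hG.sub hy2
    exact hpl x y (hsub h2) (hsub h3) hy1
  have h2 := hN.overlay h1 hd
  rw [add_zero] at h2
  refine ⟨_, h2, ?_⟩
  have h3 : Loops G 33 := by
    refine loops_mono hG.loops ?_
    have a1 : ({0} ∪ V ∪ V.image (fun x => -x)).card ≤ ({0} ∪ V).card + (V.image (fun x => -x)).card :=
      card_union_le _ _
    have a2 : (({0} : Finset ℤ) ∪ V).card ≤ ({0} : Finset ℤ).card + V.card := card_union_le _ _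
    have a3 : (V.image (fun x => -x)).card ≤ V.card := card_image_le
    have a4 : ({0} : Finset ℤ).card = 1 := card_singleton 0
    omega
  have h4 := h3.union (loops_zero hK0)
  exact hL.union h4

end AddStep

open AddStep in
theorem Big.add4 {r : ℕ} {s : ℤ} (h : Big r s) : Big (r + 4) s := by
  obtain ⟨M₀, B, h0⟩ := h
  obtain ⟨M₁, h1⟩ := place r B
  obtain ⟨M₂, h2⟩ := kpart r 2 (by norm_num)
  refine ⟨max M₀ (max M₁ M₂), B + 33, ?_⟩
  intro m hm
  obtain ⟨N, hN, hL⟩ := h0 m ((le_max_left _ _).trans hm)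
  have hdeg : ∀ x, (N x).card ≤ r := by
    intro x
    by_cases hx : x ∈ I m
    · exact (hN.card x hx).le
    · rw [hN.supp x hx]
      simp
  obtain ⟨α, β, hβ, hα, hαm, hpl⟩ := h1 m (((le_max_left _ _).trans (le_max_right _ _)).trans hm) N
    hN.gr hdeg hL
  obtain ⟨V, G, hV, hVc, hG⟩ := gad4 hβ hα
  have hV1 : ∀ v ∈ V, 1 ≤ v ∧ v ≤ m := by
    intro v hv
    have := VP_pos hβ hα (hV hv)
    omega
  obtain ⟨K, hK, hNK, hK0⟩ := h2 m (((le_max_right _ _).trans (le_max_right _ _)).trans hm) N hN.gr hdeg V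
    (by omega) hV1 (by
      push_cast
      exact Even.mul_right even_two _)
  exact step (c := 2) hN hL hβ hα hαm hpl hV (by omega) hG hK hNK hK0

open AddStep in
theorem Big.add6 {r : ℕ} {s : ℤ} (h : Big r s) : Big (r + 6) s := by
  obtain ⟨M₀, B, h0⟩ := h
  obtain ⟨M₁, h1⟩ := place r B
  obtain ⟨M₂, h2⟩ := kpart r 3 (by norm_num)
  refine ⟨max M₀ (max M₁ M₂), B + 33, ?_⟩
  intro m hm
  obtain ⟨N, hN, hL⟩ := h0 m ((le_max_left _ _).trans hm)
  have hdeg : ∀ x, (N x).card ≤ r := by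
    intro x
    by_cases hx : x ∈ I m
    · exact (hN.card x hx).le
    · rw [hN.supp x hx]
      simp
  obtain ⟨α, β, hβ, hα, hαm, hpl⟩ := h1 m (((le_max_left _ _).trans (le_max_right _ _)).trans hm) N
    hN.gr hdeg hL
  rcases Int.even_or_odd m with hpar | hpar
  · obtain ⟨V, G, hV, hVc, hG⟩ := gad6e hβ hα
    have hV1 : ∀ v ∈ V, 1 ≤ v ∧ v ≤ m := by
      intro v hv
      have := VP_pos hβ hα (hV hv)
      omega
    obtain ⟨K, hK, hNK, hK0⟩ := h2 m (((le_max_right _ _).trans (le_max_right _ _)).trans hm) N hN.gr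
      hdeg V (by omega) hV1 (by
        rw [hVc]
        refine Even.mul_left ?_ _
        obtain ⟨k, hk⟩ := hpar
        exact ⟨k - 5, by push_cast; omega⟩)
    exact step (c := 3) hN hL hβ hα hαm hpl hV (by omega) hG hK hNK hK0
  · obtain ⟨V, G, hV, hVc, hG⟩ := gad6o hβ hα
    have hV1 : ∀ v ∈ V, 1 ≤ v ∧ v ≤ m := by
      intro v hv
      have := VP_pos hβ hα (hV hv)
      omega
    obtain ⟨K, hK, hNK, hK0⟩ := h2 m (((le_max_right _ _).trans (le_max_right _ _)).trans hm) N hN.gr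
      hdeg V (by omega) hV1 (by
        rw [hVc]
        refine Even.mul_left ?_ _
        obtain ⟨k, hk⟩ := hpar
        exact ⟨k - 4, by push_cast; omega⟩)
    exact step (c := 3) hN hL hβ hα hαm hpl hV (by omega) hG hK hNK hK0

theorem Big.add_two_mul {r : ℕ} {s : ℤ} (h : Big r s) (j : ℕ) (hj : 2 ≤ j) : Big (r + 2 * j) s := by
  induction j using Nat.strong_induction_on with
  | _ j ih =>
    rcases Nat.lt_or_ge j 4 with h4 | h4
    · interval_cases j
      · exact h.add4
      · exact h.add6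
    · have h5 := ih (j - 2) (by omega) (by omega)
      have h6 := h5.add4
      have e : r + 2 * (j - 2) + 4 = r + 2 * j := by omega
      rwa [e] at h6

end Pool.Agent.Helper74.Hc
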