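import Pool.Agent.Helper74.Hc.Basic
import Pool.Agent.Helper48.HcOdd

/-! HC-13a, 13b. From label graphs to handicap graphs; the complement. -/

namespace Pool.Agent.Helper74.Hc

open Finset Pool.Agent.Helper48

/-- labels of `Fin (2m+1)` -/
def lb {m : ℕ} (v : Fin (2 * m + 1)) : ℤ := (v.val : ℤ) - m

theorem lb_mem {m : ℕ} (v : Fin (2 * m + 1)) : lb v ∈ I m := by
  rw [mem_I]; unfold lb; have := v.isLt; omega

theorem lb_inj {m : ℕ} : Function.Injective (lb : Fin (2 * m + 1) → ℤ) := by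
  intro a b h
  unfold lb at h
  apply Fin.ext
  omega

theorem lb_image (m : ℕ) : (univ : Finset (Fin (2 * m + 1))).image lb = I m := by
  ext x
  rw [mem_image, mem_I]
  constructor
  · rintro ⟨v, _, rfl⟩
    exact mem_I.1 (lb_mem v)
  · rintro ⟨h1, h2⟩
    refine ⟨⟨(x + m).toNat, by omega⟩, mem_univ _, ?_⟩
    unfold lb
    simp only []
    omega

theorem sum_lb {m : ℕ} (S : Finset ℤ) (hS : S ⊆ I m) (f : ℤ → ℤ) :
    ∑ b : Fin (2 * m + 1), (if lb b ∈ S then f (lb b) else 0) = ∑ y ∈ S, f y := by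
  rw [← Finset.sum_image (s := univ) (g := lb) (f := fun y => if y ∈ S then f y else 0)
    (fun a _ b _ h => lb_inj h), lb_image, ← Finset.sum_filter]
  apply Finset.sum_congr _ (fun _ _ => rfl)
  ext y
  rw [mem_filter]
  exact ⟨fun h => h.2, fun h => ⟨hS h, h⟩⟩

/-- HC-13a -/
theorem existsH_of_lg {m r d : ℕ} (h : LG (I m) r d) : ExistsH (2 * m + 1) r d := by
  obtain ⟨N, hN⟩ := h
  have hsub : ∀ x, N x ⊆ I m := fun x y hy => (hN.sub hy).2
  refine existsH_of_matrix (V := Fin (2 * m + 1)) (Equiv.refl _)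
    (fun a b => if lb b ∈ N (lb a) then 1 else 0) ⟨?_, ?_, ?_⟩ ?_ ?_
  · intro a b
    by_cases h : lb b ∈ N (lb a)
    · right; simp [h]
    · left; simp [h]
  · intro a b
    have : lb b ∈ N (lb a) ↔ lb a ∈ N (lb b) := ⟨fun h => hN.gr.symm _ _ h, fun h => hN.gr.symm _ _ h⟩
    by_cases h : lb b ∈ N (lb a)
    · simp only [h, this.1 h, if_true]
    · have h' : lb a ∉ N (lb b) := fun h2 => h (this.2 h2)
      simp only [h, h', if_false]
  · intro a
    simp only [hN.gr.irr (lb a), if_false]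
  · intro a
    unfold deg
    rw [sum_lb (N (lb a)) (hsub _) (fun _ => 1)]
    rw [Finset.sum_const, hN.card _ (lb_mem a)]
    simp
  · intro a
    have e : ∀ b : Fin (2 * m + 1), (if lb b ∈ N (lb a) then (1 : ℤ) else 0) *
        (2 * (((Equiv.refl _ : Fin (2 * m + 1) ≃ Fin (2 * m + 1)) b).val : ℤ) + 1 - ((2 * m + 1 : ℕ) : ℤ))
        = if lb b ∈ N (lb a) then 2 * lb b else 0 := by
      intro b
      by_cases h : lb b ∈ N (lb a)
      · rw [if_pos h, if_pos h]
        unfold lb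
        simp only [Equiv.refl_apply]
        push_cast
        ring
      · rw [if_neg h, if_neg h, zero_mul]
    rw [Finset.sum_congr rfl (fun b _ => e b), sum_lb (N (lb a)) (hsub _) (fun y => 2 * y),
      ← Finset.mul_sum, hN.sum _ (lb_mem a)]
    unfold lb
    simp only [Equiv.refl_apply]
    push_cast
    ring

theorem sum_I (m : ℕ) : ∑ y ∈ I m, y = 0 := by
  have h : ∑ y ∈ I m, y = ∑ y ∈ I m, -y := by
    apply Finset.sum_nbij' (fun y => -y) (fun y => -y)
    · intro a ha; rw [mem_I] at ha ⊢; omega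
    · intro a ha; rw [mem_I] at ha ⊢; omega
    · intro a _; simp
    · intro a _; simp
    · intro a _; simp
  rw [Finset.sum_neg_distrib] at h
  omega

theorem card_I (m : ℕ) : (I (m : ℤ)).card = 2 * m + 1 := by
  unfold I
  rw [Int.card_Icc]
  omega

/-- HC-13b. the complement -/
theorem LG.compl {m : ℕ} {r : ℕ} {s : ℤ} (h : LG (I m) r s) (hr : r ≤ 2 * m) :
    LG (I m) (2 * m - r) (-1 - s) := by
  obtain ⟨N, hN⟩ := h
  have hsub : ∀ x, N x ⊆ I m := fun x y hy => (hN.sub hy).2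
  refine ⟨fun x => if x ∈ I (m : ℤ) then (I (m : ℤ)).erase x \ N x else ∅, ⟨⟨?_, ?_⟩, ?_, ?_, ?_⟩⟩
  · intro x y hy
    by_cases hx : x ∈ I (m : ℤ)
    · simp only [hx, if_true, mem_sdiff, mem_erase] at hy
      have hy1 := hy.1.2
      simp only [hy1, if_true, mem_sdiff, mem_erase]
      exact ⟨⟨fun e => hy.1.1 e.symm, hx⟩, fun h2 => hy.2 (hN.gr.symm _ _ h2)⟩
    · simp [hx] at hy
  · intro x hx2
    by_cases hx : x ∈ I (m : ℤ)
    · simp only [hx, if_true, mem_sdiff, mem_erase] at hx2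
      exact hx2.1.1 rfl
    · simp [hx] at hx2
  · intro x hx
    simp [hx]
  · intro x hx
    simp only [hx, if_true]
    have h1 : N x ⊆ (I (m : ℤ)).erase x := by
      intro y hy
      rw [mem_erase]
      exact ⟨fun e => hN.gr.irr x (e ▸ hy), hsub x hy⟩
    rw [Finset.card_sdiff_of_subset h1, Finset.card_erase_of_mem hx, card_I, hN.card x hx]
    omega
  · intro x hx
    simp only [hx, if_true]
    have h1 : N x ⊆ (I (m : ℤ)).erase x := by
      intro y hy
      rw [mem_erase]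
      exact ⟨fun e => hN.gr.irr x (e ▸ hy), hsub x hy⟩
    have h2 := Finset.sum_sdiff h1 (f := fun y : ℤ => y)
    have h3 := Finset.sum_erase_add (s := I (m : ℤ)) (f := fun y : ℤ => y) (a := x) hx
    rw [sum_I] at h3
    rw [hN.sum x hx] at h2
    linarith

end Pool.Agent.Helper74.Hc
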