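import Pool.Agent.Helper74.Hc.Chain
import Pool.Agent.Helper74.Hc.Add
import Pool.Agent.Helper74.Hc.ToH

/-! HC-13. The main theorem.
`big_all`: `big_even`, `big_odd`, `Big.add_two_mul`.
`odd_full`: necessity from `nec_odd`, `nec_low`, `nec_high`; sufficiency from `odd_main` in the middle range
and `big_all` for the finitely many small `r` (slope `d`) and small `p - 1 - r` (slope `-(d+1)`). -/

namespace Pool.Agent.Helper74.Hc

open Finset Pool.Agent.Helper48

theorem big_all (s : ℤ) (hs : s ≠ 0) (r : ℕ) (hr : Even r) (h1 : |s| + 2 ≤ r) : Big r s := by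
  rcases Int.even_or_odd s with he | ho
  · rw [Int.even_iff] at he
    have habs : |s| % 2 = 0 := by rcases abs_choice s with h | h <;> rw [h] <;> omega
    obtain ⟨k, hk⟩ : ∃ k : ℕ, (r : ℤ) = |s| + 2 + 2 * k := by
      refine ⟨((r - |s| - 2) / 2).toNat, ?_⟩
      have : (0 : ℤ) ≤ (r - |s| - 2) / 2 := by omega
      rw [Int.toNat_of_nonneg this]
      rw [Nat.even_iff] at hr
      omega
    have hpos : (0 : ℤ) ≤ |s| := abs_nonneg s
    rcases Nat.lt_or_ge k 2 with h2 | h2
    · exact big_even s he hs r (by omega)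
    · have hb := big_even s he hs (|s| + 2).toNat (Or.inl (Int.toNat_of_nonneg (by omega)))
      have hb2 := hb.add_two_mul k h2
      have e : (|s| + 2).toNat + 2 * k = r := by
        zify
        rw [Int.toNat_of_nonneg (by omega)]
        omega
      rw [e] at hb2
      exact hb2
  · rw [Int.odd_iff] at ho
    have habs : |s| % 2 = 1 := by rcases abs_choice s with h | h <;> rw [h] <;> omega
    obtain ⟨k, hk⟩ : ∃ k : ℕ, (r : ℤ) = |s| + 3 + 2 * k := by
      refine ⟨((r - |s| - 3) / 2).toNat, ?_⟩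
      rw [Nat.even_iff] at hr
      have : (0 : ℤ) ≤ (r - |s| - 3) / 2 := by omega
      rw [Int.toNat_of_nonneg this]
      omega
    have hpos : (0 : ℤ) ≤ |s| := abs_nonneg s
    rcases Nat.lt_or_ge k 2 with h2 | h2
    · exact big_odd s ho r (by omega)
    · have hb := big_odd s ho (|s| + 3).toNat (Or.inl (Int.toNat_of_nonneg (by omega)))
      have hb2 := hb.add_two_mul k h2
      have e : (|s| + 3).toNat + 2 * k = r := by
        zify
        rw [Int.toNat_of_nonneg (by omega)]
        omega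
      rw [e] at hb2
      exact hb2

/-- a common threshold for all degrees up to `R` -/
theorem big_unif (s : ℤ) (hs : s ≠ 0) (R : ℕ) :
    ∃ M : ℤ, ∀ r : ℕ, r ≤ R → Even r → |s| + 2 ≤ r → ∀ m, M ≤ m → LG (I m) r s := by
  induction R with
  | zero =>
    refine ⟨0, fun r hr _ h2 => ?_⟩
    have : (0 : ℤ) ≤ |s| := abs_nonneg s
    have : (r : ℤ) = 0 := by exact_mod_cast Nat.le_zero.1 hr
    omega
  | succ R ih =>
    obtain ⟨M, hM⟩ := ih
    by_cases hc : Even (R + 1) ∧ |s| + 2 ≤ ((R + 1 : ℕ) : ℤ)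
    · obtain ⟨M', B, hM'⟩ := big_all s hs (R + 1) hc.1 hc.2
      refine ⟨max M M', fun r hr he h2 m hm => ?_⟩
      rcases Nat.lt_or_ge R r with h | h
      · have : r = R + 1 := by omega
        subst this
        obtain ⟨N, hN, _⟩ := hM' m (le_trans (le_max_right _ _) hm)
        exact ⟨N, hN⟩
      · exact hM r h he h2 m (le_trans (le_max_left _ _) hm)
    · refine ⟨M, fun r hr he h2 m hm => ?_⟩
      rcases Nat.lt_or_ge R r with h | h
      · have : r = R + 1 := by omega
        subst this
        exact absurd ⟨he, h2⟩ hc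
      · exact hM r h he h2 m hm

/-- The main theorem: for all large odd `p`, with one degree left out. -/
theorem odd_full (d : ℕ) (hd : 1 ≤ d) : ∃ p₀, ∀ p, p₀ ≤ p → Odd p → ∀ r, (Odd d → r ≠ d + 1) →
    (Even d → r + d + 3 ≠ p) → (ExistsH p r d ↔ Even r ∧ d + 2 ≤ r ∧ r + d + 4 ≤ p) := by
  set C : ℕ := 60000 * 5 ^ d with hC
  obtain ⟨M₁, h₁⟩ := big_unif (d : ℤ) (by omega) (C + d + 50)
  obtain ⟨M₂, h₂⟩ := big_unif (-((d : ℤ) + 1)) (by omega) (C + d + 50)
  have ha1 : |(d : ℤ)| = d := abs_of_nonneg (by omega)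
  have ha2 : |(-((d : ℤ) + 1))| = d + 1 := by rw [abs_neg]; exact abs_of_nonneg (by omega)
  rw [ha1] at h₁
  rw [ha2] at h₂
  refine ⟨2 * (M₁.toNat + M₂.toNat) + 2 * (C + d + 50) + 10, ?_⟩
  intro p hp hodd r hr1 hr2
  constructor
  · intro hE
    have e1 := nec_odd hE (Nat.odd_iff.1 hodd)
    have e2 := nec_low hE hd (by omega)
    have e3 := nec_high hE hd (by omega)
    rw [Nat.odd_iff] at hodd
    refine ⟨Nat.even_iff.2 e1, ?_, ?_⟩
    · rcases Nat.even_or_odd d with hd2 | hd2
      · rw [Nat.even_iff] at hd2; omega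
      · have := hr1 hd2; omega
    · rcases Nat.even_or_odd d with hd2 | hd2
      · have := hr2 hd2; omega
      · rw [Nat.odd_iff] at hd2; omega
  · rintro ⟨he, hlo, hhi⟩
    obtain ⟨m, hm⟩ := hodd
    have hm1 : (M₁.toNat : ℤ) + M₂.toNat ≤ m := by
      have : M₁.toNat + M₂.toNat ≤ m := by omega
      exact_mod_cast this
    have hM1 : M₁ ≤ m := by have := Int.self_le_toNat M₁; omega
    have hM2 : M₂ ≤ m := by have := Int.self_le_toNat M₂; omega
    rcases Nat.lt_or_ge (C + d + 50) r with hbig | hsmall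
    · rcases Nat.lt_or_ge (r + (C + d + 50)) p with hmid | hhigh
      · refine (odd_main d hd p ⟨m, hm⟩ r ?_).2 he
        rcases Nat.even_or_odd d with hd2 | hd2
        · left; exact ⟨hd2, by omega, by omega⟩
        · right; exact ⟨hd2, by omega, by omega⟩
      · -- high range
        obtain ⟨r', hr'⟩ : ∃ r', r + r' = 2 * m := ⟨2 * m - r, by omega⟩
        have he' : Even r' := by
          rw [Nat.even_iff] at he ⊢; omega
        have hL := h₂ r' (by omega) he' (by omega) m hM2
        have hL2 := hL.compl (by omega)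
        have e1 : 2 * m - r' = r := by omega
        have e2 : (-1 : ℤ) - -((d : ℤ) + 1) = d := by ring
        rw [e1, e2] at hL2
        rw [hm]
        exact existsH_of_lg hL2
    · have hL := h₁ r hsmall he (by omega) m hM1
      rw [hm]
      exact existsH_of_lg hL

end Pool.Agent.Helper74.Hc
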