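import Pool.Agent.Helper48.HcNec

/-! There is no 2-regular 1-handicap graph of odd order. -/

namespace Pool.Agent.Helper74.Hc

open Finset Pool.Agent.Helper48

theorem no_two {p : ℕ} (h : ExistsH p 2 1) (hp : Odd p) : False := by
  obtain ⟨m, hm⟩ := hp
  obtain ⟨A, hA, hd, _, hs⟩ := existsH_matrix h (by omega)
  have key : ∀ x : Fin p, ∀ f : Fin p → ℤ,
      ∑ y, A x y * f y = ∑ y ∈ univ.filter (fun y => A x y = 1), f y := by
    intro x f
    rw [Finset.sum_filter]
    apply Finset.sum_congr rfl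
    intro y _
    rcases hA.zo x y with h0 | h0
    · rw [h0]; simp
    · rw [h0]; simp
  have hcard : ∀ x : Fin p, (univ.filter (fun y => A x y = 1)).card = 2 := by
    intro x
    have h1 := deg_eq_card hA x
    rw [hd x] at h1
    exact_mod_cast h1.symm
  have hpc : m < p := by omega
  obtain ⟨a, b, hab, hS⟩ := Finset.card_eq_two.1 (hcard ⟨m, hpc⟩)
  have ha : A ⟨m, hpc⟩ a = 1 := by
    have : a ∈ univ.filter (fun y => A ⟨m, hpc⟩ y = 1) := by rw [hS]; simp
    exact (mem_filter.1 this).2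
  have hac : (⟨m, hpc⟩ : Fin p) ≠ a := by
    intro e
    rw [← e, hA.diag] at ha
    norm_num at ha
  have hca : (⟨m, hpc⟩ : Fin p) ∈ univ.filter (fun y => A a y = 1) := by
    rw [mem_filter]
    exact ⟨mem_univ _, by rw [hA.symm]; exact ha⟩
  obtain ⟨u, v, huv, hS2⟩ := Finset.card_eq_two.1 (hcard a)
  obtain ⟨w, hw1, hw2⟩ : ∃ w : Fin p, w ≠ ⟨m, hpc⟩ ∧
      univ.filter (fun y => A a y = 1) = {⟨m, hpc⟩, w} := by
    rw [hS2] at hca ⊢
    rw [mem_insert, mem_singleton] at hca
    rcases hca with e | e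
    · exact ⟨v, fun e2 => huv (by rw [← e, e2]), by rw [e]⟩
    · exact ⟨u, fun e2 => huv (by rw [← e, e2]), by rw [e, Finset.pair_comm]⟩
  have h2 := hs a
  rw [key a (fun y => 2 * (y.val : ℤ) + 1 - p), hw2, Finset.sum_pair (Ne.symm hw1)] at h2
  have hp2 : (p : ℤ) = 2 * m + 1 := by exact_mod_cast hm
  have hwa : w = a := by
    apply Fin.ext
    simp only [hp2] at h2
    push_cast at h2
    omega
  have haa : A a w = 1 := by
    have : w ∈ univ.filter (fun y => A a y = 1) := by rw [hw2]; simp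
    exact (mem_filter.1 this).2
  rw [hwa, hA.diag] at haa
  norm_num at haa

end Pool.Agent.Helper74.Hc
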