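import Pool.Agent.Helper74.Hc.Basic

/-! HC-2. The Langford type family: for `0 ≤ s`, `s + 2 ≤ t` the interval `[t, 13 t + 12 s - 1]` is
partitioned into `4 (s + t)` triples `{a, b, a + b}`; moreover the interval is cut into five consecutive
intervals of even length (at least `t - 1`), such that the three elements of each triple lie in three
different ones.

The triples: five runs; in run `i` the triples are `a = δ i + 2 l`, `b = B i - l`, `a + b = C i + l`,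
`0 ≤ l < k i`, with `C i = B i + δ i`:
 run 0: `k = 3 s + 1`,   `δ = 3 t`,           `B = 7 s + 5 t`,      `C = 7 s + 8 t`
 run 1: `k = s + 2 t`,   `δ = t + 1 + 2 s`,   `B = 8 s + 7 t`,      `C = 10 s + 8 t + 1`
 run 2: `k = t - s - 1`, `δ = 3 t + 6 s + 2`, `B = 7 s + 8 t - 1`,  `C = 13 s + 11 t + 1`
 run 3: `k = s`,         `δ = t + 1`,         `B = 12 s + 10 t`,    `C = 12 s + 11 t + 1`
 run 4: `k = t`,         `δ = t`,             `B = 12 s + 11 t`,    `C = 12 s + 12 t`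
The numbers `a` fill `[t, 5 t + 4 s - 1]` (runs 4, 0, 2 the numbers `t, t + 2, …`, runs 3, 1 the numbers
`t + 1, t + 3, …`), and the ten intervals
 b0 = [4s+5t, 7s+5t], b1 = [7s+5t+1, 8s+7t], b2 = [8s+7t+1, 7s+8t-1], c0 = [7s+8t, 10s+8t],
 c1 = [10s+8t+1, 11s+10t], b3 = [11s+10t+1, 12s+10t], b4 = [12s+10t+1, 12s+11t],
 c3 = [12s+11t+1, 13s+11t], c2 = [13s+11t+1, 12s+12t-1], c4 = [12s+12t, 12s+13t-1]
fill `[5 t + 4 s, 13 t + 12 s - 1]` in this order. The cuts: `c₂ = 5t+4s + 3(s+t) - ((s+t) mod 2)`,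
`c₃ = 5t+4s + 8s+6t`, `c₄ = 5t+4s + 8s+7t - (t mod 2)`. (Checked by computer for `t ≤ 40`.) -/

namespace Pool.Agent.Helper74.Hc

open Finset

private noncomputable def lgRun (δ B k : ℤ) : Finset (ℤ × ℤ) :=
  (Finset.Ico 0 k).image (fun l => (δ + 2 * l, B - l))

private theorem mem_lgRun {δ B k : ℤ} {p : ℤ × ℤ} :
    p ∈ lgRun δ B k ↔ ∃ l, 0 ≤ l ∧ l < k ∧ p = (δ + 2 * l, B - l) := by
  unfold lgRun
  rw [Finset.mem_image]
  constructor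
  · rintro ⟨l, hl, rfl⟩
    rw [Finset.mem_Ico] at hl
    exact ⟨l, hl.1, hl.2, rfl⟩
  · rintro ⟨l, h0, h1, rfl⟩
    exact ⟨l, Finset.mem_Ico.mpr ⟨h0, h1⟩, rfl⟩

private noncomputable def lgT (s t : ℤ) : Finset (ℤ × ℤ) :=
  lgRun (3 * t) (7 * s + 5 * t) (3 * s + 1) ∪ (lgRun (t + 1 + 2 * s) (8 * s + 7 * t) (s + 2 * t) ∪
    (lgRun (3 * t + 6 * s + 2) (7 * s + 8 * t - 1) (t - s - 1) ∪
      (lgRun (t + 1) (12 * s + 10 * t) s ∪ lgRun t (12 * s + 11 * t) t)))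

private theorem mem_lgT {s t : ℤ} {p : ℤ × ℤ} : p ∈ lgT s t ↔
    (∃ l, 0 ≤ l ∧ l < 3 * s + 1 ∧ p = (3 * t + 2 * l, 7 * s + 5 * t - l)) ∨
    (∃ l, 0 ≤ l ∧ l < s + 2 * t ∧ p = (t + 1 + 2 * s + 2 * l, 8 * s + 7 * t - l)) ∨
    (∃ l, 0 ≤ l ∧ l < t - s - 1 ∧ p = (3 * t + 6 * s + 2 + 2 * l, 7 * s + 8 * t - 1 - l)) ∨
    (∃ l, 0 ≤ l ∧ l < s ∧ p = (t + 1 + 2 * l, 12 * s + 10 * t - l)) ∨
    (∃ l, 0 ≤ l ∧ l < t ∧ p = (t + 2 * l, 12 * s + 11 * t - l)) := by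
  unfold lgT
  simp only [Finset.mem_union, mem_lgRun]

private theorem lg_disj {s t : ℤ} (h0 : 0 ≤ s) (h1 : s + 2 ≤ t) {p q : ℤ × ℤ}
    (hp : p ∈ lgT s t) (hq : q ∈ lgT s t) (hpq : p ≠ q) {v : ℤ}
    (hv : v = p.1 ∨ v = p.2 ∨ v = p.1 + p.2) (hw : v = q.1 ∨ v = q.2 ∨ v = q.1 + q.2) :
    False := by
  rw [mem_lgT] at hp hq
  rcases hp with ⟨l, a0, a1, rfl⟩ | ⟨l, a0, a1, rfl⟩ | ⟨l, a0, a1, rfl⟩ | ⟨l, a0, a1, rfl⟩ |
    ⟨l, a0, a1, rfl⟩ <;>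
  rcases hq with ⟨m, b0, b1, rfl⟩ | ⟨m, b0, b1, rfl⟩ | ⟨m, b0, b1, rfl⟩ | ⟨m, b0, b1, rfl⟩ |
    ⟨m, b0, b1, rfl⟩ <;>
  first
  | (have hlm : l ≠ m := by
      rintro rfl
      exact hpq rfl
     dsimp only at hv hw
     omega)
  | (clear hpq
     dsimp only at hv hw
     omega)

private theorem lg_surj {s t : ℤ} (h0 : 0 ≤ s) (h1 : s + 2 ≤ t) (v : ℤ) :
    (t ≤ v ∧ v < 13 * t + 12 * s) ↔ ∃ p ∈ lgT s t, v = p.1 ∨ v = p.2 ∨ v = p.1 + p.2 := by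
  constructor
  · rintro ⟨hv0, hv1⟩
    simp only [mem_lgT]
    by_cases c1 : v < 5 * t + 4 * s
    · -- the numbers a
      rcases Int.emod_two_eq_zero_or_one (v - t) with he | he
      · by_cases d1 : v < 3 * t
        · exact ⟨(t + 2 * ((v - t) / 2), 12 * s + 11 * t - (v - t) / 2),
            Or.inr (Or.inr (Or.inr (Or.inr ⟨(v - t) / 2, by omega, by omega, rfl⟩))),
            Or.inl (by dsimp only; omega)⟩
        · by_cases d2 : v < 3 * t + 6 * s + 2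
          · exact ⟨(3 * t + 2 * ((v - 3 * t) / 2), 7 * s + 5 * t - (v - 3 * t) / 2),
              Or.inl ⟨(v - 3 * t) / 2, by omega, by omega, rfl⟩,
              Or.inl (by dsimp only; omega)⟩
          · exact ⟨(3 * t + 6 * s + 2 + 2 * ((v - (3 * t + 6 * s + 2)) / 2),
              7 * s + 8 * t - 1 - (v - (3 * t + 6 * s + 2)) / 2),
              Or.inr (Or.inr (Or.inl ⟨(v - (3 * t + 6 * s + 2)) / 2, by omega, by omega, rfl⟩)),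
              Or.inl (by dsimp only; omega)⟩
      · by_cases d1 : v < t + 1 + 2 * s
        · exact ⟨(t + 1 + 2 * ((v - (t + 1)) / 2), 12 * s + 10 * t - (v - (t + 1)) / 2),
            Or.inr (Or.inr (Or.inr (Or.inl ⟨(v - (t + 1)) / 2, by omega, by omega, rfl⟩))),
            Or.inl (by dsimp only; omega)⟩
        · exact ⟨(t + 1 + 2 * s + 2 * ((v - (t + 1 + 2 * s)) / 2),
            8 * s + 7 * t - (v - (t + 1 + 2 * s)) / 2),
            Or.inr (Or.inl ⟨(v - (t + 1 + 2 * s)) / 2, by omega, by omega, rfl⟩),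
            Or.inl (by dsimp only; omega)⟩
    · by_cases e1 : v ≤ 7 * s + 5 * t
      · exact ⟨(3 * t + 2 * (7 * s + 5 * t - v), 7 * s + 5 * t - (7 * s + 5 * t - v)),
          Or.inl ⟨7 * s + 5 * t - v, by omega, by omega, rfl⟩,
          Or.inr (Or.inl (by dsimp only; omega))⟩
      by_cases e2 : v ≤ 8 * s + 7 * t
      · exact ⟨(t + 1 + 2 * s + 2 * (8 * s + 7 * t - v), 8 * s + 7 * t - (8 * s + 7 * t - v)),
          Or.inr (Or.inl ⟨8 * s + 7 * t - v, by omega, by omega, rfl⟩),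
          Or.inr (Or.inl (by dsimp only; omega))⟩
      by_cases e3 : v ≤ 7 * s + 8 * t - 1
      · exact ⟨(3 * t + 6 * s + 2 + 2 * (7 * s + 8 * t - 1 - v),
            7 * s + 8 * t - 1 - (7 * s + 8 * t - 1 - v)),
          Or.inr (Or.inr (Or.inl ⟨7 * s + 8 * t - 1 - v, by omega, by omega, rfl⟩)),
          Or.inr (Or.inl (by dsimp only; omega))⟩
      by_cases e4 : v ≤ 10 * s + 8 * t
      · exact ⟨(3 * t + 2 * (v - (7 * s + 8 * t)), 7 * s + 5 * t - (v - (7 * s + 8 * t))),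
          Or.inl ⟨v - (7 * s + 8 * t), by omega, by omega, rfl⟩,
          Or.inr (Or.inr (by dsimp only; omega))⟩
      by_cases e5 : v ≤ 11 * s + 10 * t
      · exact ⟨(t + 1 + 2 * s + 2 * (v - (10 * s + 8 * t + 1)),
            8 * s + 7 * t - (v - (10 * s + 8 * t + 1))),
          Or.inr (Or.inl ⟨v - (10 * s + 8 * t + 1), by omega, by omega, rfl⟩),
          Or.inr (Or.inr (by dsimp only; omega))⟩
      by_cases e6 : v ≤ 12 * s + 10 * t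
      · exact ⟨(t + 1 + 2 * (12 * s + 10 * t - v), 12 * s + 10 * t - (12 * s + 10 * t - v)),
          Or.inr (Or.inr (Or.inr (Or.inl ⟨12 * s + 10 * t - v, by omega, by omega, rfl⟩))),
          Or.inr (Or.inl (by dsimp only; omega))⟩
      by_cases e7 : v ≤ 12 * s + 11 * t
      · exact ⟨(t + 2 * (12 * s + 11 * t - v), 12 * s + 11 * t - (12 * s + 11 * t - v)),
          Or.inr (Or.inr (Or.inr (Or.inr ⟨12 * s + 11 * t - v, by omega, by omega, rfl⟩))),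
          Or.inr (Or.inl (by dsimp only; omega))⟩
      by_cases e8 : v ≤ 13 * s + 11 * t
      · exact ⟨(t + 1 + 2 * (v - (12 * s + 11 * t + 1)),
            12 * s + 10 * t - (v - (12 * s + 11 * t + 1))),
          Or.inr (Or.inr (Or.inr (Or.inl ⟨v - (12 * s + 11 * t + 1), by omega, by omega, rfl⟩))),
          Or.inr (Or.inr (by dsimp only; omega))⟩
      by_cases e9 : v ≤ 12 * s + 12 * t - 1
      · exact ⟨(3 * t + 6 * s + 2 + 2 * (v - (13 * s + 11 * t + 1)),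
            7 * s + 8 * t - 1 - (v - (13 * s + 11 * t + 1))),
          Or.inr (Or.inr (Or.inl ⟨v - (13 * s + 11 * t + 1), by omega, by omega, rfl⟩)),
          Or.inr (Or.inr (by dsimp only; omega))⟩
      exact ⟨(t + 2 * (v - (12 * s + 12 * t)), 12 * s + 11 * t - (v - (12 * s + 12 * t))),
        Or.inr (Or.inr (Or.inr (Or.inr ⟨v - (12 * s + 12 * t), by omega, by omega, rfl⟩))),
        Or.inr (Or.inr (by dsimp only; omega))⟩
  · rintro ⟨p, hp, hv⟩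
    rw [mem_lgT] at hp
    rcases hp with ⟨l, a0, a1, rfl⟩ | ⟨l, a0, a1, rfl⟩ | ⟨l, a0, a1, rfl⟩ | ⟨l, a0, a1, rfl⟩ |
      ⟨l, a0, a1, rfl⟩ <;> (dsimp only at hv; omega)

theorem lang (s t : ℤ) (h0 : 0 ≤ s) (h1 : s + 2 ≤ t) :
    ∃ (T : Finset (ℤ × ℤ)) (c₂ c₃ c₄ : ℤ),
      (∀ p ∈ T, 0 < p.1 ∧ p.1 < p.2) ∧
      (∀ p ∈ T, ∀ q ∈ T, p ≠ q →
        Disjoint ({p.1, p.2, p.1 + p.2} : Finset ℤ) {q.1, q.2, q.1 + q.2}) ∧
      (∀ v, (t ≤ v ∧ v < 13 * t + 12 * s) ↔ ∃ p ∈ T, v = p.1 ∨ v = p.2 ∨ v = p.1 + p.2) ∧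
      (∀ p ∈ T, p.1 < 5 * t + 4 * s ∧ 5 * t + 4 * s ≤ p.2) ∧
      (∀ p ∈ T, (p.2 < c₂ ∧ c₂ ≤ p.1 + p.2) ∨ (p.2 < c₃ ∧ c₃ ≤ p.1 + p.2) ∨
        (p.2 < c₄ ∧ c₄ ≤ p.1 + p.2)) ∧
      Even (c₂ - (5 * t + 4 * s)) ∧ Even (c₃ - c₂) ∧ Even (c₄ - c₃) ∧
      Even (13 * t + 12 * s - c₄) ∧
      t - 1 ≤ c₂ - (5 * t + 4 * s) ∧ t - 1 ≤ c₃ - c₂ ∧ t - 1 ≤ c₄ - c₃ ∧
      t - 1 ≤ 13 * t + 12 * s - c₄ := by
  refine ⟨lgT s t, 5 * t + 4 * s + 3 * (s + t) - (s + t) % 2, 5 * t + 4 * s + 8 * s + 6 * t,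
    5 * t + 4 * s + 8 * s + 7 * t - t % 2, ?_, ?_, ?_, ?_, ?_, ?_, ?_, ?_, ?_, ?_, ?_, ?_, ?_⟩
  · intro p hp
    rw [mem_lgT] at hp
    rcases hp with ⟨l, a0, a1, rfl⟩ | ⟨l, a0, a1, rfl⟩ | ⟨l, a0, a1, rfl⟩ | ⟨l, a0, a1, rfl⟩ |
      ⟨l, a0, a1, rfl⟩ <;> (dsimp only; omega)
  · intro p hp q hq hpq
    rw [Finset.disjoint_left]
    intro v hv hw
    simp only [Finset.mem_insert, Finset.mem_singleton] at hv hw
    exact lg_disj h0 h1 hp hq hpq hv hw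
  · exact lg_surj h0 h1
  · intro p hp
    rw [mem_lgT] at hp
    rcases hp with ⟨l, a0, a1, rfl⟩ | ⟨l, a0, a1, rfl⟩ | ⟨l, a0, a1, rfl⟩ | ⟨l, a0, a1, rfl⟩ |
      ⟨l, a0, a1, rfl⟩ <;> (dsimp only; omega)
  · intro p hp
    rw [mem_lgT] at hp
    rcases hp with ⟨l, a0, a1, rfl⟩ | ⟨l, a0, a1, rfl⟩ | ⟨l, a0, a1, rfl⟩ | ⟨l, a0, a1, rfl⟩ |
      ⟨l, a0, a1, rfl⟩ <;> (dsimp only; omega)
  all_goals first
    | omega
    | (rw [Int.even_iff]; omega)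

end Pool.Agent.Helper74.Hc
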