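import Pool.Agent.Helper74.Hc.Basic

/-! HC-7. Checking tables. Row `a` of the table (`a = 0, …, m`) lists the neighbours of `a`; the
neighbours of `-a` are their negatives. -/

namespace Pool.Agent.Helper74.Hc

open Finset

/-- the neighbours of `x` in the table `T` -/
def nb (T : List (List ℤ)) (x : ℤ) : List ℤ :=
  (T.getD x.natAbs []).map fun y => if x < 0 then -y else y

/-- the check -/
def chk (T : List (List ℤ)) (r : ℕ) (s : ℤ) : Bool :=
  (List.range T.length).all fun a => [(a : ℤ), -(a : ℤ)].all fun x =>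
    decide ((nb T x).Nodup) && decide ((nb T x).length = r) && decide ((nb T x).sum = s * x) &&
      (nb T x).all fun y => decide (y ≠ x) && decide (x ∈ nb T y)

/-- no loops -/
def chk0 (T : List (List ℤ)) : Bool :=
  (List.range T.length).all fun a => decide (-(a : ℤ) ∉ nb T a) && decide ((a : ℤ) ∉ nb T (-(a : ℤ)))

theorem nb_out {T : List (List ℤ)} {x : ℤ} (hx : T.length ≤ x.natAbs) : nb T x = [] := by
  unfold nb
  rw [List.getD_eq_default _ _ hx]
  rfl

theorem chk_row {T : List (List ℤ)} {r : ℕ} {s : ℤ} (h : chk T r s = true) {x : ℤ}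
    (hx : x.natAbs < T.length) : (nb T x).Nodup ∧ (nb T x).length = r ∧ (nb T x).sum = s * x ∧
      ∀ y ∈ nb T x, y ≠ x ∧ x ∈ nb T y := by
  unfold chk at h
  rw [List.all_eq_true] at h
  have h1 := h x.natAbs (List.mem_range.2 hx)
  rw [List.all_eq_true] at h1
  have h2 := h1 x (by
    rcases Int.natAbs_eq x with e | e
    · rw [← e]; simp
    · simp only [List.mem_cons, List.not_mem_nil, or_false]
      right; exact e)
  simp only [Bool.and_eq_true, decide_eq_true_eq, List.all_eq_true] at h2
  exact ⟨h2.1.1.1, h2.1.1.2, h2.1.2, fun y hy => h2.2 y hy⟩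

theorem isLG_of_chk {T : List (List ℤ)} {r : ℕ} {s m : ℤ} (hT : (T.length : ℤ) = m + 1)
    (h : chk T r s = true) : IsLG (fun x => (nb T x).toFinset) (I m) r s := by
  have hin : ∀ x : ℤ, x ∈ I m ↔ x.natAbs < T.length := by
    intro x; rw [mem_I]; omega
  refine ⟨⟨?_, ?_⟩, ?_, ?_, ?_⟩
  · intro x y hy
    rw [List.mem_toFinset] at hy ⊢
    by_cases hx : x.natAbs < T.length
    · exact ((chk_row h hx).2.2.2 y hy).2
    · rw [nb_out (by omega)] at hy
      simp at hy
  · intro x hy
    rw [List.mem_toFinset] at hy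
    by_cases hx : x.natAbs < T.length
    · exact ((chk_row h hx).2.2.2 x hy).1 rfl
    · rw [nb_out (by omega)] at hy
      simp at hy
  · intro x hx
    rw [hin] at hx
    show (nb T x).toFinset = ∅
    rw [nb_out (by omega)]
    rfl
  · intro x hx
    rw [hin] at hx
    have h1 := chk_row h hx
    show ((nb T x).toFinset).card = r
    rw [List.toFinset_card_of_nodup h1.1, h1.2.1]
  · intro x hx
    rw [hin] at hx
    have h1 := chk_row h hx
    show ∑ y ∈ (nb T x).toFinset, y = s * x
    rw [List.sum_toFinset _ h1.1, List.map_id', h1.2.2.1]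

theorem lg_of_chk {T : List (List ℤ)} {r : ℕ} {s m : ℤ} (hT : (T.length : ℤ) = m + 1)
    (h : chk T r s = true) : LG (I m) r s := ⟨_, isLG_of_chk hT h⟩

theorem lg0_of_chk {T : List (List ℤ)} {r : ℕ} {s m : ℤ} (hT : (T.length : ℤ) = m + 1)
    (h : chk T r s = true) (h0 : chk0 T = true) : LG0 (I m) r s := by
  refine ⟨_, isLG_of_chk hT h, ?_⟩
  intro x hx
  rw [List.mem_toFinset] at hx
  by_cases hl : x.natAbs < T.length
  · unfold chk0 at h0
    rw [List.all_eq_true] at h0
    have h1 := h0 x.natAbs (List.mem_range.2 hl)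
    simp only [Bool.and_eq_true, decide_eq_true_eq] at h1
    rcases Int.natAbs_eq x with e | e
    · rw [← e] at h1; exact h1.1 hx
    · have e2 : -(x.natAbs : ℤ) = x := e.symm
      rw [e2] at h1
      have e3 : (x.natAbs : ℤ) = -x := by omega
      rw [e3] at h1
      exact h1.2 hx
  · rw [nb_out (by omega)] at hx
    simp at hx

end Pool.Agent.Helper74.Hc
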