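import Pool.Agent.Helper74.Hc.Basic

/-! HC-3a. The 2-regular graph of a set of disjoint triples `{a, b, a + b}`. -/

namespace Pool.Agent.Helper74.Hc

open Finset

/-- the graph of a set of pairs `(a, b)`, each giving the triangle-like hexagon on
`±a, ±b, ±(a+b)`: `a — a+b — b — -a — -(a+b) — -b — a` -/
def trN (T : Finset (ℤ × ℤ)) (x : ℤ) : Finset ℤ :=
  T.biUnion fun p =>
    if x = p.1 then {p.1 + p.2, -p.2}
    else if x = p.2 then {p.1 + p.2, -p.1}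
    else if x = p.1 + p.2 then {p.1, p.2}
    else if x = -p.1 then {-(p.1 + p.2), p.2}
    else if x = -p.2 then {-(p.1 + p.2), p.1}
    else if x = -(p.1 + p.2) then {-p.1, -p.2}
    else ∅

/-- one hexagon -/
private def trP (p : ℤ × ℤ) (x : ℤ) : Finset ℤ :=
  if x = p.1 then {p.1 + p.2, -p.2}
    else if x = p.2 then {p.1 + p.2, -p.1}
    else if x = p.1 + p.2 then {p.1, p.2}
    else if x = -p.1 then {-(p.1 + p.2), p.2}
    else if x = -p.2 then {-(p.1 + p.2), p.1}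
    else if x = -(p.1 + p.2) then {-p.1, -p.2}
    else ∅

private theorem mem_trP {p : ℤ × ℤ} (h : 0 < p.1 ∧ p.1 < p.2) {x y : ℤ} :
    y ∈ trP p x ↔ (x = p.1 ∧ (y = p.1 + p.2 ∨ y = -p.2)) ∨ (x = p.2 ∧ (y = p.1 + p.2 ∨ y = -p.1)) ∨
      (x = p.1 + p.2 ∧ (y = p.1 ∨ y = p.2)) ∨ (x = -p.1 ∧ (y = -(p.1 + p.2) ∨ y = p.2)) ∨
      (x = -p.2 ∧ (y = -(p.1 + p.2) ∨ y = p.1)) ∨ (x = -(p.1 + p.2) ∧ (y = -p.1 ∨ y = -p.2)) := by
  unfold trP
  split_ifs <;> simp only [Finset.mem_insert, Finset.mem_singleton, Finset.notMem_empty, false_iff] <;>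
    omega

private theorem mem_trN {T : Finset (ℤ × ℤ)} {x y : ℤ} : y ∈ trN T x ↔ ∃ p ∈ T, y ∈ trP p x := by
  unfold trN trP
  rw [Finset.mem_biUnion]

private theorem trP_card {p : ℤ × ℤ} (h : 0 < p.1 ∧ p.1 < p.2) {x : ℤ}
    (hx : |x| = p.1 ∨ |x| = p.2 ∨ |x| = p.1 + p.2) :
    (trP p x).card = 2 ∧ ∑ y ∈ trP p x, y = 1 * x := by
  have hx' : x = p.1 ∨ x = p.2 ∨ x = p.1 + p.2 ∨ x = -p.1 ∨ x = -p.2 ∨ x = -(p.1 + p.2) := by
    rcases abs_cases x with h1 | h1 <;> omega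
  unfold trP
  split_ifs
  · rw [Finset.card_pair (by omega), Finset.sum_pair (by omega)]
    exact ⟨rfl, by omega⟩
  · rw [Finset.card_pair (by omega), Finset.sum_pair (by omega)]
    exact ⟨rfl, by omega⟩
  · rw [Finset.card_pair (by omega), Finset.sum_pair (by omega)]
    exact ⟨rfl, by omega⟩
  · rw [Finset.card_pair (by omega), Finset.sum_pair (by omega)]
    exact ⟨rfl, by omega⟩
  · rw [Finset.card_pair (by omega), Finset.sum_pair (by omega)]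
    exact ⟨rfl, by omega⟩
  · rw [Finset.card_pair (by omega), Finset.sum_pair (by omega)]
    exact ⟨rfl, by omega⟩
  · omega

private theorem trP_abs {p : ℤ × ℤ} (h : 0 < p.1 ∧ p.1 < p.2) {x y : ℤ} (hy : y ∈ trP p x) :
    |x| = p.1 ∨ |x| = p.2 ∨ |x| = p.1 + p.2 := by
  rw [mem_trP h] at hy
  rcases abs_cases x with h1 | h1 <;> omega

/-- HC-3a. For `x = ± a, ± b, ± (a+b)`, `(a, b) ∈ T`, the set `trN T x` is the two element set of the
definition (the pair is unique by `h2`, and `0 < a < b < a + b`). -/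
theorem tr_isLG {T : Finset (ℤ × ℤ)} {X : Finset ℤ} (h1 : ∀ p ∈ T, 0 < p.1 ∧ p.1 < p.2)
    (h2 : ∀ p ∈ T, ∀ q ∈ T, p ≠ q →
      Disjoint ({p.1, p.2, p.1 + p.2} : Finset ℤ) {q.1, q.2, q.1 + q.2})
    (h3 : ∀ v, (v ∈ X ∨ -v ∈ X) → ∃ p ∈ T, |v| = p.1 ∨ |v| = p.2 ∨ |v| = p.1 + p.2)
    (h4 : ∀ p ∈ T, p.1 ∈ X ∧ p.2 ∈ X ∧ p.1 + p.2 ∈ X ∧ -p.1 ∈ X ∧ -p.2 ∈ X ∧ -(p.1 + p.2) ∈ X) :
    IsLG (trN T) X 2 1 ∧ (∀ x, -x ∉ trN T x) ∧ ∀ x y, y ∈ trN T x → -y ∈ trN T (-x) := by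
  classical
  have key : ∀ x, x ∈ X → ∃ p ∈ T, trN T x = trP p x ∧ (|x| = p.1 ∨ |x| = p.2 ∨ |x| = p.1 + p.2) := by
    intro x hx
    obtain ⟨p, hp, hpx⟩ := h3 x (Or.inl hx)
    refine ⟨p, hp, ?_, hpx⟩
    ext y
    rw [mem_trN]
    constructor
    · rintro ⟨q, hq, hy⟩
      by_cases hpq : p = q
      · rw [hpq]; exact hy
      · exfalso
        have hq' := trP_abs (h1 q hq) hy
        have hd := h2 p hp q hq hpq
        rw [Finset.disjoint_left] at hd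
        refine hd (a := |x|) ?_ ?_
        · simpa using hpx
        · simpa using hq'
    · intro hy
      exact ⟨p, hp, hy⟩
  refine ⟨⟨⟨?_, ?_⟩, ?_, ?_, ?_⟩, ?_, ?_⟩
  · intro x y hy
    rw [mem_trN] at hy ⊢
    obtain ⟨p, hp, hy⟩ := hy
    refine ⟨p, hp, ?_⟩
    have := h1 p hp
    rw [mem_trP this] at hy ⊢
    omega
  · intro x hy
    rw [mem_trN] at hy
    obtain ⟨p, hp, hy⟩ := hy
    have := h1 p hp
    rw [mem_trP this] at hy
    omega
  · intro x hx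
    rw [Finset.eq_empty_iff_forall_notMem]
    intro y hy
    rw [mem_trN] at hy
    obtain ⟨p, hp, hy⟩ := hy
    rw [mem_trP (h1 p hp)] at hy
    obtain ⟨a1, a2, a3, a4, a5, a6⟩ := h4 p hp
    apply hx
    rcases hy with h | h | h | h | h | h <;> (rw [h.1]; assumption)
  · intro x hx
    obtain ⟨p, hp, he, ha⟩ := key x hx
    rw [he]
    exact (trP_card (h1 p hp) ha).1
  · intro x hx
    obtain ⟨p, hp, he, ha⟩ := key x hx
    rw [he]
    exact (trP_card (h1 p hp) ha).2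
  · intro x hy
    rw [mem_trN] at hy
    obtain ⟨p, hp, hy⟩ := hy
    have := h1 p hp
    rw [mem_trP this] at hy
    omega
  · intro x y hy
    rw [mem_trN] at hy ⊢
    obtain ⟨p, hp, hy⟩ := hy
    refine ⟨p, hp, ?_⟩
    have := h1 p hp
    rw [mem_trP this] at hy ⊢
    omega

end Pool.Agent.Helper74.Hc
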