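import Mathlib

/-! Label graphs: graphs on a finite set of integers, regular of degree `r`, such that the sum of the
neighbours of `x` is `s * x`. -/

namespace Pool.Agent.Helper74.Hc

open Finset

/-- a locally finite graph on `ℤ`, given by its neighbourhoods -/
structure Gr (N : ℤ → Finset ℤ) : Prop where
  symm : ∀ x y, y ∈ N x → x ∈ N y
  irr : ∀ x, x ∉ N x

/-- `N` is a graph on `X`, regular of degree `r`, and the sum of the neighbours of `x` is `s * x` -/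
structure IsLG (N : ℤ → Finset ℤ) (X : Finset ℤ) (r : ℕ) (s : ℤ) : Prop where
  gr : Gr N
  supp : ∀ x, x ∉ X → N x = ∅
  card : ∀ x ∈ X, (N x).card = r
  sum : ∀ x ∈ X, ∑ y ∈ N x, y = s * x

/-- some label graph on `X` -/
def LG (X : Finset ℤ) (r : ℕ) (s : ℤ) : Prop := ∃ N, IsLG N X r s

/-- some label graph on `X` without edges `x — -x` -/
def LG0 (X : Finset ℤ) (r : ℕ) (s : ℤ) : Prop := ∃ N, IsLG N X r s ∧ ∀ x, -x ∉ N x

/-- the interval `[-m, m]` -/
noncomputable def I (m : ℤ) : Finset ℤ := Icc (-m) m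

/-- the symmetric double interval `±[a, b]` -/
noncomputable def SI (a b : ℤ) : Finset ℤ := Icc a b ∪ Icc (-b) (-a)

/-- some centrally symmetric label graph on `X` without edges `x — -x` -/
def LGS (X : Finset ℤ) (r : ℕ) (s : ℤ) : Prop :=
  ∃ N, IsLG N X r s ∧ (∀ x, -x ∉ N x) ∧ ∀ x y, y ∈ N x → -y ∈ N (-x)

/-- there are at most `B` points `x` with an edge `x — -x` -/
def Loops (N : ℤ → Finset ℤ) (B : ℕ) : Prop := ∃ S : Finset ℤ, S.card ≤ B ∧ ∀ x, -x ∈ N x → x ∈ S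

/-- all sufficiently large intervals `[-m, m]` carry a label graph with a bounded number of loops -/
def Big (r : ℕ) (s : ℤ) : Prop :=
  ∃ (M : ℤ) (B : ℕ), ∀ m, M ≤ m → ∃ N, IsLG N (I m) r s ∧ Loops N B

theorem mem_I {m x : ℤ} : x ∈ I m ↔ -m ≤ x ∧ x ≤ m := by simp [I]

theorem mem_SI {a b x : ℤ} : x ∈ SI a b ↔ (a ≤ x ∧ x ≤ b) ∨ (-b ≤ x ∧ x ≤ -a) := by simp [SI]

theorem LG0.lg {X : Finset ℤ} {r : ℕ} {s : ℤ} (h : LG0 X r s) : LG X r s := by
  obtain ⟨N, h1, _⟩ := h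
  exact ⟨N, h1⟩

theorem IsLG.sub {N : ℤ → Finset ℤ} {X : Finset ℤ} {r : ℕ} {s : ℤ} (h : IsLG N X r s) {x y : ℤ}
    (hy : y ∈ N x) : x ∈ X ∧ y ∈ X := by
  constructor
  · by_contra hx
    rw [h.supp x hx] at hy
    simp at hy
  · have := h.gr.symm x y hy
    by_contra hx
    rw [h.supp y hx] at this
    simp at this

theorem LGS.lg0 {X : Finset ℤ} {r : ℕ} {s : ℤ} (h : LGS X r s) : LG0 X r s := by
  obtain ⟨N, h1, h2, _⟩ := h
  exact ⟨N, h1, h2⟩

end Pool.Agent.Helper74.Hc
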