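import Pool.Agent.Helper74.Hc.Union
import Pool.Agent.Helper48.HcSizes
import Pool.Agent.Helper48.HcEven

/-! HC-5a, 5b. Blocks: translation invariant signed structures on `n` consecutive classes.
`Str d vl P N` (Helper48): `P` same sign adjacency, `N` opposite sign adjacency, all row sums of `P - N`
are `d`, and `∑ (P - N) a b * b = d * a`. Here `P` and `N` may share entries. -/

namespace Pool.Agent.Helper74.Hc

open Finset Pool.Agent.Helper48

/-- a translation invariant block on `n` classes, degree `r`, slope `d`, no loops -/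
def CB (r : ℕ) (d : ℤ) (n : ℕ) : Prop :=
  ∃ P N : Fin n → Fin n → ℤ, Str d vl P N ∧ (∀ a, N a a = 0) ∧ ∀ a, ∑ b, (P a b + N a b) = r

open Classical in
/-- neighbourhoods of the label graph of a block -/
private noncomputable def bl1N {n : ℕ} (P N : Fin n → Fin n → ℤ) (u : ℤ) (x : ℤ) : Finset ℤ :=
  (univ.filter (fun b : Fin n => ∃ a : Fin n, |x| = u + a.val ∧ P a b = 1)).image
      (fun b => x.sign * (u + b.val)) ∪
    (univ.filter (fun b : Fin n => ∃ a : Fin n, |x| = u + a.val ∧ N a b = 1)).image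
      (fun b => -x.sign * (u + b.val))

private theorem bl1_mem {n : ℕ} {P N : Fin n → Fin n → ℤ} {u x y : ℤ} :
    y ∈ bl1N P N u x ↔ ∃ a b : Fin n, |x| = u + a.val ∧
      ((P a b = 1 ∧ y = x.sign * (u + b.val)) ∨ (N a b = 1 ∧ y = -x.sign * (u + b.val))) := by
  classical
  simp only [bl1N, mem_union, mem_image, mem_filter, mem_univ, true_and]
  constructor
  · rintro (⟨b, ⟨a, h1, h2⟩, rfl⟩ | ⟨b, ⟨a, h1, h2⟩, rfl⟩)
    · exact ⟨a, b, h1, Or.inl ⟨h2, rfl⟩⟩
    · exact ⟨a, b, h1, Or.inr ⟨h2, rfl⟩⟩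
  · rintro ⟨a, b, h1, ⟨h2, rfl⟩ | ⟨h2, rfl⟩⟩
    · exact Or.inl ⟨b, ⟨a, h1, h2⟩, rfl⟩
    · exact Or.inr ⟨b, ⟨a, h1, h2⟩, rfl⟩

private theorem bl1_cases {n : ℕ} {u x : ℤ} (hu : 1 ≤ u) {a : Fin n} (h : |x| = u + a.val) :
    (x.sign = 1 ∧ x = u + a.val) ∨ (x.sign = -1 ∧ x = -(u + a.val)) := by
  have ha : (0 : ℤ) ≤ a.val := by positivity
  rcases lt_trichotomy x 0 with h0 | h0 | h0
  · right
    rw [abs_of_neg h0] at h
    exact ⟨Int.sign_eq_neg_one_of_neg h0, by omega⟩
  · subst h0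
    simp at h
    omega
  · left
    rw [abs_of_pos h0] at h
    exact ⟨Int.sign_eq_one_of_pos h0, h⟩

private theorem bl1_eq {n : ℕ} {P N : Fin n → Fin n → ℤ} {u x s : ℤ} {a : Fin n}
    (h : |x| = u + a.val) (hs : x.sign = s) : bl1N P N u x =
      (univ.filter (fun b : Fin n => P a b = 1)).image (fun b => s * (u + b.val)) ∪
      (univ.filter (fun b : Fin n => N a b = 1)).image (fun b => -s * (u + b.val)) := by
  ext y
  rw [bl1_mem]
  simp only [mem_union, mem_image, mem_filter, mem_univ, true_and]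
  constructor
  · rintro ⟨a', b, h1, h2⟩
    have : a' = a := Fin.ext (by omega)
    subst this
    rw [hs] at h2
    rcases h2 with ⟨h3, h4⟩ | ⟨h3, h4⟩
    · exact Or.inl ⟨b, h3, h4.symm⟩
    · exact Or.inr ⟨b, h3, h4.symm⟩
  · rintro (⟨b, h1, h2⟩ | ⟨b, h1, h2⟩)
    · exact ⟨a, b, h, Or.inl ⟨h1, by rw [hs, h2]⟩⟩
    · exact ⟨a, b, h, Or.inr ⟨h1, by rw [hs, h2]⟩⟩

private theorem bl1_idx {n : ℕ} {u x : ℤ} (hu : 1 ≤ u) (hx : x ∈ SI u (u + n - 1)) :
    ∃ a : Fin n, |x| = u + a.val := by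
  rw [mem_SI] at hx
  have h1 : u ≤ |x| ∧ |x| ≤ u + n - 1 := by
    rcases hx with ⟨h1, h2⟩ | ⟨h1, h2⟩
    · rw [abs_of_nonneg (by omega)]; omega
    · rw [abs_of_nonpos (by omega)]; omega
  exact ⟨⟨(|x| - u).toNat, by omega⟩, by simp only; omega⟩

private theorem bl1_sI {n : ℕ} {u x : ℤ} (hu : 1 ≤ u) {a : Fin n} (h : |x| = u + a.val) :
    x ∈ SI u (u + n - 1) := by
  have ha := a.isLt
  rw [mem_SI]
  rcases bl1_cases hu h with ⟨_, h1⟩ | ⟨_, h1⟩
  · left; omega
  · right; omega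

private theorem bl1_sum {n : ℕ} {A : Fin n → ℤ} (hA : ∀ b, A b = 0 ∨ A b = 1) (f : Fin n → ℤ) :
    ∑ b ∈ univ.filter (fun b : Fin n => A b = 1), f b = ∑ b, A b * f b := by
  rw [sum_filter]
  apply sum_congr rfl
  intro b _
  rcases hA b with h | h <;> simp [h]

private theorem bl1_card {n : ℕ} {A : Fin n → ℤ} (hA : ∀ b, A b = 0 ∨ A b = 1) :
    ((univ.filter (fun b : Fin n => A b = 1)).card : ℤ) = ∑ b, A b := by
  have := bl1_sum hA (fun _ => 1)
  simpa using this

/-- HC-5a. The class `a : Fin n` stands for the labels `±(u + a)`: the neighbours of `ε (u + a)` are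
`ε (u + b)` for `P a b = 1` and `-ε (u + b)` for `N a b = 1`. -/
theorem CB.toLGS {r : ℕ} {d : ℤ} {n : ℕ} (h : CB r d n) (u : ℤ) (hu : 1 ≤ u) :
    LGS (SI u (u + n - 1)) r d := by
  obtain ⟨P, N, hS, hN, hr⟩ := h
  -- the two images are disjoint and the maps injective
  have hinj : ∀ s : ℤ, (s = 1 ∨ s = -1) → Function.Injective (fun b : Fin n => s * (u + b.val)) := by
    intro s hs b b' hb
    have hb' : s * (u + b.val) = s * (u + b'.val) := hb
    apply Fin.ext
    rcases hs with rfl | rfl <;> omega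
  have hdis : ∀ (s : ℤ) (A B : Finset (Fin n)), (s = 1 ∨ s = -1) →
      Disjoint (A.image (fun b : Fin n => s * (u + b.val)))
        (B.image (fun b : Fin n => -s * (u + b.val))) := by
    intro s A B hs
    rw [Finset.disjoint_left]
    intro y h1 h2
    rw [mem_image] at h1 h2
    obtain ⟨b, _, hb⟩ := h1
    obtain ⟨b', _, hb'⟩ := h2
    rcases hs with rfl | rfl <;> omega
  refine ⟨bl1N P N u, ⟨⟨?_, ?_⟩, ?_, ?_, ?_⟩, ?_, ?_⟩
  · intro x y hy
    rw [bl1_mem] at hy ⊢
    obtain ⟨a, b, h1, h2⟩ := hy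
    have hb : (0 : ℤ) ≤ b.val := by positivity
    refine ⟨b, a, ?_, ?_⟩
    · rcases bl1_cases hu h1 with ⟨hs, hx⟩ | ⟨hs, hx⟩ <;>
        rcases h2 with ⟨_, h4⟩ | ⟨_, h4⟩ <;> rw [hs] at h4
      · rw [abs_of_nonneg (by omega)]; omega
      · rw [abs_of_nonpos (by omega)]; omega
      · rw [abs_of_nonpos (by omega)]; omega
      · rw [abs_of_nonneg (by omega)]; omega
    · rcases bl1_cases hu h1 with ⟨hs, hx⟩ | ⟨hs, hx⟩ <;>
        rcases h2 with ⟨h3, h4⟩ | ⟨h3, h4⟩ <;> rw [hs] at h4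
      · left
        rw [Int.sign_eq_one_of_pos (show 0 < y by omega)]
        exact ⟨by rw [hS.adj.symm]; exact h3, by omega⟩
      · right
        rw [Int.sign_eq_neg_one_of_neg (show y < 0 by omega)]
        exact ⟨by rw [hS.symm]; exact h3, by omega⟩
      · left
        rw [Int.sign_eq_neg_one_of_neg (show y < 0 by omega)]
        exact ⟨by rw [hS.adj.symm]; exact h3, by omega⟩
      · right
        rw [Int.sign_eq_one_of_pos (show 0 < y by omega)]
        exact ⟨by rw [hS.symm]; exact h3, by omega⟩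
  · intro x hx
    rw [bl1_mem] at hx
    obtain ⟨a, b, h1, h2⟩ := hx
    have hb : (0 : ℤ) ≤ b.val := by positivity
    have ha : (0 : ℤ) ≤ a.val := by positivity
    rcases bl1_cases hu h1 with ⟨hs, hx⟩ | ⟨hs, hx⟩ <;>
      rcases h2 with ⟨h3, h4⟩ | ⟨h3, h4⟩ <;> rw [hs] at h4
    · have : a = b := Fin.ext (by omega)
      subst this
      rw [hS.adj.diag] at h3
      exact absurd h3 (by norm_num)
    · omega
    · have : a = b := Fin.ext (by omega)
      subst this
      rw [hS.adj.diag] at h3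
      exact absurd h3 (by norm_num)
    · omega
  · intro x hx
    rw [Finset.eq_empty_iff_forall_notMem]
    intro y hy
    rw [bl1_mem] at hy
    obtain ⟨a, b, h1, _⟩ := hy
    exact hx (bl1_sI hu h1)
  · intro x hx
    obtain ⟨a, ha⟩ := bl1_idx hu hx
    have hs : x.sign = 1 ∨ x.sign = -1 := by
      rcases bl1_cases hu ha with h | h
      · exact Or.inl h.1
      · exact Or.inr h.1
    rw [bl1_eq ha rfl, card_union_of_disjoint (hdis _ _ _ hs), card_image_of_injective _ (hinj _ hs),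
      card_image_of_injective _ (hinj _ (by rcases hs with h | h <;> simp [h]))]
    have h1 := bl1_card (hS.adj.zo a)
    have h2 := bl1_card (hS.zo a)
    have h3 := hr a
    rw [sum_add_distrib] at h3
    have h4 : (((univ.filter (fun b : Fin n => P a b = 1)).card +
      (univ.filter (fun b : Fin n => N a b = 1)).card : ℕ) : ℤ) = (r : ℤ) := by
      push_cast
      rw [h1, h2, h3]
    exact_mod_cast h4
  · intro x hx
    obtain ⟨a, ha⟩ := bl1_idx hu hx
    have hs : x.sign = 1 ∨ x.sign = -1 := by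
      rcases bl1_cases hu ha with h | h
      · exact Or.inl h.1
      · exact Or.inr h.1
    have hx' : x = x.sign * (u + a.val) := by
      rcases bl1_cases hu ha with ⟨h, h'⟩ | ⟨h, h'⟩ <;> rw [h] <;> omega
    rw [bl1_eq ha rfl, sum_union (hdis _ _ _ hs), sum_image (fun b _ b' _ hb => hinj _ hs hb),
      sum_image (fun b _ b' _ hb => hinj _ (by rcases hs with h | h <;> simp [h]) hb),
      bl1_sum (hS.adj.zo a), bl1_sum (hS.zo a)]
    have h1 := hS.dg a
    have h2 := hS.sm a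
    have h3 : ∑ b, P a b * (x.sign * (u + b.val)) + ∑ b, N a b * (-x.sign * (u + b.val)) =
        x.sign * (u * ∑ b, (P a b - N a b) + ∑ b, (P a b - N a b) * vl b) := by
      rw [mul_sum, ← sum_add_distrib, ← sum_add_distrib, mul_sum]
      apply sum_congr rfl
      intro b _
      simp only [vl]
      ring
    rw [h3, h1, h2]
    conv_rhs => rw [hx']
    simp only [vl]
    ring
  · intro x hx
    rw [bl1_mem] at hx
    obtain ⟨a, b, h1, h2⟩ := hx
    have hb : (0 : ℤ) ≤ b.val := by positivity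
    have ha : (0 : ℤ) ≤ a.val := by positivity
    rcases bl1_cases hu h1 with ⟨hs, hx⟩ | ⟨hs, hx⟩ <;>
      rcases h2 with ⟨h3, h4⟩ | ⟨h3, h4⟩ <;> rw [hs] at h4
    · omega
    · have : a = b := Fin.ext (by omega)
      subst this
      rw [hN] at h3
      exact absurd h3 (by norm_num)
    · omega
    · have : a = b := Fin.ext (by omega)
      subst this
      rw [hN] at h3
      exact absurd h3 (by norm_num)
  · intro x y hy
    rw [bl1_mem] at hy ⊢
    obtain ⟨a, b, h1, h2⟩ := hy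
    refine ⟨a, b, by rw [abs_neg]; exact h1, ?_⟩
    rw [Int.sign_neg]
    rcases h2 with ⟨h3, h4⟩ | ⟨h3, h4⟩
    · left; exact ⟨h3, by rw [h4]; ring⟩
    · right; exact ⟨h3, by rw [h4]; ring⟩

/-- HC-5b. `fsum_str`. -/
theorem CB.add {r : ℕ} {d : ℤ} {n₁ n₂ : ℕ} (h₁ : CB r d n₁) (h₂ : CB r d n₂) :
    CB r d (n₁ + n₂) := by
  obtain ⟨P, N, hS, hN, hr⟩ := h₁
  obtain ⟨P', N', hS', hN', hr'⟩ := h₂
  refine ⟨fsum P P', fsum N N', fsum_str hS hS', ?_, ?_⟩
  · intro a
    obtain ⟨x, rfl⟩ := finSumFinEquiv.surjective a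
    rcases x with a | a
    · rw [fsum_ll]; exact hN a
    · rw [fsum_rr]; exact hN' a
  · intro a
    obtain ⟨x, rfl⟩ := finSumFinEquiv.surjective a
    rcases x with a | a
    · have h1 := fsum_deg_l P P' a
      have h2 := fsum_deg_l N N' a
      have h3 := hr a
      unfold deg at h1 h2
      rw [sum_add_distrib] at h3 ⊢
      rw [h1, h2]; exact h3
    · have h1 := fsum_deg_r P P' a
      have h2 := fsum_deg_r N N' a
      have h3 := hr' a
      unfold deg at h1 h2
      rw [sum_add_distrib] at h3 ⊢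
      rw [h1, h2]; exact h3

theorem cb_ne {d : ℕ} {n : ℕ} (h : HasNe (d : ℤ) n) : CB (d + 2) d n := by
  obtain ⟨P, N, hS, hI, hN⟩ := h
  refine ⟨P, N, hS, fun a => (hN a a).2, fun a => ?_⟩
  have h1 := hS.dg a
  have h2 := hI.row a
  rw [sum_sub_distrib, h2] at h1
  rw [sum_add_distrib, h2]
  push_cast
  linarith

end Pool.Agent.Helper74.Hc
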