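import Pool.Agent.Helper74.Hc.Blocks1

/-! HC-5c - 5g. Existence of blocks. The tables for `cb_42` (rows as bit masks, for `mk` of
`Helper48.HcTables`, proofs there by `decide +kernel`) are below. -/

namespace Pool.Agent.Helper74.Hc

open Finset Pool.Agent.Helper48

def PB8 : Fin 8 → Fin 8 → ℤ := mk [22, 41, 73, 134, 97, 146, 148, 104] 8
def NB8 : Fin 8 → Fin 8 → ℤ := mk [128, 64, 32, 16, 8, 4, 2, 1] 8
def PB10 : Fin 10 → Fin 10 → ℤ := mk [28, 44, 259, 515, 97, 146, 400, 608, 580, 392] 10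
def NB10 : Fin 10 → Fin 10 → ℤ := mk [512, 256, 32, 16, 8, 4, 128, 64, 2, 1] 10
def PB12 : Fin 12 → Fin 12 → ℤ := mk [38, 73, 385, 146, 584, 2305, 1042, 1036, 548, 2320, 2240, 1568] 12
def NB12 : Fin 12 → Fin 12 → ℤ := mk [256, 128, 2048, 64, 1024, 512, 8, 2, 1, 32, 16, 4] 12

def blocks2M2 : Fin 2 → Fin 2 → ℤ := mk [2, 1] 2
def blocks2C4 : Fin 4 → Fin 4 → ℤ := mk [10, 5, 10, 5] 4
def blocks2C6 : Fin 6 → Fin 6 → ℤ := mk [34, 5, 10, 20, 40, 17] 6

theorem blocks2_zero (r : ℕ) (d : ℤ) : CB r d 0 :=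
  ⟨fun _ _ => 0, fun _ _ => 0, ⟨⟨fun a => a.elim0, fun a => a.elim0, fun a => a.elim0⟩,
    fun a => a.elim0, fun a => a.elim0, fun a => a.elim0, fun a => a.elim0⟩,
    fun a => a.elim0, fun a => a.elim0⟩

theorem blocks2_mul {r : ℕ} {d : ℤ} {n : ℕ} (h : CB r d n) (k : ℕ) : CB r d (k * n) := by
  induction k with
  | zero => rw [Nat.zero_mul]; exact blocks2_zero r d
  | succ k ih => rw [Nat.succ_mul]; exact CB.add ih h

theorem blocks2_strM2 : Str 0 (fun a : Fin 2 => (a : ℤ)) blocks2M2 blocks2M2 := by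
  refine ⟨⟨?_, ?_, ?_⟩, ?_, ?_, ?_, ?_⟩ <;> decide +kernel

theorem blocks2_strC4 : Str 0 (fun a : Fin 4 => (a : ℤ)) blocks2C4 blocks2C4 := by
  refine ⟨⟨?_, ?_, ?_⟩, ?_, ?_, ?_, ?_⟩ <;> decide +kernel

theorem blocks2_strC6 : Str 0 (fun a : Fin 6 => (a : ℤ)) blocks2C6 blocks2C6 := by
  refine ⟨⟨?_, ?_, ?_⟩, ?_, ?_, ?_, ?_⟩ <;> decide +kernel

theorem blocks2_str8 : Str 2 (fun a : Fin 8 => (a : ℤ)) PB8 NB8 := by
  refine ⟨⟨?_, ?_, ?_⟩, ?_, ?_, ?_, ?_⟩ <;> decide +kernel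

theorem blocks2_str10 : Str 2 (fun a : Fin 10 => (a : ℤ)) PB10 NB10 := by
  refine ⟨⟨?_, ?_, ?_⟩, ?_, ?_, ?_, ?_⟩ <;> decide +kernel

theorem blocks2_str12 : Str 2 (fun a : Fin 12 => (a : ℤ)) PB12 NB12 := by
  refine ⟨⟨?_, ?_, ?_⟩, ?_, ?_, ?_, ?_⟩ <;> decide +kernel

theorem blocks2_cb_2 : CB 2 0 2 :=
  ⟨blocks2M2, blocks2M2, blocks2_strM2, by decide +kernel, by decide +kernel⟩

theorem blocks2_cb_4 : CB 4 0 4 :=
  ⟨blocks2C4, blocks2C4, blocks2_strC4, by decide +kernel, by decide +kernel⟩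

theorem blocks2_cb_6 : CB 4 0 6 :=
  ⟨blocks2C6, blocks2C6, blocks2_strC6, by decide +kernel, by decide +kernel⟩

theorem blocks2_cb_8 : CB 4 2 8 :=
  ⟨PB8, NB8, blocks2_str8, by decide +kernel, by decide +kernel⟩

theorem blocks2_cb_10 : CB 4 2 10 :=
  ⟨PB10, NB10, blocks2_str10, by decide +kernel, by decide +kernel⟩

theorem blocks2_cb_12 : CB 4 2 12 :=
  ⟨PB12, NB12, blocks2_str12, by decide +kernel, by decide +kernel⟩

/-- HC-5c. `P = N` a perfect matching -/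
theorem cb_20 (n : ℕ) : CB 2 0 (2 * n) := by
  rw [mul_comm]
  exact blocks2_mul blocks2_cb_2 n

/-- HC-5d. `P = N` a 2-regular graph (4-cycles and 6-cycles) -/
theorem cb_40 (n : ℕ) (hn : 2 ≤ n) : CB 4 0 (2 * n) := by
  obtain ⟨x, y, hxy⟩ : ∃ x y, 2 * n = x * 4 + y * 6 :=
    ⟨(n - (n % 2) * 3) / 2, n % 2, by omega⟩
  rw [hxy]
  exact CB.add (blocks2_mul blocks2_cb_4 x) (blocks2_mul blocks2_cb_6 y)

/-- HC-5e. the tables for `8, 10, 12`, then sums (every `n ≥ 8` is `4 x + 5 y + 6 z`) -/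
theorem cb_42 (n : ℕ) (hn : 8 ≤ n) : CB 4 2 (2 * n) := by
  obtain ⟨x, y, z, hxyz⟩ : ∃ x y z, 2 * n = x * 8 + y * 10 + z * 12 := by
    rcases (by omega : n % 4 = 0 ∨ n % 4 = 1 ∨ n % 4 = 2 ∨ n % 4 = 3) with h | h | h | h
    · exact ⟨n / 4, 0, 0, by omega⟩
    · exact ⟨n / 4 - 1, 1, 0, by omega⟩
    · exact ⟨n / 4 - 1, 0, 1, by omega⟩
    · exact ⟨n / 4 - 2, 1, 1, by omega⟩
  rw [hxyz]
  exact CB.add (CB.add (blocks2_mul blocks2_cb_8 x) (blocks2_mul blocks2_cb_10 y))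
    (blocks2_mul blocks2_cb_12 z)

/-- HC-5f. add a perfect matching `K` (to both `P` and `N`) avoiding `P` and `N`; use
`exists_graph_deg` with `F = uni P N` -/
theorem cb_match {r : ℕ} {d : ℤ} {L : ℕ} (h : ∀ n, L ≤ n → CB r d (2 * n)) :
    ∃ L', ∀ n, L' ≤ n → CB (r + 2) d (2 * n) := by
  refine ⟨L + (2 * r + 7) * (r + 6), fun n hn => ?_⟩
  have hq : r + 2 < (2 * r + 7) * (r + 6) := by nlinarith
  obtain ⟨P, N, hS, hd, hr⟩ := h n (by omega)
  have hP := hS.adj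
  have hN := hS.zo
  have hF := uni_isAdj hP hN hS.symm
  have hFd : ∀ a, deg (uni P N) a ≤ r := by
    intro a
    rw [uni_deg hP]
    have h1 := exc_nonneg hP hN a
    have h2 := hr a
    rw [Finset.sum_add_distrib] at h2
    unfold deg
    omega
  have hbig : ((2 * r + 7) * (r + 6) : ℕ) < 2 * n := by omega
  have hbigZ : (2 * (r : ℤ) + 7) * ((r : ℤ) + 6) < 2 * (n : ℤ) := by exact_mod_cast hbig
  have hqZ : (r : ℤ) + 2 < (2 * (r : ℤ) + 7) * ((r : ℤ) + 6) := by exact_mod_cast hq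
  obtain ⟨K, hK, hK1, hK2⟩ := exists_graph_deg (m := 2 * n) hF (Δ := r) (δ := 0) (Z := 0) hFd
    (k := fun _ => 1) (fun _ => by norm_num)
    (fun a => by
      have := hFd a
      push_cast
      omega)
    (fun _ _ => by norm_num)
    (by simp)
    (by
      have : univ.filter (fun a : Fin (2 * n) => ((2 * n : ℕ) : ℤ) - 1 - deg (uni P N) a - 1 = 0) = ∅ := by
        apply Finset.filter_false_of_mem
        intro a _
        have := hFd a
        push_cast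
        omega
      rw [this]; simp)
    (by
      rw [Finset.sum_const, Finset.card_univ, Fintype.card_fin]
      exact ⟨n, by simp; ring⟩)
    (by
      push_cast
      linarith)
  obtain ⟨g1, g2⟩ := le_of_uni hK hP hN hK1
  have hN0 : ∀ a b, 0 ≤ N a b := fun a b => by rcases hN a b with h | h <;> omega
  refine ⟨fun a b => P a b + K a b, fun a b => N a b + K a b, ⟨?_, ?_, ?_, ?_, ?_⟩, ?_, ?_⟩
  · exact add_isAdj hP hK (fun a b => by have := g1 a b; omega)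
  · intro a b
    have h1 := g2 a b
    have h2 := hN0 a b
    have h3 := hK.nonneg a b
    show N a b + K a b = 0 ∨ N a b + K a b = 1
    omega
  · intro a b
    show N a b + K a b = N b a + K b a
    rw [hS.symm a b, hK.symm a b]
  · intro a
    rw [← hS.dg a]
    apply Finset.sum_congr rfl
    intro b _
    ring
  · intro a
    rw [← hS.sm a]
    apply Finset.sum_congr rfl
    intro b _
    ring
  · intro a
    show N a a + K a a = 0
    rw [hd, hK.diag]; rfl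
  · intro a
    have h1 := hr a
    have h2 : ∑ b, K a b = 1 := hK2 a
    have h3 : ∀ b, (P a b + K a b) + (N a b + K a b) = (P a b + N a b) + 2 * K a b := fun b => by ring
    rw [Finset.sum_congr rfl (fun b _ => h3 b), Finset.sum_add_distrib, h1, ← Finset.mul_sum, h2]
    push_cast
    ring

/-- HC-5g. from `hasNe_even` -/
theorem cb_even (e : ℕ) : ∃ L, ∀ n, L ≤ n → CB (2 * e + 4) (2 * e + 2) (2 * n) := by
  refine ⟨40 * 23 ^ e, fun n hn => ?_⟩
  have h1 : HasNe (2 * (e : ℤ) + 2) (2 * n) := hasNe_even e n (by omega)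
  have h2 : HasNe (((2 * e + 2 : ℕ)) : ℤ) (2 * n) := by
    have : (((2 * e + 2 : ℕ)) : ℤ) = 2 * (e : ℤ) + 2 := by push_cast; ring
    rw [this]; exact h1
  have h3 := cb_ne h2
  have h4 : (((2 * e + 2 : ℕ)) : ℤ) = 2 * (e : ℤ) + 2 := by push_cast; ring
  rw [h4] at h3
  exact h3

end Pool.Agent.Helper74.Hc
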