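import Pool.Agent.Helper74.Hc.Cert

/-! Tables: degree 4, slope 1 and -1. -/

namespace Pool.Agent.Helper74.Hc

def t4_1_13 : List (List ℤ) :=
  [[12, -12, 13, -13], [-12, -7, 7, 13], [-7, -2, 5, 6], [-11, -4, 6, 12], [-11, -3, 5, 13], [-10, 2, 4, 9], [-8, 2, 3, 9], [-2, -1, 1, 9], [-10, -6, 11, 13], [-9, 5, 6, 7], [-8, -5, 11, 12], [-4, -3, 8, 10], [-1, 0, 3, 10], [0, 1, 4, 8]]

theorem c4_1_13 : LG (I 13) 4 (1) :=
  lg_of_chk (T := t4_1_13) (by decide +kernel) (by decide +kernel)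

def t4_1_14 : List (List ℤ) :=
  [[7, -7, 10, -10], [-12, -1, 6, 8], [-10, -8, 9, 11], [-9, -5, 4, 13], [-9, -4, 3, 14], [-8, -3, 6, 10], [-12, 1, 5, 12], [-14, 0, 10, 11], [-5, -2, 1, 14], [-4, -3, 2, 14], [-2, 0, 5, 7], [-11, 2, 7, 13], [-6, -1, 6, 13], [-13, 3, 11, 12], [-7, 4, 8, 9]]

theorem c4_1_14 : LG (I 14) 4 (1) :=
  lg_of_chk (T := t4_1_14) (by decide +kernel) (by decide +kernel)

def t4_1_15 : List (List ℤ) :=
  [[7, -7, 13, -13], [-7, -6, -1, 15], [-10, -6, 4, 14], [-11, -9, 8, 15], [-7, -4, 2, 13], [-13, -5, 8, 15], [-6, -2, -1, 15], [-4, -1, 0, 12], [-11, 3, 5, 11], [-10, -3, 10, 12], [-9, -2, 9, 12], [-8, -3, 8, 14], [-14, 7, 9, 10], [-5, 0, 4, 14], [-12, 2, 11, 13], [1, 3, 5, 6]]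

theorem c4_1_15 : LG (I 15) 4 (1) :=
  lg_of_chk (T := t4_1_15) (by decide +kernel) (by decide +kernel)

def t4_1_16 : List (List ℤ) :=
  [[11, -11, 15, -15], [-8, -6, 3, 12], [-12, -5, 7, 12], [-13, 1, 6, 9], [-13, -6, 10, 13], [-16, -2, 9, 14], [-4, -1, 3, 8], [-16, 2, 10, 11], [-11, -1, 6, 14], [-14, 3, 5, 15], [-15, 4, 7, 14], [-8, 0, 7, 12], [-2, 1, 2, 11], [-4, -3, 4, 16], [-9, 5, 8, 10], [-10, 0, 9, 16], [-7, -5, 13, 15]]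

theorem c4_1_16 : LG (I 16) 4 (1) :=
  lg_of_chk (T := t4_1_16) (by decide +kernel) (by decide +kernel)

def t4_1_17 : List (List ℤ) :=
  [[1, -1, 12, -12], [-14, -1, 0, 16], [-15, -8, 10, 15], [-17, -3, 8, 15], [-16, -11, 14, 17], [-14, -7, 10, 16], [-8, -6, 7, 13], [-11, -5, 6, 17], [-6, -2, 3, 13], [-10, -9, 11, 17], [-9, 2, 5, 12], [-7, -4, 9, 13], [-13, 0, 10, 15], [-12, 6, 8, 11], [-5, -1, 4, 16], [-2, 2, 3, 12], [-4, 1, 5, 14], [-3, 4, 7, 9]]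

theorem c4_1_17 : LG (I 17) 4 (1) :=
  lg_of_chk (T := t4_1_17) (by decide +kernel) (by decide +kernel)

def t4_1_18 : List (List ℤ) :=
  [[7, -7, 8, -8], [-14, -4, 7, 12], [-13, -9, 7, 17], [-14, -3, 8, 12], [-18, -1, 7, 16], [-18, -6, 14, 15], [-9, -5, 9, 11], [0, 1, 2, 4], [-12, 0, 3, 17], [-6, -2, 6, 11], [-13, -10, 15, 18], [-17, 6, 9, 13], [-8, 1, 3, 16], [-10, -2, 11, 14], [-3, -1, 5, 13], [-16, 5, 10, 16], [-15, 4, 12, 15], [-11, 2, 8, 18], [-5, -4, 10, 17]]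

theorem c4_1_18 : LG (I 18) 4 (1) :=
  lg_of_chk (T := t4_1_18) (by decide +kernel) (by decide +kernel)

def t4_1_19 : List (List ℤ) :=
  [[5, -5, 11, -11], [-15, 2, 4, 10], [-14, 1, 6, 9], [-13, -10, 7, 19], [-10, -6, 1, 19], [-9, -5, 0, 19], [-9, -4, 2, 17], [-8, -7, 3, 19], [-12, -7, 11, 16], [-6, -5, 2, 18], [-4, -3, 1, 16], [-14, 0, 8, 17], [-12, -8, 14, 18], [-17, -3, 16, 17], [-11, -2, 12, 15], [-16, -1, 14, 18], [-15, 8, 10, 13], [-13, 6, 11, 13], [-18, 9, 12, 15], [3, 4, 5, 7]]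

theorem c4_1_19 : LG (I 19) 4 (1) :=
  lg_of_chk (T := t4_1_19) (by decide +kernel) (by decide +kernel)

def t4_1_20 : List (List ℤ) :=
  [[9, -9, 11, -11], [-20, -10, 15, 16], [-14, -9, 12, 13], [-17, -3, 10, 13], [-7, -5, -4, 20], [-6, -5, -4, 20], [-15, -5, 11, 15], [-9, -4, 8, 12], [-10, -8, 7, 19], [-7, -2, 0, 18], [-8, -1, 3, 16], [-13, 0, 6, 18], [-17, 2, 7, 20], [-11, 2, 3, 19], [-16, -2, 15, 17], [-6, 1, 6, 14], [-14, 1, 10, 19], [-12, -3, 14, 18], [-19, 9, 11, 17], [-18, 8, 13, 16], [-1, 4, 5, 12]]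

theorem c4_1_20 : LG (I 20) 4 (1) :=
  lg_of_chk (T := t4_1_20) (by decide +kernel) (by decide +kernel)

def t4_1_21 : List (List ℤ) :=
  [[10, -10, 11, -11], [-19, -1, 2, 19], [-21, 1, 9, 13], [-9, -4, 6, 10], [-10, -4, -3, 21], [-17, -5, 7, 20], [-9, -6, 3, 18], [-12, -7, 5, 21], [-15, -14, 18, 19], [-6, -3, 2, 16], [-4, 0, 3, 11], [-18, 0, 10, 19], [-15, -7, 13, 21], [-17, 2, 12, 16], [-14, -8, 16, 20], [-12, -8, 17, 18], [-20, 9, 13, 14], [-13, -5, 15, 20], [-11, 6, 8, 15], [-1, 1, 8, 11], [-16, 5, 14, 17], [-2, 4, 7, 12]]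

theorem c4_1_21 : LG (I 21) 4 (1) :=
  lg_of_chk (T := t4_1_21) (by decide +kernel) (by decide +kernel)

def t4_1_22 : List (List ℤ) :=
  [[4, -4, 7, -7], [-14, -3, 2, 16], [-18, 1, 7, 12], [-13, -3, -1, 20], [-20, 0, 5, 19], [-21, 4, 6, 16], [-7, -6, 5, 14], [-6, 0, 2, 11], [-16, -9, 11, 22], [-15, -8, 12, 20], [-15, -14, 17, 22], [-21, 7, 8, 17], [-19, 2, 9, 20], [-18, -3, 15, 19], [-10, -1, 6, 19], [-10, -9, 13, 21], [-8, 1, 5, 18], [-22, 10, 11, 18], [-13, -2, 16, 17], [-12, 4, 13, 14], [-4, 3, 9, 12], [-11, -5, 15, 22], [-17, 8, 10, 21]]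

theorem c4_1_22 : LG (I 22) 4 (1) :=
  lg_of_chk (T := t4_1_22) (by decide +kernel) (by decide +kernel)

def t4_1_23 : List (List ℤ) :=
  [[16, -16, 18, -18], [-8, -6, -3, 18], [-18, -2, 10, 12], [-23, -1, 6, 21], [-20, -8, 15, 17], [-19, -9, 13, 20], [-6, -1, 3, 10], [-23, -8, 16, 22], [-7, -4, -1, 20], [-14, -5, 13, 15], [-10, 2, 6, 12], [-15, -11, 17, 20], [-14, 2, 10, 14], [-16, 5, 9, 15], [-12, -9, 12, 23], [-11, 4, 9, 13], [-13, 0, 7, 22], [-19, 4, 11, 21], [-2, 0, 1, 19], [-17, -5, 18, 23], [-4, 5, 8, 11], [-21, 3, 17, 22], [-22, 7, 16, 21], [-7, -3, 14, 19]]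

theorem c4_1_23 : LG (I 23) 4 (1) :=
  lg_of_chk (T := t4_1_23) (by decide +kernel) (by decide +kernel)

def t4_1_24 : List (List ℤ) :=
  [[2, -2, 8, -8], [-17, -1, 4, 15], [-15, 0, 7, 10], [-20, -11, 10, 24], [-13, -7, 1, 23], [-12, -5, 8, 14], [-19, -12, 15, 22], [-7, -4, 2, 16], [-18, 0, 5, 21], [-17, -9, 12, 23], [-10, 2, 3, 15], [-23, -3, 16, 21], [-6, -5, 9, 14], [-22, -4, 17, 22], [-20, 5, 12, 17], [-2, 1, 6, 10], [-24, 7, 11, 22], [-9, -1, 13, 14], [-18, -8, 20, 24], [-19, -6, 20, 24], [-14, -3, 18, 19], [-21, 8, 11, 23], [-13, 6, 13, 16], [-11, 4, 9, 21], [-16, 3, 18, 19]]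

theorem c4_1_24 : LG (I 24) 4 (1) :=
  lg_of_chk (T := t4_1_24) (by decide +kernel) (by decide +kernel)

def t4_n1_13 : List (List ℤ) :=
  [[2, -2, 9, -9], [-10, -7, 3, 13], [-7, -2, 0, 7], [-11, -5, 1, 12], [-12, -10, 5, 13], [-12, -3, 4, 6], [-12, -7, 5, 8], [-6, -2, -1, 2], [-13, -11, 6, 10], [-11, -9, 0, 11], [-13, -4, -1, 8], [-9, -8, -3, 9], [-6, -5, -4, 3], [-10, -8, 1, 4]]

theorem c4_n1_13 : LG (I 13) 4 (-1) :=
  lg_of_chk (T := t4_n1_13) (by decide +kernel) (by decide +kernel)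

def t4_n1_14 : List (List ℤ) :=
  [[4, -4, 5, -5], [-13, -7, 7, 12], [-11, -8, 8, 9], [-14, -10, 7, 14], [-11, -4, 0, 11], [-12, -5, 0, 12], [-14, -9, 8, 9], [-10, -1, 1, 3], [-14, -2, 2, 6], [-11, -6, 2, 6], [-13, -7, -3, 13], [-9, -4, -2, 4], [-13, -5, 1, 5], [-12, -10, -1, 10], [-8, -6, -3, 3]]

theorem c4_n1_14 : LG (I 14) 4 (-1) :=
  lg_of_chk (T := t4_n1_14) (by decide +kernel) (by decide +kernel)

def t4_n1_15 : List (List ℤ) :=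
  [[5, -5, 9, -9], [-15, -4, 8, 10], [-14, -13, 12, 13], [-8, -5, 4, 6], [-13, -1, 3, 7], [-10, -3, 0, 8], [-12, -9, 3, 12], [-14, -11, 4, 14], [-11, -3, 1, 5], [-13, -6, 0, 10], [-15, -5, 1, 9], [-11, -8, -7, 15], [-14, -6, 2, 6], [-9, -4, -2, 2], [-12, -7, -2, 7], [-15, -10, -1, 11]]

theorem c4_n1_15 : LG (I 15) 4 (-1) :=
  lg_of_chk (T := t4_n1_15) (by decide +kernel) (by decide +kernel)

def t4_n1_16 : List (List ℤ) :=
  [[6, -6, 16, -16], [-13, 2, 3, 7], [-11, 1, 3, 5], [-14, 1, 2, 8], [-14, -10, 8, 12], [-15, -6, 2, 14], [-10, -5, 0, 9], [-16, -8, 1, 16], [-8, -7, 3, 4], [-15, -10, 6, 10], [-9, -6, -4, 9], [-13, -11, -2, 15], [-15, -14, 4, 13], [-13, -11, -1, 12], [-12, -4, -3, 5], [-12, -9, -5, 11], [-16, -7, 0, 7]]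

theorem c4_n1_16 : LG (I 16) 4 (-1) :=
  lg_of_chk (T := t4_n1_16) (by decide +kernel) (by decide +kernel)

def t4_n1_17 : List (List ℤ) :=
  [[7, -7, 8, -8], [-13, -2, 2, 12], [-17, -1, 1, 15], [-17, -9, 8, 15], [-16, -6, 8, 10], [-9, -7, -6, 17], [-11, -5, -4, 14], [-16, -5, 0, 14], [-15, 0, 3, 4], [-11, -5, -3, 10], [-13, -10, 4, 9], [-12, -9, -6, 16], [-15, -11, 1, 13], [-14, -10, -1, 12], [-14, -13, 6, 7], [-12, -8, 2, 3], [-16, -7, -4, 11], [-17, -3, -2, 5]]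

theorem c4_n1_17 : LG (I 17) 4 (-1) :=
  lg_of_chk (T := t4_n1_17) (by decide +kernel) (by decide +kernel)

def t4_n1_18 : List (List ℤ) :=
  [[6, -6, 11, -11], [-14, -10, 6, 17], [-13, -9, 5, 15], [-18, -7, 6, 16], [-12, -5, 5, 8], [-7, -4, 2, 4], [-10, 0, 1, 3], [-9, -5, -3, 10], [-18, -12, 4, 18], [-11, -7, -2, 11], [-10, -6, -1, 7], [-11, -9, 0, 9], [-14, -8, -4, 14], [-14, -13, -2, 16], [-13, -12, -1, 12], [-18, -16, 2, 17], [-17, -15, 3, 13], [-17, -16, 1, 15], [-15, -8, -3, 8]]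

theorem c4_n1_18 : LG (I 18) 4 (-1) :=
  lg_of_chk (T := t4_n1_18) (by decide +kernel) (by decide +kernel)

def t4_n1_19 : List (List ℤ) :=
  [[2, -2, 12, -12], [-16, -5, 3, 17], [-14, -3, 0, 15], [-10, -2, 1, 8], [-19, -11, 7, 19], [-19, -1, 6, 9], [-18, -6, 5, 13], [-16, -11, 4, 16], [-14, -10, 3, 13], [-18, -13, 5, 17], [-17, -8, -3, 18], [-12, -7, -4, 12], [-12, -11, 0, 11], [-18, -9, 6, 8], [-19, -8, -2, 15], [-16, -15, 2, 14], [-15, -7, -1, 7], [-17, -10, 1, 9], [-13, -9, -6, 10], [-14, -5, -4, 4]]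

theorem c4_n1_19 : LG (I 19) 4 (-1) :=
  lg_of_chk (T := t4_n1_19) (by decide +kernel) (by decide +kernel)

def t4_n1_20 : List (List ℤ) :=
  [[10, -10, 20, -20], [-16, -1, 2, 14], [-18, -2, 1, 17], [-16, -15, 10, 18], [-15, -10, 5, 16], [-9, -7, 4, 7], [-19, -13, 7, 19], [-13, -5, 5, 6], [-19, -18, 12, 17], [-10, -9, -5, 15], [-9, -4, 0, 3], [-19, -18, 12, 14], [-17, -14, 8, 11], [-20, -7, -6, 20], [-14, -12, 1, 11], [-17, -4, -3, 9], [-16, -3, -1, 4], [-15, -12, 2, 8], [-11, -8, -2, 3], [-11, -8, -6, 6], [-20, -13, 0, 13]]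

theorem c4_n1_20 : LG (I 20) 4 (-1) :=
  lg_of_chk (T := t4_n1_20) (by decide +kernel) (by decide +kernel)

def t4_n1_21 : List (List ℤ) :=
  [[2, -2, 11, -11], [-10, -9, -1, 19], [-14, -3, 0, 15], [-18, -2, 5, 12], [-15, -6, 6, 11], [-11, -10, 3, 13], [-21, -4, 4, 15], [-20, -16, 10, 19], [-21, -16, 13, 16], [-16, -9, -1, 17], [-11, -5, -1, 7], [-10, -5, 0, 4], [-19, -13, 3, 17], [-14, -12, 5, 8], [-20, -13, -2, 21], [-19, -4, 2, 6], [-9, -8, -7, 8], [-20, -18, 9, 12], [-18, -17, -3, 20], [-15, -12, 1, 7], [-17, -14, -7, 18], [-21, -8, -6, 14]]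

theorem c4_n1_21 : LG (I 21) 4 (-1) :=
  lg_of_chk (T := t4_n1_21) (by decide +kernel) (by decide +kernel)

def t4_n1_22 : List (List ℤ) :=
  [[1, -1, 10, -10], [-12, -8, 0, 19], [-15, -5, -3, 21], [-13, -3, -2, 15], [-20, -8, 9, 15], [-6, -5, -2, 8], [-16, -7, -5, 22], [-11, -7, -6, 17], [-8, -4, -1, 5], [-18, -9, 4, 14], [-13, -11, 0, 14], [-16, -10, -7, 22], [-18, -14, -1, 21], [-19, -10, -3, 19], [-21, -12, 9, 10], [-20, -2, 3, 4], [-16, -11, -6, 17], [-22, -18, 7, 16], [-17, -12, -9, 20], [-20, -13, 1, 13], [-19, -15, -4, 18], [-21, -14, 2, 12], [-22, -17, 6, 11]]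

theorem c4_n1_22 : LG (I 22) 4 (-1) :=
  lg_of_chk (T := t4_n1_22) (by decide +kernel) (by decide +kernel)

def t4_n1_23 : List (List ℤ) :=
  [[2, -2, 6, -6], [-22, -9, 13, 17], [-16, -7, 0, 21], [-11, -5, -3, 16], [-11, -5, -4, 16], [-5, -4, -3, 7], [-9, -6, 0, 9], [-18, -2, 5, 8], [-20, -9, 7, 14], [-8, -6, -1, 6], [-19, -18, 12, 15], [-19, -4, -3, 15], [-23, -13, 10, 14], [-23, -12, 1, 21], [-20, -14, 8, 12], [-19, -17, 10, 11], [-21, -2, 3, 4], [-22, -15, 1, 19], [-23, -10, -7, 22], [-15, -11, -10, 17], [-21, -14, -8, 23], [-20, -16, 2, 13], [-22, -17, -1, 18], [-18, -13, -12, 20]]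

theorem c4_n1_23 : LG (I 23) 4 (-1) :=
  lg_of_chk (T := t4_n1_23) (by decide +kernel) (by decide +kernel)

def t4_n1_24 : List (List ℤ) :=
  [[6, -6, 24, -24], [-19, -5, 6, 17], [-10, -5, -2, 15], [-22, -3, 4, 18], [-13, -4, 3, 10], [-11, -2, -1, 9], [-21, 0, 1, 14], [-20, -12, 11, 14], [-23, -21, 12, 24], [-16, -9, 5, 11], [-24, -2, 4, 12], [-22, -5, 7, 9], [-23, -7, 8, 10], [-16, -14, -4, 21], [-14, -13, 6, 7], [-20, -15, 2, 18], [-16, -13, -9, 22], [-19, -18, 1, 19], [-19, -17, 3, 15], [-18, -17, -1, 17], [-21, -15, -7, 23], [-20, -8, -6, 13], [-24, -11, -3, 16], [-23, -12, -8, 20], [-22, -10, 0, 8]]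

theorem c4_n1_24 : LG (I 24) 4 (-1) :=
  lg_of_chk (T := t4_n1_24) (by decide +kernel) (by decide +kernel)

end Pool.Agent.Helper74.Hc
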