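import Pool.Agent.Helper74.Hc.Cert

/-! Tables: degree 6, slope 1 and -1. -/

namespace Pool.Agent.Helper74.Hc

def t6_1_13 : List (List ℤ) :=
  [[6, -6, 12, -12, 13, -13], [-12, -5, -2, 2, 6, 12], [-5, -2, -1, 1, 4, 5], [-13, -8, -4, 7, 10, 11], [-5, -4, -3, 2, 5, 9], [-4, -2, -1, 2, 4, 6], [-7, -6, 0, 1, 5, 13], [-8, -7, -6, 3, 12, 13], [-12, -7, -3, 9, 10, 11], [-13, -11, 4, 8, 10, 11], [-11, -10, 3, 8, 9, 11], [-10, -9, 3, 8, 9, 10], [-8, -1, 0, 1, 7, 13], [-9, -3, 0, 6, 7, 12]]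

theorem c6_1_13 : LG (I 13) 6 (1) :=
  lg_of_chk (T := t6_1_13) (by decide +kernel) (by decide +kernel)

def t6_1_14 : List (List ℤ) :=
  [[1, -1, 3, -3, 9, -9], [-12, -4, 0, 2, 5, 10], [-7, -3, -2, 1, 4, 9], [-4, -3, -2, 0, 5, 7], [-11, -3, -1, 2, 7, 10], [-11, -8, 1, 3, 7, 13], [-12, -10, -9, 11, 12, 14], [-13, -2, 3, 4, 5, 10], [-11, -9, -5, 9, 11, 13], [-8, -6, 0, 2, 8, 13], [-10, -6, 1, 4, 7, 14], [-8, -5, -4, 6, 8, 14], [-14, -6, -1, 6, 13, 14], [-14, -7, 5, 8, 9, 12], [-13, -12, 6, 10, 11, 12]]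

theorem c6_1_14 : LG (I 14) 6 (1) :=
  lg_of_chk (T := t6_1_14) (by decide +kernel) (by decide +kernel)

def t6_1_15 : List (List ℤ) :=
  [[5, -5, 6, -6, 13, -13], [-7, -5, -2, -1, 3, 13], [-13, -3, -2, -1, 7, 14], [-12, -7, -2, 1, 11, 12], [-14, -8, -6, 7, 11, 14], [-14, -7, -1, 0, 12, 15], [-9, -6, -4, 0, 10, 15], [-5, -3, -1, 2, 4, 10], [-15, -8, -4, 10, 11, 14], [-11, -10, -6, 10, 12, 14], [-11, -9, 6, 7, 8, 9], [-10, -9, 3, 4, 8, 15], [-15, -3, 3, 5, 9, 13], [-13, -2, 0, 1, 12, 15], [-5, -4, 2, 4, 8, 9], [-12, -8, 5, 6, 11, 13]]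

theorem c6_1_15 : LG (I 15) 6 (1) :=
  lg_of_chk (T := t6_1_15) (by decide +kernel) (by decide +kernel)

def t6_1_16 : List (List ℤ) :=
  [[7, -7, 12, -12, 13, -13], [-15, -10, -2, 5, 10, 13], [-16, -2, -1, 4, 6, 11], [-15, -4, -3, 7, 8, 10], [-13, -9, -3, 2, 12, 15], [-14, -7, 1, 6, 7, 12], [-14, -7, 2, 5, 8, 12], [-6, -5, 0, 3, 5, 10], [-16, -10, 3, 6, 10, 15], [-15, -9, -4, 11, 12, 14], [-8, -1, 1, 3, 7, 8], [-14, -13, 2, 9, 13, 14], [-12, 0, 4, 5, 6, 9], [-11, -4, 0, 1, 11, 16], [-11, -6, -5, 9, 11, 16], [-9, -3, -1, 4, 8, 16], [-16, -8, -2, 13, 14, 15]]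

theorem c6_1_16 : LG (I 16) 6 (1) :=
  lg_of_chk (T := t6_1_16) (by decide +kernel) (by decide +kernel)

def t6_1_17 : List (List ℤ) :=
  [[2, -2, 7, -7, 12, -12], [-16, -11, 2, 3, 11, 12], [-10, -4, -2, 0, 1, 17], [-8, -6, -3, 1, 9, 10], [-10, -6, -5, -2, 11, 16], [-13, -6, -5, -4, 16, 17], [-12, -5, -4, -3, 14, 16], [-17, -8, 0, 8, 9, 15], [-17, -7, -3, 7, 13, 15], [-13, -9, 3, 7, 10, 11], [-10, -4, -2, 3, 9, 14], [-16, -1, 1, 4, 9, 14], [-15, -6, 0, 1, 15, 17], [-14, -9, -5, 8, 16, 17], [-15, -13, 6, 10, 11, 15], [-14, -12, 7, 8, 12, 14], [-11, -1, 4, 5, 6, 13], [-8, -7, 2, 5, 12, 13]]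

theorem c6_1_17 : LG (I 17) 6 (1) :=
  lg_of_chk (T := t6_1_17) (by decide +kernel) (by decide +kernel)

def t6_1_18 : List (List ℤ) :=
  [[1, -1, 3, -3, 11, -11], [-12, -7, 0, 5, 6, 9], [-15, -8, -3, 4, 8, 16], [-5, -3, -2, 0, 6, 7], [-15, -11, -4, 2, 14, 18], [-7, -5, -3, 1, 8, 11], [-11, -6, 1, 3, 8, 11], [-14, -5, -1, 3, 10, 14], [-17, -2, 2, 5, 6, 14], [-18, -17, 1, 10, 15, 18], [-16, -13, 7, 9, 11, 12], [-6, -4, 0, 5, 6, 10], [-17, -13, -1, 10, 16, 17], [-14, -12, -10, 15, 16, 18], [-13, -7, 4, 7, 8, 15], [-15, -4, -2, 9, 13, 14], [-18, -10, 2, 12, 13, 17], [-12, -9, -8, 12, 16, 18], [-16, -9, 4, 9, 13, 17]]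

theorem c6_1_18 : LG (I 18) 6 (1) :=
  lg_of_chk (T := t6_1_18) (by decide +kernel) (by decide +kernel)

def t6_1_19 : List (List ℤ) :=
  [[4, -4, 11, -11, 17, -17], [-13, -11, -2, -1, 11, 17], [-8, -5, -2, -1, 4, 14], [-19, -12, -5, 6, 15, 18], [-9, -4, 0, 2, 7, 8], [-13, -10, -3, -2, 16, 17], [-14, -9, -6, 3, 14, 18], [-19, -14, 4, 9, 12, 15], [-15, -8, -2, 4, 13, 16], [-18, -6, -4, 7, 14, 16], [-16, -12, -5, 11, 14, 18], [-18, -1, 0, 1, 10, 19], [-12, -10, -3, 7, 13, 17], [-16, -5, -1, 8, 12, 15], [-7, -6, 2, 6, 9, 10], [-19, -8, 3, 7, 13, 19], [-13, -10, 5, 8, 9, 17], [-17, 0, 1, 5, 12, 16], [-11, -9, 3, 6, 10, 19], [-15, -7, -3, 11, 15, 18]]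

theorem c6_1_19 : LG (I 19) 6 (1) :=
  lg_of_chk (T := t6_1_19) (by decide +kernel) (by decide +kernel)

def t6_1_20 : List (List ℤ) :=
  [[2, -2, 9, -9, 19, -19], [-5, -4, -3, -1, 6, 8], [-5, -3, -2, 0, 4, 8], [-9, -6, -2, -1, 10, 11], [-17, -1, 2, 5, 7, 8], [-9, -2, -1, 4, 6, 7], [-15, -3, 1, 5, 8, 10], [-14, -12, 4, 5, 11, 13], [-14, 1, 2, 4, 6, 9], [-9, -5, -3, 0, 8, 18], [-19, -12, 3, 6, 13, 19], [-16, -15, 3, 7, 12, 20], [-16, -10, -7, 11, 14, 20], [-19, -17, 7, 10, 14, 18], [-16, -8, -7, 12, 13, 20], [-20, -11, -6, 16, 17, 19], [-14, -12, -11, 15, 18, 20], [-18, -13, -4, 15, 18, 19], [-20, -17, 9, 13, 16, 17], [-13, -10, 0, 10, 15, 17], [-18, -15, 11, 12, 14, 16]]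

theorem c6_1_20 : LG (I 20) 6 (1) :=
  lg_of_chk (T := t6_1_20) (by decide +kernel) (by decide +kernel)

def t6_1_21 : List (List ℤ) :=
  [[3, -3, 6, -6, 14, -14], [-4, -3, -2, -1, 2, 9], [-5, -2, -1, 1, 4, 5], [-8, -4, -1, 0, 5, 11], [-8, -6, -3, -1, 2, 20], [-21, -2, 2, 3, 10, 13], [-7, -6, -4, 0, 10, 13], [-18, -12, -6, 8, 16, 19], [-17, -4, -3, 7, 9, 16], [-16, -13, 1, 8, 14, 15], [-18, -12, 5, 6, 13, 16], [-21, -18, 3, 12, 15, 20], [-21, -10, -7, 11, 18, 21], [-14, -9, 5, 6, 10, 15], [-19, -13, 0, 9, 18, 19], [-20, -17, 9, 11, 13, 19], [-17, -9, 7, 8, 10, 17], [-16, -15, -8, 16, 19, 21], [-11, -10, -7, 12, 14, 20], [-20, -14, 7, 14, 15, 17], [-19, -15, 4, 11, 18, 21], [-12, -11, -5, 12, 17, 20]]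

theorem c6_1_21 : LG (I 21) 6 (1) :=
  lg_of_chk (T := t6_1_21) (by decide +kernel) (by decide +kernel)

def t6_1_22 : List (List ℤ) :=
  [[10, -10, 13, -13, 18, -18], [-19, -9, -5, -1, 14, 21], [-12, -4, -2, 3, 5, 12], [-18, -12, -3, 2, 14, 20], [-14, -10, -4, -2, 15, 19], [-15, -8, -1, 2, 9, 18], [-18, -17, -10, 13, 16, 22], [-21, -9, -7, 12, 14, 18], [-20, -15, -5, 11, 17, 20], [-19, -7, -1, 5, 11, 20], [-10, -6, -4, 0, 13, 17], [-20, -19, 8, 9, 16, 17], [-13, -3, -2, 2, 7, 21], [-13, -12, 0, 6, 10, 22], [-14, -4, 1, 3, 7, 21], [-16, -8, -5, 4, 18, 22], [-22, -15, 6, 11, 17, 19], [-22, -6, 8, 10, 11, 16], [-6, -3, 0, 5, 7, 15], [-11, -9, -1, 4, 16, 20], [-11, -8, 3, 8, 9, 19], [-21, -7, 1, 12, 14, 22], [-17, -16, 6, 13, 15, 21]]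

theorem c6_1_22 : LG (I 22) 6 (1) :=
  lg_of_chk (T := t6_1_22) (by decide +kernel) (by decide +kernel)

def t6_1_23 : List (List ℤ) :=
  [[13, -13, 17, -17, 22, -22], [-20, -16, 4, 7, 9, 17], [-15, -13, -5, -4, 19, 20], [-16, -13, -6, 8, 10, 20], [-15, -6, -2, 1, 5, 21], [-23, -6, -2, 4, 14, 18], [-7, -5, -4, -3, 9, 16], [-10, -7, -6, 1, 8, 21], [-21, -10, 3, 7, 11, 18], [-17, -16, 1, 6, 16, 19], [-10, -8, -7, 3, 11, 21], [-23, -18, 8, 10, 12, 22], [-22, -19, 11, 13, 14, 15], [-14, -3, -2, 0, 12, 20], [-21, -13, 5, 12, 15, 16], [-23, -4, -2, 12, 14, 18], [-9, -3, -1, 6, 9, 14], [-17, -9, 0, 1, 19, 23], [-22, -11, 5, 8, 15, 23], [-20, -12, 2, 9, 17, 23], [-19, -1, 2, 3, 13, 22], [-14, -8, 4, 7, 10, 22], [-18, -12, 0, 11, 20, 21], [-15, -11, -5, 17, 18, 19]]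

theorem c6_1_23 : LG (I 23) 6 (1) :=
  lg_of_chk (T := t6_1_23) (by decide +kernel) (by decide +kernel)

def t6_1_24 : List (List ℤ) :=
  [[2, -2, 12, -12, 16, -16], [-18, -4, -1, 6, 8, 10], [-14, -8, 0, 4, 5, 15], [-19, -15, -3, 7, 16, 17], [-12, -8, -1, 2, 10, 13], [-11, -7, -5, 2, 10, 16], [-12, -9, -6, 1, 10, 22], [-23, -12, -5, 3, 20, 24], [-17, -4, -2, 1, 14, 16], [-21, -19, -6, 12, 21, 22], [-21, 1, 4, 5, 6, 15], [-21, -14, -5, 15, 17, 19], [-7, -6, -4, 0, 9, 20], [-23, -16, 4, 14, 16, 18], [-18, -11, -2, 8, 13, 24], [-22, -3, 2, 10, 11, 17], [-13, 0, 3, 5, 8, 13], [-23, -8, 3, 11, 15, 19], [-24, -14, -1, 13, 21, 23], [-19, -9, -3, 11, 17, 22], [-24, -22, 7, 12, 23, 24], [-11, -10, -9, 9, 18, 24], [-20, -15, 6, 9, 19, 23], [-17, -13, -7, 18, 20, 22], [-20, -18, 7, 14, 20, 21]]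

theorem c6_1_24 : LG (I 24) 6 (1) :=
  lg_of_chk (T := t6_1_24) (by decide +kernel) (by decide +kernel)

def t6_n1_13 : List (List ℤ) :=
  [[1, -1, 5, -5, 13, -13], [-11, -7, -1, 0, 6, 12], [-8, -5, -2, 3, 4, 6], [-12, -8, -6, 2, 9, 12], [-10, -9, -4, 2, 5, 12], [-11, -5, -2, 0, 4, 9], [-10, -7, -3, 1, 2, 11], [-13, -10, -6, -1, 10, 13], [-12, -11, -3, -2, 9, 11], [-12, -9, -4, 3, 5, 8], [-13, -7, -6, -4, 7, 13], [-11, -8, -5, -1, 6, 8], [-9, -8, -3, 1, 3, 4], [-13, -10, -7, 0, 7, 10]]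

theorem c6_n1_13 : LG (I 13) 6 (-1) :=
  lg_of_chk (T := t6_n1_13) (by decide +kernel) (by decide +kernel)

def t6_n1_14 : List (List ℤ) :=
  [[1, -1, 6, -6, 10, -10], [-8, -6, -1, 0, 2, 12], [-13, -5, -4, 1, 6, 13], [-14, -9, -5, 5, 7, 13], [-10, -5, -4, -2, 7, 10], [-6, -4, -3, -2, 3, 7], [-9, -5, -1, 0, 2, 7], [-14, -11, 3, 4, 5, 6], [-12, -11, -10, -1, 12, 14], [-14, -9, -6, -3, 10, 13], [-11, -8, -4, 0, 4, 9], [-12, -10, -8, -7, 12, 14], [-13, -11, -8, 1, 8, 11], [-13, -12, -2, 2, 3, 9], [-14, -9, -7, -3, 8, 11]]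

theorem c6_n1_14 : LG (I 14) 6 (-1) :=
  lg_of_chk (T := t6_n1_14) (by decide +kernel) (by decide +kernel)

def t6_n1_15 : List (List ℤ) :=
  [[2, -2, 4, -4, 6, -6], [-11, -7, -4, -2, 11, 12], [-10, -3, -1, 0, 4, 8], [-8, -6, -3, -2, 7, 9], [-14, -4, -1, 0, 2, 13], [-11, -10, -5, 6, 7, 8], [-11, -9, -3, 0, 5, 12], [-15, -12, -1, 3, 5, 13], [-13, -8, -3, 2, 5, 9], [-15, -9, -6, 3, 8, 10], [-15, -10, -5, -2, 9, 13], [-14, -6, -5, -1, 1, 14], [-14, -13, -7, 1, 6, 15], [-14, -12, -8, 4, 7, 10], [-13, -12, -11, -4, 11, 15], [-15, -10, -9, -7, 12, 14]]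

theorem c6_n1_15 : LG (I 15) 6 (-1) :=
  lg_of_chk (T := t6_n1_15) (by decide +kernel) (by decide +kernel)

def t6_n1_16 : List (List ℤ) :=
  [[3, -3, 4, -4, 15, -15], [-16, -11, -3, 7, 10, 12], [-9, -8, -4, 5, 6, 8], [-16, -4, -1, 0, 8, 10], [-5, -4, -3, -2, 0, 10], [-14, -11, -4, 2, 6, 16], [-11, -9, -7, 2, 5, 14], [-13, -9, -6, 1, 9, 11], [-14, -13, -2, 2, 3, 16], [-12, -7, -6, -2, 7, 11], [-16, -14, 1, 3, 4, 12], [-15, -6, -5, -1, 7, 9], [-14, -13, -9, 1, 10, 13], [-13, -12, -8, -7, 12, 15], [-12, -10, -8, -5, 6, 15], [-16, -15, -11, 0, 13, 14], [-15, -10, -3, -1, 5, 8]]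

theorem c6_n1_16 : LG (I 16) 6 (-1) :=
  lg_of_chk (T := t6_n1_16) (by decide +kernel) (by decide +kernel)

def t6_n1_17 : List (List ℤ) :=
  [[6, -6, 14, -14, 15, -15], [-12, -6, -3, 2, 3, 15], [-17, -15, 1, 7, 9, 13], [-11, -5, -4, -1, 1, 17], [-14, -5, -4, -3, 8, 14], [-16, -8, -4, -3, 9, 17], [-16, -10, -1, 0, 8, 13], [-11, -10, -9, 2, 10, 11], [-14, -11, -5, 4, 6, 12], [-13, -10, -7, 2, 5, 14], [-12, -9, -7, -6, 7, 17], [-13, -8, -7, -3, 7, 13], [-13, -12, -10, -1, 8, 16], [-12, -11, -9, 2, 6, 11], [-15, -8, -4, 0, 4, 9], [-16, -14, -2, 0, 1, 16], [-17, -15, -6, -5, 12, 15], [-17, -16, -2, 3, 5, 10]]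

theorem c6_n1_17 : LG (I 17) 6 (-1) :=
  lg_of_chk (T := t6_n1_17) (by decide +kernel) (by decide +kernel)

def t6_n1_18 : List (List ℤ) :=
  [[5, -5, 15, -15, 17, -17], [-12, -4, -2, 3, 6, 8], [-6, -5, -2, -1, 3, 9], [-14, -9, 1, 2, 4, 13], [-10, -7, -5, -1, 3, 16], [-7, -5, -4, -2, 0, 13], [-15, -10, -2, 1, 7, 13], [-11, -10, -5, -4, 6, 17], [-18, -11, -8, 1, 13, 15], [-18, -16, -3, 2, 10, 16], [-17, -7, -6, -4, 9, 15], [-15, -14, -8, -7, 16, 17], [-17, -14, -12, -1, 14, 18], [-18, -17, 3, 5, 6, 8], [-18, -12, -11, -3, 12, 18], [-16, -11, -6, 0, 8, 10], [-16, -15, -9, 4, 9, 11], [-13, -12, -10, 0, 7, 11], [-14, -13, -9, -8, 12, 14]]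

theorem c6_n1_18 : LG (I 18) 6 (-1) :=
  lg_of_chk (T := t6_n1_18) (by decide +kernel) (by decide +kernel)

def t6_n1_19 : List (List ℤ) :=
  [[6, -6, 11, -11, 19, -19], [-17, -8, -4, 3, 6, 19], [-14, -8, -2, 5, 6, 11], [-19, -9, -3, 1, 9, 18], [-14, -8, -7, -1, 7, 19], [-17, -15, -5, 2, 12, 18], [-11, -8, 0, 1, 2, 10], [-19, -17, -4, 4, 13, 16], [-8, -6, -4, -2, -1, 13], [-18, -17, -3, 3, 10, 16], [-17, -13, -11, 6, 9, 16], [-15, -10, -6, 0, 2, 18], [-16, -15, -13, 5, 13, 14], [-18, -12, -10, 7, 8, 12], [-19, -16, -4, -2, 12, 15], [-18, -12, -11, -5, 14, 17], [-16, -14, -12, 7, 9, 10], [-10, -9, -7, -5, -1, 15], [-15, -13, -9, 3, 5, 11], [-14, -7, -3, 0, 1, 4]]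

theorem c6_n1_19 : LG (I 19) 6 (-1) :=
  lg_of_chk (T := t6_n1_19) (by decide +kernel) (by decide +kernel)

def t6_n1_20 : List (List ℤ) :=
  [[3, -3, 8, -8, 9, -9], [-20, -4, -2, 3, 9, 13], [-11, -7, -5, -1, 5, 17], [-19, -4, 0, 1, 5, 14], [-10, -4, -3, -1, 6, 8], [-18, -5, -2, 2, 3, 15], [-16, -10, -8, 4, 9, 15], [-11, -9, -8, -2, 11, 12], [-8, -7, -6, 0, 4, 9], [-17, -7, 0, 1, 6, 8], [-18, -11, -6, -4, 12, 17], [-11, -10, -7, -2, 7, 12], [-15, -13, -12, 7, 10, 11], [-19, -18, -12, 1, 17, 18], [-20, -19, -16, 3, 18, 20], [-17, -16, -12, 5, 6, 19], [-20, -15, -14, -6, 19, 20], [-18, -15, -9, 2, 10, 13], [-17, -13, -10, -5, 13, 14], [-20, -14, -13, -3, 15, 16], [-19, -16, -14, -1, 14, 16]]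

theorem c6_n1_20 : LG (I 20) 6 (-1) :=
  lg_of_chk (T := t6_n1_20) (by decide +kernel) (by decide +kernel)

def t6_n1_21 : List (List ℤ) :=
  [[1, -1, 3, -3, 5, -5], [-13, -7, -3, 0, 9, 13], [-21, -14, -4, 8, 11, 18], [-10, -8, -4, -1, 0, 20], [-19, -4, -3, -2, 9, 15], [-21, -13, -5, 0, 16, 18], [-18, -14, -12, 7, 10, 21], [-12, -11, -9, -1, 6, 20], [-10, -9, -8, -3, 2, 20], [-10, -8, -7, 1, 4, 11], [-12, -9, -8, -3, 6, 16], [-20, -13, -7, 2, 9, 18], [-20, -10, -7, -6, 14, 17], [-18, -11, -5, -1, 1, 21], [-19, -16, -6, -2, 12, 17], [-20, -19, -16, 4, 17, 19], [-21, -15, -14, 5, 10, 19], [-21, -19, -18, 12, 14, 15], [-17, -13, -6, 2, 5, 11], [-17, -15, -14, -4, 15, 16], [-15, -12, -11, 3, 7, 8], [-17, -16, -5, -2, 6, 13]]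

theorem c6_n1_21 : LG (I 21) 6 (-1) :=
  lg_of_chk (T := t6_n1_21) (by decide +kernel) (by decide +kernel)

def t6_n1_22 : List (List ℤ) :=
  [[10, -10, 11, -11, 20, -20], [-16, -5, -2, 3, 4, 15], [-17, -11, -9, -1, 17, 19], [-17, -6, -4, 1, 11, 12], [-11, -6, -5, -3, 1, 20], [-14, -8, -4, -1, 10, 12], [-12, -10, -4, -3, 10, 13], [-20, -14, -9, 8, 10, 18], [-22, -12, -5, 7, 11, 13], [-21, -13, -7, -2, 12, 22], [-22, -6, 0, 5, 6, 7], [-16, -4, -2, 0, 3, 8], [-15, -8, -6, 3, 5, 9], [-21, -13, -9, 6, 8, 16], [-21, -16, -7, -5, 16, 19], [-22, -19, -12, 1, 18, 19], [-17, -14, -11, -1, 13, 14], [-19, -16, -3, -2, 2, 21], [-22, -20, -19, 7, 15, 21], [-18, -17, -15, 2, 14, 15], [-21, -18, -7, 0, 4, 22], [-20, -14, -13, -9, 17, 18], [-18, -15, -10, -8, 9, 20]]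

theorem c6_n1_22 : LG (I 22) 6 (-1) :=
  lg_of_chk (T := t6_n1_22) (by decide +kernel) (by decide +kernel)

def t6_n1_23 : List (List ℤ) :=
  [[5, -5, 21, -21, 22, -22], [-18, -4, -3, 5, 6, 13], [-19, -15, -2, 3, 15, 16], [-11, -8, -7, -1, 2, 22], [-17, -11, -7, -1, 9, 23], [-16, -7, -6, 0, 1, 23], [-19, -12, -5, 1, 9, 20], [-21, -5, -4, -3, 10, 16], [-22, -12, -9, -3, 17, 21], [-16, -15, -8, 4, 6, 20], [-23, -17, -13, 7, 14, 22], [-22, -18, -4, -3, 16, 20], [-20, -17, -8, -6, 18, 21], [-20, -17, -10, 1, 14, 19], [-21, -18, -15, 10, 13, 17], [-15, -14, -9, -2, 2, 23], [-22, -9, -5, 2, 7, 11], [-13, -12, -10, -4, 8, 14], [-23, -14, -11, -1, 12, 19], [-23, -19, -6, -2, 13, 18], [-21, -13, -12, 6, 9, 11], [-20, -14, -7, 0, 8, 12], [-16, -11, -8, 0, 3, 10], [-19, -18, -10, 4, 5, 15]]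

theorem c6_n1_23 : LG (I 23) 6 (-1) :=
  lg_of_chk (T := t6_n1_23) (by decide +kernel) (by decide +kernel)

def t6_n1_24 : List (List ℤ) :=
  [[1, -1, 6, -6, 7, -7], [-7, -6, -2, 0, 4, 10], [-24, -7, -1, 5, 10, 15], [-18, -9, -4, -3, 15, 16], [-9, -4, -3, 1, 5, 6], [-17, -11, 2, 4, 6, 11], [-23, -1, 0, 4, 5, 9], [-13, -9, -2, -1, 0, 18], [-24, -23, -16, 15, 16, 24], [-18, -7, -4, -3, 6, 17], [-21, -20, 1, 2, 11, 17], [-21, -18, -5, 5, 10, 18], [-24, -22, -19, 14, 17, 22], [-22, -18, -13, -7, 23, 24], [-22, -20, -19, 12, 15, 20], [-22, -20, 2, 3, 8, 14], [-21, -19, -8, 3, 8, 21], [-23, -20, -5, 9, 10, 12], [-13, -11, -9, -3, 7, 11], [-21, -16, -14, -12, 21, 23], [-17, -15, -14, -10, 14, 22], [-19, -16, -11, -10, 16, 19], [-15, -14, -13, -12, 12, 20], [-24, -17, -8, -6, 13, 19], [-23, -12, -8, -2, 8, 13]]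

theorem c6_n1_24 : LG (I 24) 6 (-1) :=
  lg_of_chk (T := t6_n1_24) (by decide +kernel) (by decide +kernel)

end Pool.Agent.Helper74.Hc
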