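import Pool.Agent.Helper74.Hc.Cert

/-! Tables for even slopes, and the loopless factors on `I 12`. -/

namespace Pool.Agent.Helper74.Hc

def t4_2_11 : List (List ℤ) :=
  [[1, -1, 9, -9], [-8, 0, 4, 6], [-11, -3, 8, 10], [-9, -2, 7, 10], [-6, 1, 5, 8], [-7, 4, 6, 7], [-4, 1, 5, 10], [-5, 3, 5, 11], [-1, 2, 4, 11], [-3, 0, 10, 11], [2, 3, 6, 9], [-2, 7, 8, 9]]

theorem c4_2_11 : LG0 (I 11) 4 (2) :=
  lg0_of_chk (T := t4_2_11) (by decide +kernel) (by decide +kernel) (by decide +kernel)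

def t4_2_12 : List (List ℤ) :=
  [[2, -2, 10, -10], [-8, -7, 5, 12], [-9, 0, 6, 7], [-5, -4, 5, 10], [-8, -3, 7, 12], [-3, 1, 3, 9], [-11, 2, 10, 11], [-1, 2, 4, 9], [-4, -1, 9, 12], [-2, 5, 7, 8], [0, 3, 6, 11], [-6, 6, 10, 12], [1, 4, 8, 11]]

theorem c4_2_12 : LG0 (I 12) 4 (2) :=
  lg0_of_chk (T := t4_2_12) (by decide +kernel) (by decide +kernel) (by decide +kernel)

def t4_n2_11 : List (List ℤ) :=
  [[7, -7, 11, -11], [-10, -3, 2, 9], [-10, -4, 1, 9], [-5, -4, -1, 4], [-6, -3, -2, 3], [-8, -6, -3, 7], [-11, -5, -4, 8], [-11, -8, 0, 5], [-10, -7, -5, 6], [-11, -10, 1, 2], [-9, -8, -2, -1], [-9, -7, -6, 0]]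

theorem c4_n2_11 : LG0 (I 11) 4 (-2) :=
  lg0_of_chk (T := t4_n2_11) (by decide +kernel) (by decide +kernel) (by decide +kernel)

def t4_n2_12 : List (List ℤ) :=
  [[10, -10, 12, -12], [-10, -4, 3, 9], [-9, -6, 5, 6], [-8, -4, 1, 5], [-12, -3, -1, 8], [-9, -6, 2, 3], [-7, -5, -2, 2], [-11, -8, -6, 11], [-10, -7, -3, 4], [-12, -5, -2, 1], [-11, -8, -1, 0], [-12, -10, -7, 7], [-11, -9, -4, 0]]

theorem c4_n2_12 : LG0 (I 12) 4 (-2) :=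
  lg0_of_chk (T := t4_n2_12) (by decide +kernel) (by decide +kernel) (by decide +kernel)

def t4_0_11 : List (List ℤ) :=
  [[5, -5, 9, -9], [-9, -8, 6, 11], [-11, -3, 4, 10], [-8, -2, 4, 6], [-10, 2, 3, 5], [-10, 0, 4, 6], [-9, 1, 3, 5], [-11, -8, 9, 10], [-7, -3, -1, 11], [-6, -1, 0, 7], [-5, -4, 2, 7], [-7, -2, 1, 8]]

theorem c4_0_11 : LG0 (I 11) 4 (0) :=
  lg0_of_chk (T := t4_0_11) (by decide +kernel) (by decide +kernel) (by decide +kernel)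

def t4_0_12 : List (List ℤ) :=
  [[8, -8, 12, -12], [-8, -7, 3, 12], [-11, -4, 6, 9], [-11, 1, 4, 6], [-11, -2, 3, 10], [-10, -9, 7, 12], [-12, 2, 3, 7], [-10, -1, 5, 6], [-9, -1, 0, 10], [-8, -5, 2, 11], [-7, -5, 4, 8], [-4, -3, -2, 9], [-6, 0, 1, 5]]

theorem c4_0_12 : LG0 (I 12) 4 (0) :=
  lg0_of_chk (T := t4_0_12) (by decide +kernel) (by decide +kernel) (by decide +kernel)

def t6_4_11 : List (List ℤ) :=
  [[3, -3, 7, -7, 8, -8], [-4, -3, -2, -1, 5, 9], [-6, -5, -1, 3, 8, 9], [-7, -1, 0, 2, 8, 10], [-6, -4, -1, 6, 10, 11], [-5, -2, 1, 7, 9, 10], [-4, -2, 4, 7, 8, 11], [-3, 0, 5, 6, 9, 11], [0, 2, 3, 6, 10, 11], [1, 2, 5, 7, 10, 11], [3, 4, 5, 8, 9, 11], [4, 6, 7, 8, 9, 10]]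

theorem c6_4_11 : LG (I 11) 6 (4) :=
  lg_of_chk (T := t6_4_11) (by decide +kernel) (by decide +kernel)

def t6_4_12 : List (List ℤ) :=
  [[1, -1, 4, -4, 11, -11], [-6, -3, 0, 2, 4, 7], [-8, -7, 1, 3, 9, 10], [-9, -1, 2, 4, 6, 10], [-5, 0, 1, 3, 5, 12], [-8, -4, 4, 7, 10, 11], [-6, -1, 3, 7, 9, 12], [-2, 1, 5, 6, 8, 10], [-5, -2, 7, 9, 11, 12], [-3, 2, 6, 8, 11, 12], [2, 3, 5, 7, 11, 12], [0, 5, 8, 9, 10, 12], [4, 6, 8, 9, 10, 11]]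

theorem c6_4_12 : LG (I 12) 6 (4) :=
  lg_of_chk (T := t6_4_12) (by decide +kernel) (by decide +kernel)

def t6_n4_11 : List (List ℤ) :=
  [[1, -1, 4, -4, 7, -7], [-7, -2, -1, 0, 2, 4], [-11, -4, -1, 1, 3, 4], [-8, -7, -5, -3, 2, 9], [-11, -6, -2, 0, 1, 2], [-9, -7, -6, -5, -3, 10], [-9, -8, -6, -5, -4, 8], [-10, -9, -5, -3, -1, 0], [-11, -10, -8, -6, -3, 6], [-11, -10, -7, -6, -5, 3], [-11, -10, -9, -8, -7, 5], [-11, -10, -9, -8, -4, -2]]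

theorem c6_n4_11 : LG (I 11) 6 (-4) :=
  lg_of_chk (T := t6_n4_11) (by decide +kernel) (by decide +kernel)

def t6_n4_12 : List (List ℤ) :=
  [[3, -3, 4, -4, 7, -7], [-12, -9, -6, 5, 8, 10], [-10, -4, -3, -2, 3, 8], [-11, -6, -2, 0, 2, 5], [-9, -6, -4, -2, 0, 5], [-11, -9, -8, 1, 3, 4], [-12, -11, -4, -3, -1, 7], [-10, -9, -8, -7, 0, 6], [-12, -11, -7, -5, 1, 2], [-10, -9, -7, -5, -4, -1], [-12, -11, -9, -7, -2, 1], [-12, -10, -8, -6, -5, -3], [-12, -11, -10, -8, -6, -1]]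

theorem c6_n4_12 : LG (I 12) 6 (-4) :=
  lg_of_chk (T := t6_n4_12) (by decide +kernel) (by decide +kernel)

def t6_2_11 : List (List ℤ) :=
  [[1, -1, 8, -8, 9, -9], [-10, -6, 0, 4, 5, 9], [-9, -8, -7, 7, 10, 11], [-8, -5, -3, 5, 7, 10], [-10, -6, 1, 6, 8, 9], [-7, -3, 1, 3, 7, 9], [-6, -4, -1, 4, 8, 11], [-5, -2, 2, 3, 5, 11], [-3, -2, 0, 4, 6, 11], [-2, 0, 1, 4, 5, 10], [-4, -1, 2, 3, 9, 11], [-11, 2, 6, 7, 8, 10]]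

theorem c6_2_11 : LG (I 11) 6 (2) :=
  lg_of_chk (T := t6_2_11) (by decide +kernel) (by decide +kernel)

def t6_2_12 : List (List ℤ) :=
  [[1, -1, 2, -2, 11, -11], [-8, -6, -4, 0, 8, 12], [-6, -5, -3, 0, 7, 11], [-9, -4, -2, 4, 5, 12], [-4, -3, -1, 3, 5, 8], [-10, -2, 3, 4, 6, 9], [-12, -2, -1, 5, 10, 12], [-10, -8, 2, 9, 10, 11], [-7, -1, 1, 4, 9, 10], [-11, -3, 5, 7, 8, 12], [-7, -5, 6, 7, 8, 11], [-9, 0, 2, 7, 10, 12], [-6, 1, 3, 6, 9, 11]]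

theorem c6_2_12 : LG (I 12) 6 (2) :=
  lg_of_chk (T := t6_2_12) (by decide +kernel) (by decide +kernel)

def t6_n2_11 : List (List ℤ) :=
  [[1, -1, 10, -10, 11, -11], [-8, -7, -4, 0, 7, 10], [-7, -6, -4, -3, 7, 9], [-11, -8, -2, 4, 5, 6], [-9, -4, -2, -1, 3, 5], [-9, -8, -6, 3, 4, 6], [-7, -6, -5, -2, 3, 5], [-8, -6, -2, -1, 1, 2], [-11, -7, -5, -3, -1, 11], [-11, -10, -5, -4, 2, 10], [-11, -10, -9, 0, 1, 9], [-10, -9, -8, -3, 0, 8]]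

theorem c6_n2_11 : LG (I 11) 6 (-2) :=
  lg_of_chk (T := t6_n2_11) (by decide +kernel) (by decide +kernel)

def t6_n2_12 : List (List ℤ) :=
  [[2, -2, 5, -5, 9, -9], [-9, -8, -4, -2, 9, 12], [-8, -4, -1, 0, 3, 6], [-12, -8, -3, 2, 4, 11], [-11, -7, -2, -1, 3, 10], [-11, -10, -9, 0, 8, 12], [-12, -10, -9, 2, 7, 10], [-10, -9, -8, -4, 6, 11], [-8, -7, -3, -2, -1, 5], [-7, -6, -5, -1, 0, 1], [-12, -7, -6, -5, 4, 6], [-12, -11, -5, -4, 3, 7], [-11, -10, -6, -3, 1, 5]]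

theorem c6_n2_12 : LG (I 12) 6 (-2) :=
  lg_of_chk (T := t6_n2_12) (by decide +kernel) (by decide +kernel)

def t4_1_12 : List (List ℤ) :=
  [[4, -4, 12, -12], [-8, -3, 5, 7], [-10, -7, 8, 11], [-7, -1, 5, 6], [-11, 0, 6, 9], [-8, 1, 3, 9], [-12, 3, 4, 11], [-3, -2, 1, 11], [-5, -1, 2, 12], [-10, 4, 5, 10], [-9, -2, 9, 12], [-4, 2, 6, 7], [-6, 0, 8, 10]]

theorem c4_1_12 : LG0 (I 12) 4 (1) :=
  lg0_of_chk (T := t4_1_12) (by decide +kernel) (by decide +kernel) (by decide +kernel)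

def t4_n1_12 : List (List ℤ) :=
  [[4, -4, 12, -12], [-7, -5, 3, 8], [-11, -8, 7, 10], [-6, -5, 1, 7], [-9, -6, 0, 11], [-9, -3, -1, 8], [-11, -4, -3, 12], [-11, -1, 2, 3], [-12, -2, 1, 5], [-10, -5, -4, 10], [-12, -9, 2, 9], [-7, -6, -2, 4], [-10, -8, 0, 6]]

theorem c4_n1_12 : LG0 (I 12) 4 (-1) :=
  lg0_of_chk (T := t4_n1_12) (by decide +kernel) (by decide +kernel) (by decide +kernel)

end Pool.Agent.Helper74.Hc
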