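import Pool.Agent.Helper74.Hc.Basic

/-! HC-6b. Twisted product. With `q = 2 m₂ + 1` the map `(x, j) ↦ q x + j` is a bijection
`I m₁ × I m₂ → I (m₁ q + m₂)` (e.g. `x = (z + m₂) / q`, `j = (z + m₂) % q - m₂`). The neighbours of
`q x + j` are `q x' - j` (`x'` neighbour of `x`) and `-q x + j'` (`j'` neighbour of `j`); their sum is
`q s₁ x - r₁ j - r₂ q x + s₂ j = (s₁ - r₂) (q x + j)` as `s₂ - r₁ = s₁ - r₂`. They are distinct:
`q x' - j = -q x + j'` only if `j' = -j`, excluded by `LG0`. -/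

namespace Pool.Agent.Helper74.Hc

open Finset

namespace ProdNeg

/-- the coordinates of `z` -/
def X (m z : ℤ) : ℤ := (z + m) / (2 * m + 1)

def J (m z : ℤ) : ℤ := (z + m) % (2 * m + 1) - m

theorem eq_XJ (m z : ℤ) : z = (2 * m + 1) * X m z + J m z := by
  have := Int.mul_ediv_add_emod (z + m) (2 * m + 1)
  unfold X J
  linarith

theorem J_mem {m : ℤ} (hm : 0 ≤ m) (z : ℤ) : J m z ∈ I m := by
  rw [mem_I]
  have h1 := Int.emod_nonneg (z + m) (show (2 * m + 1) ≠ 0 by omega)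
  have h2 := Int.emod_lt_of_pos (z + m) (show 0 < 2 * m + 1 by omega)
  unfold J
  omega

theorem XJ_unique {m x j : ℤ} (hj : j ∈ I m) :
    X m ((2 * m + 1) * x + j) = x ∧ J m ((2 * m + 1) * x + j) = j := by
  rw [mem_I] at hj
  have h1 : (2 * m + 1) * x + j + m = (j + m) + (2 * m + 1) * x := by ring
  unfold X J
  rw [h1, Int.add_mul_ediv_left _ _ (show (2 * m + 1) ≠ 0 by omega), Int.add_mul_emod_self_left,
    Int.ediv_eq_zero_of_lt (by omega) (by omega), Int.emod_eq_of_lt (by omega) (by omega)]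
  omega

theorem neg_mem {m x : ℤ} (h : x ∈ I m) : -x ∈ I m := by
  rw [mem_I] at h ⊢
  omega

theorem mem_iff {m₁ m₂ : ℤ} (hm₂ : 0 ≤ m₂) (z : ℤ) :
    z ∈ I (m₁ * (2 * m₂ + 1) + m₂) ↔ X m₂ z ∈ I m₁ := by
  have h1 := eq_XJ m₂ z
  have h2 := J_mem hm₂ z
  rw [mem_I] at h2 ⊢
  rw [mem_I]
  constructor
  · rintro ⟨h3, h4⟩
    constructor
    · by_contra hcon
      have h5 : X m₂ z ≤ -m₁ - 1 := by omega
      nlinarith
    · by_contra hcon
      have h5 : m₁ + 1 ≤ X m₂ z := by omega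
      nlinarith
  · rintro ⟨h3, h4⟩
    constructor
    · nlinarith
    · nlinarith

end ProdNeg

open ProdNeg in
/-- HC-6b. `(x, j) — (x', -j)` and `(x, j) — (-x, j')` -/
theorem prod_neg {m₁ m₂ : ℤ} {r₁ r₂ : ℕ} {s₁ s₂ : ℤ} (hm₁ : 0 ≤ m₁) (hm₂ : 0 ≤ m₂)
    (h1 : LG (I m₁) r₁ s₁) (h2 : LG0 (I m₂) r₂ s₂) (hg : (r₁ : ℤ) + s₁ = r₂ + s₂) :
    LG (I (m₁ * (2 * m₂ + 1) + m₂)) (r₁ + r₂) (s₁ - r₂) := by
  classical
  have _ := hm₁
  obtain ⟨N₁, H1⟩ := h1
  obtain ⟨N₂, H2, H0⟩ := h2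
  have hq : (2 * m₂ + 1) ≠ 0 := by omega
  set q : ℤ := 2 * m₂ + 1 with hqdef
  have hinj1 : ∀ j : ℤ, Function.Injective (fun x' : ℤ => q * x' + -j) := by
    intro j a b hab
    exact mul_left_cancel₀ hq (add_right_cancel hab)
  have hinj2 : ∀ x : ℤ, Function.Injective (fun j' : ℤ => q * -x + j') := by
    intro x a b hab
    exact add_left_cancel hab
  have hdisj : ∀ z, Disjoint ((N₁ (X m₂ z)).image (fun x' => q * x' + -J m₂ z))
      ((N₂ (J m₂ z)).image (fun j' => q * -X m₂ z + j')) := by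
    intro z
    rw [Finset.disjoint_left]
    intro y hy1 hy2
    rw [mem_image] at hy1 hy2
    obtain ⟨x', hx', rfl⟩ := hy1
    obtain ⟨j', hj', he⟩ := hy2
    have a1 := (XJ_unique (x := x') (neg_mem (J_mem hm₂ z))).2
    have a2 := (XJ_unique (x := -X m₂ z) (H2.sub hj').2).2
    rw [← hqdef] at a1 a2
    rw [← he, a2] at a1
    rw [a1] at hj'
    exact H0 _ hj'
  refine ⟨fun z => if X m₂ z ∈ I m₁ then (N₁ (X m₂ z)).image (fun x' => q * x' + -J m₂ z) ∪
    (N₂ (J m₂ z)).image (fun j' => q * -X m₂ z + j') else ∅, ⟨⟨?_, ?_⟩, ?_, ?_, ?_⟩⟩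
  · intro z y hy
    by_cases hz : X m₂ z ∈ I m₁
    · simp only [hz, if_true, mem_union, mem_image] at hy
      rcases hy with ⟨x', hx', rfl⟩ | ⟨j', hj', rfl⟩
      · obtain ⟨a1, a2⟩ := XJ_unique (x := x') (neg_mem (J_mem hm₂ z))
        rw [← hqdef] at a1 a2
        simp only [a1, a2, (H1.sub hx').2, if_true, mem_union, mem_image]
        left
        exact ⟨X m₂ z, H1.gr.symm _ _ hx', by rw [neg_neg]; exact (eq_XJ m₂ z).symm⟩
      · obtain ⟨a1, a2⟩ := XJ_unique (x := -X m₂ z) (H2.sub hj').2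
        rw [← hqdef] at a1 a2
        simp only [a1, a2, neg_mem hz, if_true, mem_union, mem_image]
        right
        exact ⟨J m₂ z, H2.gr.symm _ _ hj', by rw [neg_neg]; exact (eq_XJ m₂ z).symm⟩
    · simp [hz] at hy
  · intro z hy
    by_cases hz : X m₂ z ∈ I m₁
    · simp only [hz, if_true, mem_union, mem_image] at hy
      rcases hy with ⟨x', hx', he⟩ | ⟨j', hj', he⟩
      · obtain ⟨a1, a2⟩ := XJ_unique (x := x') (neg_mem (J_mem hm₂ z))
        rw [← hqdef, he] at a1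
        rw [← a1] at hx'
        exact H1.gr.irr _ hx'
      · obtain ⟨a1, a2⟩ := XJ_unique (x := -X m₂ z) (H2.sub hj').2
        rw [← hqdef, he] at a2
        rw [← a2] at hj'
        exact H2.gr.irr _ hj'
    · simp [hz] at hy
  · intro z hz
    rw [mem_iff hm₂] at hz
    simp [hz]
  · intro z hz
    rw [mem_iff hm₂] at hz
    simp only [hz, if_true]
    rw [card_union_of_disjoint (hdisj z), card_image_of_injective _ (hinj1 _),
      card_image_of_injective _ (hinj2 _), H1.card _ hz, H2.card _ (J_mem hm₂ z)]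
  · intro z hz
    rw [mem_iff hm₂] at hz
    simp only [hz, if_true]
    rw [sum_union (hdisj z), sum_image (fun a _ b _ h => hinj1 _ h),
      sum_image (fun a _ b _ h => hinj2 _ h), sum_add_distrib, sum_add_distrib, ← mul_sum,
      sum_const, sum_const, H1.card _ hz, H2.card _ (J_mem hm₂ z), H1.sum _ hz,
      H2.sum _ (J_mem hm₂ z)]
    have e := eq_XJ m₂ z
    rw [← hqdef] at e
    have hg' : s₂ - (r₁ : ℤ) = s₁ - r₂ := by linarith
    simp only [nsmul_eq_mul]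
    calc q * (s₁ * X m₂ z) + (r₁ : ℤ) * -J m₂ z + ((r₂ : ℤ) * (q * -X m₂ z) + s₂ * J m₂ z)
        = (s₁ - r₂) * (q * X m₂ z) + (s₂ - (r₁ : ℤ)) * J m₂ z := by ring
      _ = (s₁ - r₂) * (q * X m₂ z) + (s₁ - r₂) * J m₂ z := by rw [hg']
      _ = (s₁ - r₂) * z := by rw [← mul_add, ← e]

end Pool.Agent.Helper74.Hc
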