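import Pool.Agent.Helper74.Hc.Rec
import Pool.Agent.Helper74.Hc.Blocks2
import Pool.Agent.Helper74.Hc.ProdPos
import Pool.Agent.Helper74.Hc.ProdNeg
import Pool.Agent.Helper74.Hc.CertA
import Pool.Agent.Helper74.Hc.CertB
import Pool.Agent.Helper74.Hc.CertC
import Pool.Agent.Helper74.Hc.CertD

/-! HC-12. All slopes.

12a. `Big (r+4) (s+4ε) = Big (ρ+2) (σ+ε)` by `big_of_cores`: the blocks `LGS (SI ..) ρ σ` come from
`hblk` by `CB.toLGS` (and `LGS.neg` if `ε = -1`; the factor is symmetric in sign); the cores for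
`t = 25 m + 13`, `m` large in the right class mod 12, are the products of the graph on `I m` (from `h`)
with the factor on `I 12` (`prod_pos` if `ε = 1`, `prod_neg` if `ε = -1`).

12b. Bases, all by `big_of_cores` with the tables: `(4, 1)`, `(4, -1)` (blocks `cb_20`, tables
`c4_1_m`, `c4_n1_m`, `m = 13 .. 24`, CertA), `(6, 1)`, `(6, -1)` (blocks `cb_40`, CertB), `(6, 3)`, `(6, -3)`
(blocks `cb_42`, `m = 15 .. 26`, CertC). Then `(8, 3)` from `(4, -1)` with `f = -1`, `ε = 1`, and
`(8, -3)` from `(4, 1)` with `f = 1`, `ε = -1`. Steps: degree `|s| + 3`: `s > 0`: `f = 1`; `s < 0`: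
`f = -1`; degree `|s| + 5`: `s > 0`: `f = -1`; `s < 0`: `f = 1` (factors `c4_1_12`, `c4_n1_12` in CertD).
The blocks `CB ρ (ε σ) (2n)` with `ρ = r + 2`, `|σ| = |s| + 3` (from `cb_even`, and `cb_match` of it for degree `|s|+5`).

12c. Cores on `I m` for an even and an odd `m`: from the tables for `m = 12`, `m = 11` (CertD):
`(4, 2)`, `(6, 4)`, `(4, 0)`, `(6, 2)`, `(4, -2)`, `(6, -4)`, `(6, -2)`, and their products with the factors on
`I 12` `(4, 2)`, `(4, 0)`, `(4, -2)`, `(4, 0)` resp. (steps `(r, s) → (r+4, s±4)`; `25 m + 12 ≡ m mod 2`);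
then `big_of_two` with the blocks of degree `|s| + 2` (`cb_even`), `|s| + 4` (`cb_match`). -/

namespace Pool.Agent.Helper74.Hc

open Finset

/-- blocks for all sufficiently long double intervals, from blocks on `2 n` classes -/
theorem chain_blk {ρ : ℕ} {σ ε : ℤ} {L : ℕ} (hε : ε = 1 ∨ ε = -1)
    (hblk : ∀ n, L ≤ n → CB ρ (ε * σ) (2 * n)) {u n : ℤ} (hu : 1 ≤ u) (hn : Even n)
    (hL : 2 * (L : ℤ) ≤ n) : LGS (SI u (u + n - 1)) ρ σ := by
  obtain ⟨k, hk⟩ := hn
  have hk0 : 0 ≤ k := by omega
  have h1 := (hblk k.toNat (by omega)).toLGS u hu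
  have e : ((2 * k.toNat : ℕ) : ℤ) = n := by push_cast; omega
  rw [e] at h1
  rcases hε with rfl | rfl
  · rw [one_mul] at h1
    exact h1
  · have h2 := h1.neg
    have e2 : -(-1 * σ) = σ := by ring
    rw [e2] at h2
    exact h2

/-- HC-12a. one step of the chain, odd slopes: if `Big r s`, and there is a loopless factor on
`[-12, 12]` of degree 4 with the same gap (resp. the same sum) and blocks, then `Big (r+4) (s ± 4)` -/
theorem big_step_odd {r ρ : ℕ} {s σ f ε : ℤ} {L : ℕ} (hε : ε = 1 ∨ ε = -1) (h : Big r s)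
    (hf : LG0 (I 12) 4 f) (hg : (r : ℤ) - ε * s = 4 - ε * f)
    (hσ : (r : ℤ) + 4 = ρ + 2) (hσ' : s + 4 * ε = σ + ε)
    (hblk : ∀ n, L ≤ n → CB ρ (ε * σ) (2 * n)) : Big (r + 4) (s + 4 * ε) := by
  have e1 : r + 4 = ρ + 2 := by exact_mod_cast hσ
  rw [e1, hσ']
  obtain ⟨M, B, hM⟩ := h
  refine big_of_cores (T := 2 * (L : ℤ) + 1) hε ?_ ?_
  · intro u n hu hn hT
    exact chain_blk hε hblk hu hn (by omega)
  · intro i hi0 hi12
    obtain ⟨m, hm1, hm2, hm3, hm4⟩ : ∃ m : ℤ, M ≤ m ∧ 1 ≤ m ∧ (L : ℤ) ≤ m ∧ m % 12 = (i + 11) % 12 := by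
      refine ⟨12 * (|M| + L + 1) + (i + 11) % 12, ?_, ?_, ?_, ?_⟩
      · have := neg_abs_le M
        have h2 := le_abs_self M
        have h3 := abs_nonneg M
        omega
      · have h3 := abs_nonneg M
        omega
      · have h3 := abs_nonneg M
        omega
      · omega
    refine ⟨25 * m + 13, by omega, by omega, by omega, ?_⟩
    obtain ⟨N, hN, _⟩ := hM m hm1
    have e3 : 25 * m + 13 - 1 = m * (2 * 12 + 1) + 12 := by ring
    rw [e3, ← e1, ← hσ']
    rcases hε with rfl | rfl
    · have := prod_pos (by omega : 0 ≤ m) (by norm_num) ⟨N, hN⟩ hf.lg (by push_cast; linarith)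
      simpa using this
    · have := prod_neg (by omega : 0 ≤ m) (by norm_num) ⟨N, hN⟩ hf (by push_cast; linarith)
      have e4 : s + 4 * -1 = s - ((4 : ℕ) : ℤ) := by push_cast; ring
      rw [e4]
      exact this

theorem chain_b41 : Big 4 1 := by
  have h := big_of_cores (T := 14) (r := 2) (σ := 0) (ε := 1) (Or.inl rfl)
    (fun u n hu hn hT => chain_blk (ε := 1) (L := 0) (Or.inl rfl)
      (fun n _ => by simpa using cb_20 n) hu hn (by omega)) ?_
  · simpa using h
  intro i hi0 hi12
  interval_cases i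
  · exact ⟨24, by norm_num, by norm_num, by norm_num, by simpa using c4_1_23⟩
  · exact ⟨25, by norm_num, by norm_num, by norm_num, by simpa using c4_1_24⟩
  · exact ⟨14, by norm_num, by norm_num, by norm_num, by simpa using c4_1_13⟩
  · exact ⟨15, by norm_num, by norm_num, by norm_num, by simpa using c4_1_14⟩
  · exact ⟨16, by norm_num, by norm_num, by norm_num, by simpa using c4_1_15⟩
  · exact ⟨17, by norm_num, by norm_num, by norm_num, by simpa using c4_1_16⟩
  · exact ⟨18, by norm_num, by norm_num, by norm_num, by simpa using c4_1_17⟩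
  · exact ⟨19, by norm_num, by norm_num, by norm_num, by simpa using c4_1_18⟩
  · exact ⟨20, by norm_num, by norm_num, by norm_num, by simpa using c4_1_19⟩
  · exact ⟨21, by norm_num, by norm_num, by norm_num, by simpa using c4_1_20⟩
  · exact ⟨22, by norm_num, by norm_num, by norm_num, by simpa using c4_1_21⟩
  · exact ⟨23, by norm_num, by norm_num, by norm_num, by simpa using c4_1_22⟩

theorem chain_b4n1 : Big 4 (-1) := by
  have h := big_of_cores (T := 14) (r := 2) (σ := 0) (ε := -1) (Or.inr rfl)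
    (fun u n hu hn hT => chain_blk (ε := 1) (L := 0) (Or.inl rfl)
      (fun n _ => by simpa using cb_20 n) hu hn (by omega)) ?_
  · simpa using h
  intro i hi0 hi12
  interval_cases i
  · exact ⟨24, by norm_num, by norm_num, by norm_num, by simpa using c4_n1_23⟩
  · exact ⟨25, by norm_num, by norm_num, by norm_num, by simpa using c4_n1_24⟩
  · exact ⟨14, by norm_num, by norm_num, by norm_num, by simpa using c4_n1_13⟩
  · exact ⟨15, by norm_num, by norm_num, by norm_num, by simpa using c4_n1_14⟩
  · exact ⟨16, by norm_num, by norm_num, by norm_num, by simpa using c4_n1_15⟩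
  · exact ⟨17, by norm_num, by norm_num, by norm_num, by simpa using c4_n1_16⟩
  · exact ⟨18, by norm_num, by norm_num, by norm_num, by simpa using c4_n1_17⟩
  · exact ⟨19, by norm_num, by norm_num, by norm_num, by simpa using c4_n1_18⟩
  · exact ⟨20, by norm_num, by norm_num, by norm_num, by simpa using c4_n1_19⟩
  · exact ⟨21, by norm_num, by norm_num, by norm_num, by simpa using c4_n1_20⟩
  · exact ⟨22, by norm_num, by norm_num, by norm_num, by simpa using c4_n1_21⟩
  · exact ⟨23, by norm_num, by norm_num, by norm_num, by simpa using c4_n1_22⟩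

theorem chain_b61 : Big 6 1 := by
  have h := big_of_cores (T := 14) (r := 4) (σ := 0) (ε := 1) (Or.inl rfl)
    (fun u n hu hn hT => chain_blk (ε := 1) (L := 2) (Or.inl rfl)
      (fun n hn => by simpa using cb_40 n hn) hu hn (by omega)) ?_
  · simpa using h
  intro i hi0 hi12
  interval_cases i
  · exact ⟨24, by norm_num, by norm_num, by norm_num, by simpa using c6_1_23⟩
  · exact ⟨25, by norm_num, by norm_num, by norm_num, by simpa using c6_1_24⟩
  · exact ⟨14, by norm_num, by norm_num, by norm_num, by simpa using c6_1_13⟩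
  · exact ⟨15, by norm_num, by norm_num, by norm_num, by simpa using c6_1_14⟩
  · exact ⟨16, by norm_num, by norm_num, by norm_num, by simpa using c6_1_15⟩
  · exact ⟨17, by norm_num, by norm_num, by norm_num, by simpa using c6_1_16⟩
  · exact ⟨18, by norm_num, by norm_num, by norm_num, by simpa using c6_1_17⟩
  · exact ⟨19, by norm_num, by norm_num, by norm_num, by simpa using c6_1_18⟩
  · exact ⟨20, by norm_num, by norm_num, by norm_num, by simpa using c6_1_19⟩
  · exact ⟨21, by norm_num, by norm_num, by norm_num, by simpa using c6_1_20⟩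
  · exact ⟨22, by norm_num, by norm_num, by norm_num, by simpa using c6_1_21⟩
  · exact ⟨23, by norm_num, by norm_num, by norm_num, by simpa using c6_1_22⟩

theorem chain_b6n1 : Big 6 (-1) := by
  have h := big_of_cores (T := 14) (r := 4) (σ := 0) (ε := -1) (Or.inr rfl)
    (fun u n hu hn hT => chain_blk (ε := 1) (L := 2) (Or.inl rfl)
      (fun n hn => by simpa using cb_40 n hn) hu hn (by omega)) ?_
  · simpa using h
  intro i hi0 hi12
  interval_cases i
  · exact ⟨24, by norm_num, by norm_num, by norm_num, by simpa using c6_n1_23⟩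
  · exact ⟨25, by norm_num, by norm_num, by norm_num, by simpa using c6_n1_24⟩
  · exact ⟨14, by norm_num, by norm_num, by norm_num, by simpa using c6_n1_13⟩
  · exact ⟨15, by norm_num, by norm_num, by norm_num, by simpa using c6_n1_14⟩
  · exact ⟨16, by norm_num, by norm_num, by norm_num, by simpa using c6_n1_15⟩
  · exact ⟨17, by norm_num, by norm_num, by norm_num, by simpa using c6_n1_16⟩
  · exact ⟨18, by norm_num, by norm_num, by norm_num, by simpa using c6_n1_17⟩
  · exact ⟨19, by norm_num, by norm_num, by norm_num, by simpa using c6_n1_18⟩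
  · exact ⟨20, by norm_num, by norm_num, by norm_num, by simpa using c6_n1_19⟩
  · exact ⟨21, by norm_num, by norm_num, by norm_num, by simpa using c6_n1_20⟩
  · exact ⟨22, by norm_num, by norm_num, by norm_num, by simpa using c6_n1_21⟩
  · exact ⟨23, by norm_num, by norm_num, by norm_num, by simpa using c6_n1_22⟩

theorem chain_b63 : Big 6 3 := by
  have h := big_of_cores (T := 16) (r := 4) (σ := 2) (ε := 1) (Or.inl rfl)
    (fun u n hu hn hT => chain_blk (ε := 1) (L := 8) (Or.inl rfl)
      (fun n hn => by simpa using cb_42 n hn) hu hn (by obtain ⟨k, rfl⟩ := hn; omega)) ?_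
  · simpa using h
  intro i hi0 hi12
  interval_cases i
  · exact ⟨24, by norm_num, by norm_num, by norm_num, by simpa using c6_3_23⟩
  · exact ⟨25, by norm_num, by norm_num, by norm_num, by simpa using c6_3_24⟩
  · exact ⟨26, by norm_num, by norm_num, by norm_num, by simpa using c6_3_25⟩
  · exact ⟨27, by norm_num, by norm_num, by norm_num, by simpa using c6_3_26⟩
  · exact ⟨16, by norm_num, by norm_num, by norm_num, by simpa using c6_3_15⟩
  · exact ⟨17, by norm_num, by norm_num, by norm_num, by simpa using c6_3_16⟩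
  · exact ⟨18, by norm_num, by norm_num, by norm_num, by simpa using c6_3_17⟩
  · exact ⟨19, by norm_num, by norm_num, by norm_num, by simpa using c6_3_18⟩
  · exact ⟨20, by norm_num, by norm_num, by norm_num, by simpa using c6_3_19⟩
  · exact ⟨21, by norm_num, by norm_num, by norm_num, by simpa using c6_3_20⟩
  · exact ⟨22, by norm_num, by norm_num, by norm_num, by simpa using c6_3_21⟩
  · exact ⟨23, by norm_num, by norm_num, by norm_num, by simpa using c6_3_22⟩

theorem chain_b6n3 : Big 6 (-3) := by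
  have h := big_of_cores (T := 16) (r := 4) (σ := -2) (ε := -1) (Or.inr rfl)
    (fun u n hu hn hT => chain_blk (ε := -1) (L := 8) (Or.inr rfl)
      (fun n hn => by simpa using cb_42 n hn) hu hn (by obtain ⟨k, rfl⟩ := hn; omega)) ?_
  · simpa using h
  intro i hi0 hi12
  interval_cases i
  · exact ⟨24, by norm_num, by norm_num, by norm_num, by simpa using c6_n3_23⟩
  · exact ⟨25, by norm_num, by norm_num, by norm_num, by simpa using c6_n3_24⟩
  · exact ⟨26, by norm_num, by norm_num, by norm_num, by simpa using c6_n3_25⟩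
  · exact ⟨27, by norm_num, by norm_num, by norm_num, by simpa using c6_n3_26⟩
  · exact ⟨16, by norm_num, by norm_num, by norm_num, by simpa using c6_n3_15⟩
  · exact ⟨17, by norm_num, by norm_num, by norm_num, by simpa using c6_n3_16⟩
  · exact ⟨18, by norm_num, by norm_num, by norm_num, by simpa using c6_n3_17⟩
  · exact ⟨19, by norm_num, by norm_num, by norm_num, by simpa using c6_n3_18⟩
  · exact ⟨20, by norm_num, by norm_num, by norm_num, by simpa using c6_n3_19⟩
  · exact ⟨21, by norm_num, by norm_num, by norm_num, by simpa using c6_n3_20⟩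
  · exact ⟨22, by norm_num, by norm_num, by norm_num, by simpa using c6_n3_21⟩
  · exact ⟨23, by norm_num, by norm_num, by norm_num, by simpa using c6_n3_22⟩

/-- the slopes `ε (2 k + 1)`, degrees `2 k + 4` and `2 k + 6` -/
theorem chain_odd_aux (k : ℕ) : ∀ ε : ℤ, ε = 1 ∨ ε = -1 →
    Big (2 * k + 4) (ε * (2 * k + 1)) ∧ Big (2 * k + 6) (ε * (2 * k + 1)) := by
  induction k using Nat.strong_induction_on with
  | _ k ih =>
    intro ε hε
    match k, ih with
    | 0, _ =>
      rcases hε with rfl | rfl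
      · exact ⟨by simpa using chain_b41, by simpa using chain_b61⟩
      · exact ⟨by simpa using chain_b4n1, by simpa using chain_b6n1⟩
    | 1, _ =>
      obtain ⟨L, hL⟩ := cb_match (r := 4) (d := 2) (L := 8) (fun n hn => cb_42 n hn)
      rcases hε with rfl | rfl
      · refine ⟨by norm_num; exact chain_b63, ?_⟩
        have h := big_step_odd (ε := 1) (ρ := 6) (σ := 2) (L := L) (Or.inl rfl) chain_b4n1 c4_n1_12
          (by norm_num) (by norm_num) (by norm_num) (fun n hn => by simpa using hL n hn)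
        norm_num at h ⊢
        exact h
      · refine ⟨by norm_num; exact chain_b6n3, ?_⟩
        have h := big_step_odd (ε := -1) (ρ := 6) (σ := -2) (L := L) (Or.inr rfl) chain_b41 c4_1_12
          (by norm_num) (by norm_num) (by norm_num) (fun n hn => by simpa using hL n hn)
        norm_num at h ⊢
        exact h
    | k + 2, ih =>
      obtain ⟨h1, h2⟩ := ih k (by omega) ε hε
      obtain ⟨L, hL⟩ := cb_even (k + 1)
      obtain ⟨L', hL'⟩ := cb_match hL
      have hf : ∀ δ : ℤ, δ = 1 ∨ δ = -1 → LG0 (I 12) 4 δ := by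
        intro δ hδ
        rcases hδ with rfl | rfl
        · exact c4_1_12
        · exact c4_n1_12
      have hεε : ε * ε = 1 := by rcases hε with rfl | rfl <;> norm_num
      constructor
      · have h := big_step_odd (ε := ε) (ρ := 2 * k + 6) (σ := ε * (2 * k + 4)) (L := L) (f := ε) hε h1
          (hf ε hε) (by push_cast; rw [← mul_assoc, hεε]; ring) (by push_cast; ring) (by ring)
          (fun n hn => by
            have := hL n hn
            rw [← mul_assoc, hεε, one_mul]
            have e1 : 2 * (k + 1) + 4 = 2 * k + 6 := by ring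
            have e2 : 2 * ((k + 1 : ℕ) : ℤ) + 2 = 2 * k + 4 := by push_cast; ring
            rw [e1, e2] at this
            exact this)
        have e1 : 2 * k + 4 + 4 = 2 * (k + 2) + 4 := by ring
        have e2 : ε * (2 * (k : ℤ) + 1) + 4 * ε = ε * (2 * ((k + 2 : ℕ) : ℤ) + 1) := by push_cast; ring
        rw [e1, e2] at h
        exact h
      · have h := big_step_odd (ε := ε) (ρ := 2 * k + 8) (σ := ε * (2 * k + 4)) (L := L') (f := -ε) hε h2
          (hf (-ε) (by rcases hε with rfl | rfl <;> norm_num))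
          (by push_cast; rw [← mul_assoc, mul_neg, hεε]; ring) (by push_cast; ring) (by ring)
          (fun n hn => by
            have := hL' n hn
            rw [← mul_assoc, hεε, one_mul]
            have e1 : 2 * (k + 1) + 4 + 2 = 2 * k + 8 := by ring
            have e2 : 2 * ((k + 1 : ℕ) : ℤ) + 2 = 2 * k + 4 := by push_cast; ring
            rw [e1, e2] at this
            exact this)
        have e1 : 2 * k + 6 + 4 = 2 * (k + 2) + 6 := by ring
        have e2 : ε * (2 * (k : ℤ) + 1) + 4 * ε = ε * (2 * ((k + 2 : ℕ) : ℤ) + 1) := by push_cast; ring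
        rw [e1, e2] at h
        exact h

/-- HC-12b. odd slopes, degree `|s| + 3` and `|s| + 5` -/
theorem big_odd (s : ℤ) (hs : s % 2 = 1) (r : ℕ) (hr : (r : ℤ) = |s| + 3 ∨ (r : ℤ) = |s| + 5) :
    Big r s := by
  obtain ⟨ε, k, hε, hk⟩ : ∃ (ε : ℤ) (k : ℕ), (ε = 1 ∨ ε = -1) ∧ s = ε * (2 * k + 1) := by
    rcases le_or_gt 0 s with h0 | h0
    · exact ⟨1, (s / 2).toNat, Or.inl rfl, by omega⟩
    · exact ⟨-1, ((-s) / 2).toNat, Or.inr rfl, by omega⟩
  have habs : |s| = 2 * k + 1 := by
    rw [hk, abs_mul]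
    have : |ε| = 1 := by rcases hε with rfl | rfl <;> norm_num
    rw [this, one_mul, abs_of_nonneg (by positivity)]
  obtain ⟨h1, h2⟩ := chain_odd_aux k ε hε
  rw [habs] at hr
  rcases hr with hr | hr
  · have e : r = 2 * k + 4 := by omega
    rw [e, hk]
    exact h1
  · have e : r = 2 * k + 6 := by omega
    rw [e, hk]
    exact h2

/-- cores for the even slopes `ε (2 k + 2)`, degrees `2 k + 4` and `2 k + 6` -/
theorem chain_even_aux (b : ℤ) (hb : b = 0 ∨ b = 1) (k : ℕ) : ∀ ε : ℤ, ε = 1 ∨ ε = -1 →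
    (∃ m, 0 ≤ m ∧ m % 2 = b ∧ LG (I m) (2 * k + 4) (ε * (2 * k + 2))) ∧
    (∃ m, 0 ≤ m ∧ m % 2 = b ∧ LG (I m) (2 * k + 6) (ε * (2 * k + 2))) := by
  have step : ∀ {m : ℤ} {r : ℕ} {s f ε : ℤ}, 0 ≤ m → m % 2 = b → ε = 1 ∨ ε = -1 → LG (I m) r s →
      LG0 (I 12) 4 f → (r : ℤ) - ε * s = 4 - ε * f →
      ∃ m, 0 ≤ m ∧ m % 2 = b ∧ LG (I m) (r + 4) (s + 4 * ε) := by
    intro m r s f ε hm hmb hε h1 hf hg
    refine ⟨m * (2 * 12 + 1) + 12, by omega, by omega, ?_⟩
    rcases hε with rfl | rfl
    · have := prod_pos hm (by norm_num) h1 hf.lg (by push_cast; linarith)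
      simpa using this
    · have := prod_neg hm (by norm_num) h1 hf (by push_cast; linarith)
      have e4 : s + 4 * -1 = s - ((4 : ℕ) : ℤ) := by push_cast; ring
      rw [e4]
      exact this
  induction k using Nat.strong_induction_on with
  | _ k ih =>
    intro ε hε
    match k, ih with
    | 0, _ =>
      rcases hb with rfl | rfl <;> rcases hε with rfl | rfl
      · exact ⟨⟨12, by norm_num, by norm_num, by simpa using c4_2_12.lg⟩,
          ⟨12, by norm_num, by norm_num, by simpa using c6_2_12⟩⟩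
      · exact ⟨⟨12, by norm_num, by norm_num, by simpa using c4_n2_12.lg⟩,
          ⟨12, by norm_num, by norm_num, by simpa using c6_n2_12⟩⟩
      · exact ⟨⟨11, by norm_num, by norm_num, by simpa using c4_2_11.lg⟩,
          ⟨11, by norm_num, by norm_num, by simpa using c6_2_11⟩⟩
      · exact ⟨⟨11, by norm_num, by norm_num, by simpa using c4_n2_11.lg⟩,
          ⟨11, by norm_num, by norm_num, by simpa using c6_n2_11⟩⟩
    | 1, _ =>
      have hc : ∃ m, 0 ≤ m ∧ m % 2 = b ∧ LG (I m) 4 0 := by
        rcases hb with rfl | rfl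
        · exact ⟨12, by norm_num, by norm_num, c4_0_12.lg⟩
        · exact ⟨11, by norm_num, by norm_num, c4_0_11.lg⟩
      obtain ⟨m, hm, hmb, hm1⟩ := hc
      have h8 := step hm hmb hε hm1 c4_0_12 (by norm_num)
      obtain ⟨m', a1, a2, a3⟩ := h8
      refine ⟨?_, ⟨m', a1, a2, ?_⟩⟩
      · rcases hb with rfl | rfl <;> rcases hε with rfl | rfl
        · exact ⟨12, by norm_num, by norm_num, by norm_num; exact c6_4_12⟩
        · exact ⟨12, by norm_num, by norm_num, by norm_num; exact c6_n4_12⟩
        · exact ⟨11, by norm_num, by norm_num, by norm_num; exact c6_4_11⟩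
        · exact ⟨11, by norm_num, by norm_num, by norm_num; exact c6_n4_11⟩
      · have e1 : 2 * 1 + 6 = 4 + 4 := by norm_num
        have e2 : ε * (2 * ((1 : ℕ) : ℤ) + 2) = 0 + 4 * ε := by push_cast; ring
        rw [e1, e2]
        exact a3
    | k + 2, ih =>
      obtain ⟨⟨m, hm, hmb, hm1⟩, ⟨m', hm', hmb', hm1'⟩⟩ := ih k (by omega) ε hε
      have hεε : ε * ε = 1 := by rcases hε with rfl | rfl <;> norm_num
      have hf : LG0 (I 12) 4 (2 * ε) := by
        rcases hε with rfl | rfl
        · simpa using c4_2_12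
        · simpa using c4_n2_12
      have s1 := step hm hmb hε hm1 hf (by push_cast; linear_combination (-(2 * (k : ℤ) + 2) + 2) * hεε)
      have s2 := step hm' hmb' hε hm1' c4_0_12 (by push_cast; linear_combination (-(2 * (k : ℤ) + 2)) * hεε)
      have e2 : ε * (2 * (k : ℤ) + 2) + 4 * ε = ε * (2 * ((k + 2 : ℕ) : ℤ) + 2) := by push_cast; ring
      have e1 : 2 * k + 4 + 4 = 2 * (k + 2) + 4 := by ring
      have e3 : 2 * k + 6 + 4 = 2 * (k + 2) + 6 := by ring
      rw [e2, e1] at s1
      rw [e2, e3] at s2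
      exact ⟨s1, s2⟩

/-- HC-12c. even slopes, degree `|s| + 2` and `|s| + 4` -/
theorem big_even (s : ℤ) (hs : s % 2 = 0) (hs0 : s ≠ 0) (r : ℕ)
    (hr : (r : ℤ) = |s| + 2 ∨ (r : ℤ) = |s| + 4) : Big r s := by
  obtain ⟨ε, k, hε, hk⟩ : ∃ (ε : ℤ) (k : ℕ), (ε = 1 ∨ ε = -1) ∧ s = ε * (2 * k + 2) := by
    rcases le_or_gt 0 s with h0 | h0
    · exact ⟨1, (s / 2 - 1).toNat, Or.inl rfl, by omega⟩
    · exact ⟨-1, ((-s) / 2 - 1).toNat, Or.inr rfl, by omega⟩
  have habs : |s| = 2 * k + 2 := by
    rw [hk, abs_mul]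
    have : |ε| = 1 := by rcases hε with rfl | rfl <;> norm_num
    rw [this, one_mul, abs_of_nonneg (by positivity)]
  obtain ⟨h1, h2⟩ := chain_even_aux 0 (Or.inl rfl) k ε hε
  obtain ⟨h1', h2'⟩ := chain_even_aux 1 (Or.inr rfl) k ε hε
  have hεε : ε * ε = 1 := by rcases hε with rfl | rfl <;> norm_num
  obtain ⟨L, hL⟩ := cb_even k
  obtain ⟨L', hL'⟩ := cb_match hL
  rw [habs] at hr
  rcases hr with hr | hr
  · have e : r = 2 * k + 4 := by omega
    rw [e, hk]
    refine big_of_two (L := 2 * (L : ℤ)) (fun u n hu hn hT => chain_blk hε (fun n hn => ?_) hu hn hT) h1 h1'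
    rw [← mul_assoc, hεε, one_mul]
    exact hL n hn
  · have e : r = 2 * k + 6 := by omega
    rw [e, hk]
    refine big_of_two (L := 2 * (L' : ℤ)) (fun u n hu hn hT => chain_blk hε (fun n hn => ?_) hu hn hT) h2 h2'
    rw [← mul_assoc, hεε, one_mul]
    exact hL' n hn

end Pool.Agent.Helper74.Hc
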