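import Mathlib

/-! HC-4a. The recursion `t ↦ 13 t + 12 s` reaches all large numbers in the residue class mod 12. -/

namespace Pool.Agent.Helper74.Hc

private theorem cover_mod_a (t₀ : ℤ) (k : ℕ) : (13 ^ k * t₀) % 12 = t₀ % 12 := by
  have h1 : (13 : ℤ) ^ k % 12 = 1 := by
    have : (13 : ℤ) ^ k ≡ 1 ^ k [ZMOD 12] := (show (13 : ℤ) ≡ 1 [ZMOD 12] from rfl).pow k
    rw [one_pow] at this
    exact this
  rw [Int.mul_emod, h1]
  simp

private theorem cover_mod_b (t₀ : ℤ) (k : ℕ) : (25 ^ k * (t₀ - 1) + 1) % 12 = t₀ % 12 := by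
  have h1 : (25 : ℤ) ^ k % 12 = 1 := by
    have : (25 : ℤ) ^ k ≡ 1 ^ k [ZMOD 12] := (show (25 : ℤ) ≡ 1 [ZMOD 12] from rfl).pow k
    rw [one_pow] at this
    exact this
  have h2 : (25 ^ k * (t₀ - 1)) % 12 = (t₀ - 1) % 12 := by
    rw [Int.mul_emod, h1]
    simp
  omega

private theorem cover_pick {A B t₀ u : ℤ} (h14 : 14 ≤ A) (hAB : A ≤ B) (hA : A % 12 = t₀ % 12)
    (hB : B % 12 = t₀ % 12) (hu : u % 12 = t₀ % 12) (h1 : 13 * A ≤ u) (h2 : u ≤ 25 * B - 24) :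
    ∃ t s, A ≤ t ∧ t ≤ B ∧ t % 12 = t₀ % 12 ∧ 0 ≤ s ∧ s + 2 ≤ t ∧ u = 13 * t + 12 * s := by
  -- induction on the number of steps from `A` to `B`
  have key : ∀ n : ℕ, ∀ B : ℤ, B = A + 12 * n → u ≤ 25 * B - 24 →
      ∃ t, A ≤ t ∧ t ≤ B ∧ t % 12 = t₀ % 12 ∧ 13 * t ≤ u ∧ u ≤ 25 * t - 24 := by
    intro n
    induction n with
    | zero =>
      intro B hB h2
      refine ⟨A, le_rfl, by omega, hA, h1, by omega⟩
    | succ n ih =>
      intro B hB h2
      by_cases h3 : u ≤ 25 * (B - 12) - 24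
      · obtain ⟨t, ht1, ht2, ht3, ht4, ht5⟩ := ih (B - 12) (by push_cast at hB; omega) h3
        exact ⟨t, ht1, by omega, ht3, ht4, ht5⟩
      · rw [not_le] at h3
        push_cast at hB
        refine ⟨B, by omega, le_rfl, by omega, ?_, h2⟩
        omega
  obtain ⟨n, hn⟩ : ∃ n : ℕ, B = A + 12 * n := ⟨((B - A) / 12).toNat, by omega⟩
  obtain ⟨t, ht1, ht2, ht3, ht4, ht5⟩ := key n B hn h2
  exact ⟨t, (u - 13 * t) / 12, ht1, ht2, ht3, by omega, by omega, by omega⟩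

/-- HC-4a. Hint: with `a k = 13^k t₀` and `b k = 25^k (t₀ - 1) + 1` (so `b (k+1) = 25 b k - 24`) all
`t ∈ [a k, b k]` with `t ≡ t₀ (mod 12)` satisfy `P` (induction; two consecutive `t, t + 12 ∈ [a k, b k]`
cover `[13 t, 25 t - 24]` and `[13 (t+12), 25 (t+12) - 24]`, and `13 (t + 12) ≤ 25 t - 24 + 12` as
`t ≥ 14`); and `b k + 12 ≥ a (k+1)` for all `k ≥ 5` (as `25^5 (t₀ - 1) ≥ 13^6 t₀`). -/
theorem cover12 {P : ℤ → Prop} {t₀ : ℤ} (h14 : 14 ≤ t₀) (h0 : P t₀)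
    (step : ∀ t s, t₀ ≤ t → 0 ≤ s → s + 2 ≤ t → P t → P (13 * t + 12 * s)) :
    ∃ M, ∀ t, M ≤ t → t % 12 = t₀ % 12 → P t := by
  have ha : ∀ k : ℕ, t₀ ≤ 13 ^ k * t₀ := by
    intro k
    have h1 : (1 : ℤ) ≤ 13 ^ k := one_le_pow₀ (by norm_num)
    nlinarith
  have hab : ∀ k : ℕ, (13 : ℤ) ^ k * t₀ ≤ 25 ^ k * (t₀ - 1) + 1 := by
    intro k
    induction k with
    | zero => simp
    | succ k ih =>
      have h1 := ha k
      rw [pow_succ, pow_succ]
      nlinarith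
  have hP : ∀ k : ℕ, ∀ t, 13 ^ k * t₀ ≤ t → t ≤ 25 ^ k * (t₀ - 1) + 1 → t % 12 = t₀ % 12 → P t := by
    intro k
    induction k with
    | zero =>
      intro t h1 h2 _
      have : t = t₀ := by
        simp only [pow_zero, one_mul] at h1 h2
        omega
      rw [this]
      exact h0
    | succ k ih =>
      intro t h1 h2 h3
      obtain ⟨x, s, hx1, hx2, hx3, hs1, hs2, hx⟩ := cover_pick (A := 13 ^ k * t₀)
        (B := 25 ^ k * (t₀ - 1) + 1) (t₀ := t₀) (u := t) (h14.trans (ha k)) (hab k)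
        (cover_mod_a t₀ k) (cover_mod_b t₀ k) h3
        (by rw [pow_succ] at h1; linarith) (by rw [pow_succ] at h2; linarith)
      rw [hx]
      exact step x s ((ha k).trans hx1) hs1 hs2 (ih x hx1 hx2 hx3)
  have hgap : ∀ k : ℕ, (13 : ℤ) ^ (k + 6) * t₀ ≤ 25 ^ (k + 5) * (t₀ - 1) := by
    intro k
    induction k with
    | zero => norm_num; omega
    | succ k ih =>
      have h1 : (0 : ℤ) ≤ 25 ^ (k + 5) * (t₀ - 1) :=
        mul_nonneg (by positivity) (by omega)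
      have e1 : (13 : ℤ) ^ (k + 1 + 6) = 13 ^ (k + 6) * 13 := by rw [← pow_succ]
      have e2 : (25 : ℤ) ^ (k + 1 + 5) = 25 ^ (k + 5) * 25 := by rw [← pow_succ]
      rw [e1, e2]
      nlinarith
  refine ⟨13 ^ 5 * t₀, ?_⟩
  have hall : ∀ k : ℕ, ∀ t, 13 ^ 5 * t₀ ≤ t → t < 13 ^ (k + 5) * t₀ → t % 12 = t₀ % 12 → P t := by
    intro k
    induction k with
    | zero =>
      intro t h1 h2 _
      simp only [zero_add] at h2
      omega
    | succ k ih =>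
      intro t h1 h2 h3
      by_cases h4 : t < 13 ^ (k + 5) * t₀
      · exact ih t h1 h4 h3
      · rw [not_lt] at h4
        refine hP (k + 5) t h4 ?_ h3
        have h5 := hgap k
        have h6 := cover_mod_b t₀ (k + 5)
        have e1 : (13 : ℤ) ^ (k + 1 + 5) = 13 ^ (k + 6) := by ring_nf
        rw [e1] at h2
        generalize (25 : ℤ) ^ (k + 5) * (t₀ - 1) = b at *
        omega
  intro t ht hmod
  refine hall t.toNat t ht ?_ hmod
  have h1 : (t.toNat : ℤ) < 13 ^ t.toNat := by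
    exact_mod_cast Nat.lt_pow_self (by norm_num : 1 < 13)
  have h2 : (13 : ℤ) ^ t.toNat ≤ 13 ^ (t.toNat + 5) := pow_le_pow_right₀ (by norm_num) (by omega)
  have h3 : t ≤ (t.toNat : ℤ) := Int.self_le_toNat t
  nlinarith

end Pool.Agent.Helper74.Hc
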