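import Pool.Agent.Helper74.Hc.Union

/-! Products on general sets of integers: `(x, j) — (x', ε j)` and `(x, j) — (ε x, j')`. -/

namespace Pool.Agent.Helper74.Hc

open Finset

/-- neighbourhoods in the product -/
def prN (q ε : ℤ) (A J : Finset ℤ) (N₁ N₂ : ℤ → Finset ℤ) (z : ℤ) : Finset ℤ :=
  (A ×ˢ J).biUnion fun p =>
    if q * p.1 + p.2 = z then
      (N₁ p.1).image (fun x' => q * x' + ε * p.2) ∪ (N₂ p.2).image (fun j' => ε * (q * p.1) + j')
    else ∅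

/-- the set `{q x + j}` -/
def prX (q : ℤ) (A J : Finset ℤ) : Finset ℤ := (A ×ˢ J).image fun p => q * p.1 + p.2

theorem mem_prX {q z : ℤ} {A J : Finset ℤ} :
    z ∈ prX q A J ↔ ∃ x ∈ A, ∃ j ∈ J, q * x + j = z := by
  unfold prX
  rw [mem_image]
  constructor
  · rintro ⟨p, hp, e⟩
    rw [mem_product] at hp
    exact ⟨p.1, hp.1, p.2, hp.2, e⟩
  · rintro ⟨x, hx, j, hj, e⟩
    exact ⟨(x, j), mem_product.2 ⟨hx, hj⟩, e⟩

theorem prN_eq {q ε : ℤ} {A J : Finset ℤ} {N₁ N₂ : ℤ → Finset ℤ}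
    (hinj : ∀ x ∈ A, ∀ j ∈ J, ∀ x' ∈ A, ∀ j' ∈ J, q * x + j = q * x' + j' → x = x' ∧ j = j')
    {x j : ℤ} (hx : x ∈ A) (hj : j ∈ J) :
    prN q ε A J N₁ N₂ (q * x + j) =
      (N₁ x).image (fun x' => q * x' + ε * j) ∪ (N₂ j).image (fun j' => ε * (q * x) + j') := by
  ext y
  unfold prN
  rw [mem_biUnion]
  constructor
  · rintro ⟨p, hp, hy⟩
    rw [mem_product] at hp
    by_cases h : q * p.1 + p.2 = q * x + j
    · rw [if_pos h] at hy
      obtain ⟨e1, e2⟩ := hinj p.1 hp.1 p.2 hp.2 x hx j hj h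
      rw [e1, e2] at hy
      exact hy
    · rw [if_neg h] at hy
      simp at hy
  · intro hy
    refine ⟨(x, j), mem_product.2 ⟨hx, hj⟩, ?_⟩
    rw [if_pos rfl]
    exact hy

theorem prod_gen {q ε : ℤ} (hq : q ≠ 0) (hε : ε = 1 ∨ ε = -1) {A J : Finset ℤ}
    {N₁ N₂ : ℤ → Finset ℤ} {r₁ r₂ : ℕ} {s₁ s₂ : ℤ}
    (h1 : IsLG N₁ A r₁ s₁) (h2 : IsLG N₂ J r₂ s₂)
    (hinj : ∀ x ∈ A, ∀ j ∈ J, ∀ x' ∈ A, ∀ j' ∈ J, q * x + j = q * x' + j' → x = x' ∧ j = j')
    (hA : ∀ x ∈ A, ε * x ∈ A) (hJ : ∀ j ∈ J, ε * j ∈ J)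
    (hl : (∀ x, ε * x ∉ N₁ x) ∨ ∀ j, ε * j ∉ N₂ j)
    (hs : s₁ + ε * r₂ = s₂ + ε * r₁) :
    IsLG (prN q ε A J N₁ N₂) (prX q A J) (r₁ + r₂) (s₁ + ε * r₂) := by
  have hεε : ε * ε = 1 := by rcases hε with rfl | rfl <;> norm_num
  have hnb : ∀ {x j y : ℤ}, x ∈ A → j ∈ J → y ∈ prN q ε A J N₁ N₂ (q * x + j) →
      (∃ x' ∈ N₁ x, y = q * x' + ε * j) ∨ ∃ j' ∈ N₂ j, y = q * (ε * x) + j' := by
    intro x j y hx hj hy
    rw [prN_eq hinj hx hj, mem_union, mem_image, mem_image] at hy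
    rcases hy with ⟨x', h3, h4⟩ | ⟨j', h3, h4⟩
    · exact Or.inl ⟨x', h3, h4.symm⟩
    · exact Or.inr ⟨j', h3, by rw [← h4]; ring⟩
  have hout : ∀ z, z ∉ prX q A J → prN q ε A J N₁ N₂ z = ∅ := by
    intro z hz
    unfold prN
    rw [Finset.eq_empty_iff_forall_notMem]
    intro y hy
    rw [mem_biUnion] at hy
    obtain ⟨p, hp, hy⟩ := hy
    rw [mem_product] at hp
    by_cases h : q * p.1 + p.2 = z
    · exact hz (mem_prX.2 ⟨p.1, hp.1, p.2, hp.2, h⟩)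
    · rw [if_neg h] at hy
      simp at hy
  refine ⟨⟨?_, ?_⟩, hout, ?_, ?_⟩
  · intro z y hy
    by_cases hz : z ∈ prX q A J
    · obtain ⟨x, hx, j, hj, rfl⟩ := mem_prX.1 hz
      rcases hnb hx hj hy with ⟨x', h3, rfl⟩ | ⟨j', h3, rfl⟩
      · have hx' := (h1.sub h3).2
        rw [prN_eq hinj hx' (hJ j hj), mem_union]
        left
        rw [mem_image]
        exact ⟨x, h1.gr.symm _ _ h3, by rw [← mul_assoc, hεε, one_mul]⟩
      · have hj' := (h2.sub h3).2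
        rw [prN_eq hinj (hA x hx) hj', mem_union]
        right
        rw [mem_image]
        refine ⟨j, h2.gr.symm _ _ h3, ?_⟩
        have : ε * (q * (ε * x)) = (ε * ε) * (q * x) := by ring
        rw [this, hεε, one_mul]
    · rw [hout z hz] at hy
      simp at hy
  · intro z hy
    by_cases hz : z ∈ prX q A J
    · obtain ⟨x, hx, j, hj, rfl⟩ := mem_prX.1 hz
      rcases hnb hx hj hy with ⟨x', h3, h4⟩ | ⟨j', h3, h4⟩
      · have := (hinj x hx j hj x' (h1.sub h3).2 (ε * j) (hJ j hj) h4).1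
        exact h1.gr.irr x (this ▸ h3)
      · have := (hinj x hx j hj (ε * x) (hA x hx) j' (h2.sub h3).2 h4).2
        exact h2.gr.irr j (this ▸ h3)
    · rw [hout z hz] at hy
      simp at hy
  · intro z hz
    obtain ⟨x, hx, j, hj, rfl⟩ := mem_prX.1 hz
    rw [prN_eq hinj hx hj, Finset.card_union_of_disjoint, Finset.card_image_of_injective,
      Finset.card_image_of_injective, h1.card x hx, h2.card j hj]
    · intro a b hab; simpa using hab
    · intro a b hab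
      have : q * a = q * b := by simpa using hab
      exact mul_left_cancel₀ hq this
    · rw [Finset.disjoint_left]
      intro y hy1 hy2
      rw [mem_image] at hy1 hy2
      obtain ⟨x', h3, rfl⟩ := hy1
      obtain ⟨j', h4, h5⟩ := hy2
      have h6 : q * (ε * x) + j' = q * x' + ε * j := by rw [← h5]; ring
      have h7 := hinj (ε * x) (hA x hx) j' (h2.sub h4).2 x' (h1.sub h3).2 (ε * j) (hJ j hj) h6
      rcases hl with hl | hl
      · exact hl x (h7.1 ▸ h3)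
      · exact hl j (h7.2 ▸ h4)
  · intro z hz
    obtain ⟨x, hx, j, hj, rfl⟩ := mem_prX.1 hz
    rw [prN_eq hinj hx hj, Finset.sum_union, Finset.sum_image, Finset.sum_image,
      Finset.sum_add_distrib, Finset.sum_add_distrib, ← Finset.mul_sum, h1.sum x hx, h2.sum j hj,
      Finset.sum_const, Finset.sum_const, h1.card x hx, h2.card j hj, nsmul_eq_mul, nsmul_eq_mul]
    · have h3 : s₂ = s₁ + ε * r₂ - ε * r₁ := by linarith
      rw [h3]
      ring
    · intro a _ b _ hab; simpa using hab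
    · intro a _ b _ hab
      have : q * a = q * b := by simpa using hab
      exact mul_left_cancel₀ hq this
    · rw [Finset.disjoint_left]
      intro y hy1 hy2
      rw [mem_image] at hy1 hy2
      obtain ⟨x', h3, rfl⟩ := hy1
      obtain ⟨j', h4, h5⟩ := hy2
      have h6 : q * (ε * x) + j' = q * x' + ε * j := by rw [← h5]; ring
      have h7 := hinj (ε * x) (hA x hx) j' (h2.sub h4).2 x' (h1.sub h3).2 (ε * j) (hJ j hj) h6
      rcases hl with hl | hl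
      · exact hl x (h7.1 ▸ h3)
      · exact hl j (h7.2 ▸ h4)

/-- loops in the product -/
theorem prN_loop {q ε : ℤ} (hε : ε = 1 ∨ ε = -1) {A J : Finset ℤ}
    {N₁ N₂ : ℤ → Finset ℤ} {r₁ r₂ : ℕ} {s₁ s₂ : ℤ}
    (h1 : IsLG N₁ A r₁ s₁) (h2 : IsLG N₂ J r₂ s₂)
    (hinj : ∀ x ∈ A, ∀ j ∈ J, ∀ x' ∈ A, ∀ j' ∈ J, q * x + j = q * x' + j' → x = x' ∧ j = j')
    (hA : ∀ x ∈ A, -x ∈ A) (hJ : ∀ j ∈ J, -j ∈ J)
    (hl1 : ∀ x, -x ∉ N₁ x) (hl2 : ∀ j, -j ∉ N₂ j) :
    ∀ z, -z ∉ prN q ε A J N₁ N₂ z := by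
  have hA' : ∀ x ∈ A, ε * x ∈ A := by
    intro x hx
    rcases hε with rfl | rfl
    · simpa using hx
    · simpa using hA x hx
  have hJ' : ∀ x ∈ J, ε * x ∈ J := by
    intro x hx
    rcases hε with rfl | rfl
    · simpa using hx
    · simpa using hJ x hx
  intro z hz
  unfold prN at hz
  rw [mem_biUnion] at hz
  obtain ⟨p, hp, hy⟩ := hz
  rw [mem_product] at hp
  by_cases h : q * p.1 + p.2 = z
  · rw [if_pos h, mem_union, mem_image, mem_image] at hy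
    rcases hy with ⟨x', h3, h4⟩ | ⟨j', h3, h4⟩
    · have h5 : q * x' + ε * p.2 = q * (-p.1) + (-p.2) := by rw [h4, ← h]; ring
      have h6 := (hinj x' (h1.sub h3).2 (ε * p.2) (hJ' _ hp.2) (-p.1) (hA _ hp.1) (-p.2)
        (hJ _ hp.2) h5).1
      exact hl1 p.1 (h6 ▸ h3)
    · have h5 : q * (ε * p.1) + j' = q * (-p.1) + (-p.2) := by
        have : q * (ε * p.1) + j' = ε * (q * p.1) + j' := by ring
        rw [this, h4, ← h]; ring
      have h6 := (hinj (ε * p.1) (hA' _ hp.1) j' (h2.sub h3).2 (-p.1) (hA _ hp.1) (-p.2)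
        (hJ _ hp.2) h5).2
      exact hl2 p.2 (h6 ▸ h3)
  · rw [if_neg h] at hy
    simp at hy

end Pool.Agent.Helper74.Hc
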