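import Pool.Agent.Helper74.Hc.Union
import Pool.Agent.Helper74.Hc.Lang
import Pool.Agent.Helper74.Hc.Tri

/-! HC-3b. From an interval `[-(t-1), t-1]` to `[-(13t+12s-1), 13t+12s-1]`, for `0 ≤ s ≤ t - 2`.
With `lang` the set `±[t, 13t+12s-1]` carries the graph `trN T` (degree 2, slope 1; if `ε = -1` replace
every neighbour by its negative, slope -1), and on each of the five intervals `±[t, 5t+4s-1]`,
`±[5t+4s, c₂-1]`, `±[c₂, c₃-1]`, `±[c₃, c₄-1]`, `±[c₄, 13t+12s-1]` (even lengths `≥ t - 1`) a block from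
`hblk` (degree `r`, slope `σ`). The union of the five block graphs and the graph of the triples are
edge-disjoint, since the elements of a triple lie in different intervals. So `±[t, 13t+12s-1]` carries a
graph of degree `r + 2` and slope `σ + ε` without loops; add the core. -/

namespace Pool.Agent.Helper74.Hc

open Finset

private theorem trN_mem {T : Finset (ℤ × ℤ)} {x y : ℤ} (h : y ∈ trN T x) :
    ∃ p ∈ T, ∃ a b : ℤ, (x = a ∨ x = -a) ∧ (y = b ∨ y = -b) ∧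
      ((a = p.1 ∧ b = p.2) ∨ (a = p.1 ∧ b = p.1 + p.2) ∨ (a = p.2 ∧ b = p.1) ∨
        (a = p.2 ∧ b = p.1 + p.2) ∨ (a = p.1 + p.2 ∧ b = p.1) ∨ (a = p.1 + p.2 ∧ b = p.2)) := by
  unfold trN at h
  rw [mem_biUnion] at h
  obtain ⟨p, hp, h⟩ := h
  refine ⟨p, hp, ?_⟩
  split_ifs at h with h1 h2 h3 h4 h5 h6 <;>
    simp only [mem_insert, mem_singleton, notMem_empty] at h
  · rcases h with h | h
    · exact ⟨p.1, p.1 + p.2, Or.inl h1, Or.inl h, by simp⟩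
    · exact ⟨p.1, p.2, Or.inl h1, Or.inr h, by simp⟩
  · rcases h with h | h
    · exact ⟨p.2, p.1 + p.2, Or.inl h2, Or.inl h, by simp⟩
    · exact ⟨p.2, p.1, Or.inl h2, Or.inr h, by simp⟩
  · rcases h with h | h
    · exact ⟨p.1 + p.2, p.1, Or.inl h3, Or.inl h, by simp⟩
    · exact ⟨p.1 + p.2, p.2, Or.inl h3, Or.inl h, by simp⟩
  · rcases h with h | h
    · exact ⟨p.1, p.1 + p.2, Or.inr h4, Or.inr h, by simp⟩
    · exact ⟨p.1, p.2, Or.inr h4, Or.inl h, by simp⟩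
  · rcases h with h | h
    · exact ⟨p.2, p.1 + p.2, Or.inr h5, Or.inr h, by simp⟩
    · exact ⟨p.2, p.1, Or.inr h5, Or.inl h, by simp⟩
  · rcases h with h | h
    · exact ⟨p.1 + p.2, p.1, Or.inr h6, Or.inr h, by simp⟩
    · exact ⟨p.1 + p.2, p.2, Or.inr h6, Or.inr h, by simp⟩

private theorem SI_pm {u v a x : ℤ} (hu : 0 < u) (ha : 0 < a) (hx : x = a ∨ x = -a)
    (h : x ∈ SI u v) : u ≤ a ∧ a ≤ v := by
  rw [mem_SI] at h
  rcases hx with hx | hx <;> rcases h with h | h <;> omega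

private theorem neg_aux {N : ℤ → Finset ℤ} {X : Finset ℤ} {r : ℕ} {s : ℤ} (h : IsLG N X r s)
    (h1 : ∀ x, -x ∉ N x) (h2 : ∀ x y, y ∈ N x → -y ∈ N (-x)) :
    IsLG (fun x => (N x).image fun y => -y) X r (-s) ∧
      ∀ x, -x ∉ (N x).image fun y => -y := by
  have hm : ∀ x y : ℤ, (y ∈ (N x).image fun y => -y) ↔ -y ∈ N x := by
    intro x y
    rw [mem_image]
    constructor
    · rintro ⟨z, hz, rfl⟩
      rwa [neg_neg]
    · intro hy
      exact ⟨-y, hy, neg_neg y⟩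
  refine ⟨⟨⟨?_, ?_⟩, ?_, ?_, ?_⟩, ?_⟩
  · intro x y hy
    rw [hm] at hy ⊢
    have h3 := h2 _ _ hy
    rw [neg_neg] at h3
    exact h.gr.symm _ _ h3
  · intro x hx
    rw [hm] at hx
    exact h1 x hx
  · intro x hx
    simp only [h.supp x hx, image_empty]
  · intro x hx
    rw [card_image_of_injective _ neg_injective]
    exact h.card x hx
  · intro x hx
    rw [sum_image (fun a _ b _ hab => neg_injective hab), sum_neg_distrib, h.sum x hx]
    ring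
  · intro x hx
    rw [hm, neg_neg] at hx
    exact h.gr.irr x hx

/-- HC-3b -/
theorem fill {t s : ℤ} (hs0 : 0 ≤ s) (hst : s + 2 ≤ t) {r : ℕ} {σ ε : ℤ}
    (hε : ε = 1 ∨ ε = -1)
    (hblk : ∀ u n : ℤ, 1 ≤ u → Even n → t ≤ n + 1 → LGS (SI u (u + n - 1)) r σ)
    {N : ℤ → Finset ℤ} (hcore : IsLG N (I (t - 1)) (r + 2) (σ + ε)) {B : ℕ} (hB : Loops N B) :
    ∃ N', IsLG N' (I (13 * t + 12 * s - 1)) (r + 2) (σ + ε) ∧ Loops N' B := by
  obtain ⟨T, c₂, c₃, c₄, hT1, hT2, hT3, hT4, hT5, e1, e2, e3, e4, l1, l2, l3, l4⟩ := lang s t hs0 hst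
  have hb : ∀ u v : ℤ, 1 ≤ u → Even (v - u) → t ≤ v - u + 1 → LGS (SI u (v - 1)) r σ := by
    intro u v h1 h2 h3
    have h4 := hblk u (v - u) h1 h2 h3
    rwa [show u + (v - u) - 1 = v - 1 by ring] at h4
  obtain ⟨N0, a0, b0, -⟩ := hb t (5 * t + 4 * s) (by omega)
    ⟨2 * t + 2 * s, by ring⟩ (by omega)
  obtain ⟨N1, a1, b1, -⟩ := hb (5 * t + 4 * s) c₂ (by omega) e1 (by omega)
  obtain ⟨N2, a2, b2, -⟩ := hb c₂ c₃ (by omega) e2 (by omega)
  obtain ⟨N3, a3, b3, -⟩ := hb c₃ c₄ (by omega) e3 (by omega)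
  obtain ⟨N4, a4, b4, -⟩ := hb c₄ (13 * t + 12 * s) (by omega) e4 (by omega)
  have U1 := a0.union a1 (disjoint_left.2 fun x h1 h2 => by
    simp only [mem_SI] at h1 h2; omega)
  have U2 := U1.union a2 (disjoint_left.2 fun x h1 h2 => by
    simp only [mem_SI, mem_union] at h1 h2; omega)
  have U3 := U2.union a3 (disjoint_left.2 fun x h1 h2 => by
    simp only [mem_SI, mem_union] at h1 h2; omega)
  have U4 := U3.union a4 (disjoint_left.2 fun x h1 h2 => by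
    simp only [mem_SI, mem_union] at h1 h2; omega)
  have hX : SI t (5 * t + 4 * s - 1) ∪ SI (5 * t + 4 * s) (c₂ - 1) ∪ SI c₂ (c₃ - 1) ∪ SI c₃ (c₄ - 1)
      ∪ SI c₄ (13 * t + 12 * s - 1) = SI t (13 * t + 12 * s - 1) := by
    ext x
    simp only [mem_SI, mem_union]
    omega
  rw [hX] at U4
  -- the triples
  obtain ⟨g1, g2, g3⟩ := tr_isLG (T := T) (X := SI t (13 * t + 12 * s - 1)) hT1 hT2
    (by
      intro v hv
      have hv' : t ≤ |v| ∧ |v| < 13 * t + 12 * s := by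
        simp only [mem_SI] at hv
        rcases abs_cases v with ⟨h, _⟩ | ⟨h, _⟩ <;> rw [h] <;> omega
      exact (hT3 |v|).1 hv')
    (by
      intro p hp
      have h1 := (hT3 p.1).2 ⟨p, hp, Or.inl rfl⟩
      have h2 := (hT3 p.2).2 ⟨p, hp, Or.inr (Or.inl rfl)⟩
      have h3 := (hT3 (p.1 + p.2)).2 ⟨p, hp, Or.inr (Or.inr rfl)⟩
      simp only [mem_SI]
      omega)
  have hNt : ∃ Nt, IsLG Nt (SI t (13 * t + 12 * s - 1)) 2 ε ∧ (∀ x, -x ∉ Nt x) ∧
      ∀ x y, y ∈ Nt x → y ∈ trN T x ∨ -y ∈ trN T x := by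
    rcases hε with rfl | rfl
    · exact ⟨trN T, g1, g2, fun x y h => Or.inl h⟩
    · obtain ⟨k1, k2⟩ := neg_aux g1 g2 g3
      refine ⟨_, k1, k2, fun x y h => Or.inr ?_⟩
      rw [mem_image] at h
      obtain ⟨z, hz, rfl⟩ := h
      rwa [neg_neg]
  obtain ⟨Nt, t1, t2, t3⟩ := hNt
  have hdis : ∀ x, Disjoint (N0 x ∪ N1 x ∪ N2 x ∪ N3 x ∪ N4 x) (Nt x) := by
    intro x
    rw [disjoint_left]
    intro y h1 h2
    have hq : ∃ p ∈ T, ∃ a b : ℤ, (x = a ∨ x = -a) ∧ (y = b ∨ y = -b) ∧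
      ((a = p.1 ∧ b = p.2) ∨ (a = p.1 ∧ b = p.1 + p.2) ∨ (a = p.2 ∧ b = p.1) ∨
        (a = p.2 ∧ b = p.1 + p.2) ∨ (a = p.1 + p.2 ∧ b = p.1) ∨ (a = p.1 + p.2 ∧ b = p.2)) := by
      rcases t3 x y h2 with h | h
      · exact trN_mem h
      · obtain ⟨p, hp, a, b, ha, hb, h⟩ := trN_mem h
        refine ⟨p, hp, a, b, ha, ?_, h⟩
        rcases hb with hb | hb
        · right; rw [← hb, neg_neg]
        · left; exact neg_injective hb
    have hbl : (x ∈ SI t (5 * t + 4 * s - 1) ∧ y ∈ SI t (5 * t + 4 * s - 1)) ∨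
        (x ∈ SI (5 * t + 4 * s) (c₂ - 1) ∧ y ∈ SI (5 * t + 4 * s) (c₂ - 1)) ∨
        (x ∈ SI c₂ (c₃ - 1) ∧ y ∈ SI c₂ (c₃ - 1)) ∨ (x ∈ SI c₃ (c₄ - 1) ∧ y ∈ SI c₃ (c₄ - 1)) ∨
        (x ∈ SI c₄ (13 * t + 12 * s - 1) ∧ y ∈ SI c₄ (13 * t + 12 * s - 1)) := by
      simp only [mem_union] at h1
      rcases h1 with (((h | h) | h) | h) | h
      · exact Or.inl (a0.sub h)
      · exact Or.inr (Or.inl (a1.sub h))
      · exact Or.inr (Or.inr (Or.inl (a2.sub h)))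
      · exact Or.inr (Or.inr (Or.inr (Or.inl (a3.sub h))))
      · exact Or.inr (Or.inr (Or.inr (Or.inr (a4.sub h))))
    obtain ⟨p, hp, a, b, hxa, hyb, hq⟩ := hq
    obtain ⟨k1, k2⟩ := hT1 p hp
    obtain ⟨k3, k4⟩ := hT4 p hp
    have k5 := hT5 p hp
    have ha : 0 < a := by clear hbl k5 hxa hyb k3 k4; omega
    have hb' : 0 < b := by clear hbl k5 hxa hyb k3 k4; omega
    rcases hbl with ⟨hx, hy⟩ | ⟨hx, hy⟩ | ⟨hx, hy⟩ | ⟨hx, hy⟩ | ⟨hx, hy⟩
    all_goals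
      have w1 := SI_pm (by omega) ha hxa hx
      have w2 := SI_pm (by omega) hb' hyb hy
      clear hxa hyb hx hy h1 h2 U1 U2 U3 U4 hX e1 e2 e3 e4
      rcases hq with hq | hq | hq | hq | hq | hq <;> omega
  have V := U4.overlay t1 hdis
  have W := hcore.union V (disjoint_left.2 fun x h1 h2 => by
    simp only [mem_SI, mem_I] at h1 h2; omega)
  have hY : I (t - 1) ∪ SI t (13 * t + 12 * s - 1) = I (13 * t + 12 * s - 1) := by
    ext x
    simp only [mem_SI, mem_I, mem_union]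
    omega
  rw [hY] at W
  refine ⟨_, W, ?_⟩
  have hL := hB.union (loops_zero (N := fun x => (N0 x ∪ N1 x ∪ N2 x ∪ N3 x ∪ N4 x) ∪ Nt x)
    (fun x hx => by
      simp only [mem_union] at hx
      rcases hx with ((((h | h) | h) | h) | h) | h
      · exact b0 x h
      · exact b1 x h
      · exact b2 x h
      · exact b3 x h
      · exact b4 x h
      · exact t2 x h))
  exact hL

end Pool.Agent.Helper74.Hc
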