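import Pool.Agent.Helper74.Hc.Union

/-! HC-8. Gadgets: slope `0` label graphs on `{0} ∪ ±V` with labels `x α + y β`, `(x, y)` in a fixed list
of pairwise independent vectors. Suggestion for a uniform proof: work on the vector level. A table is a
list of entries `(v, P, N, z)`; a Boolean check on the table (decidable, kernel) that the vectors are
distinct, that the relation is symmetric, that each row has `|P| + |N| + z = D` and
`∑ P - ∑ N = 0` (in `ℤ × ℤ`), and that exactly `D / 2` rows have `z = 1`; the evaluation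
`(x, y) ↦ x α + y β` is injective and positive on `V16` for `6 β < α`, `1 ≤ β`. The neighbours of the label
`ε v` are `ε p` (`p ∈ P`), `-ε p` (`p ∈ N`) and `0` if `z = 1`; those of `0` are `±v` for `z = 1`. -/

namespace Pool.Agent.Helper74.Hc

open Finset

/-- 16 pairwise independent vectors -/
def V16 : List (ℤ × ℤ) :=
  [(0, 1), (1, -3), (1, -2), (1, -1), (1, 0), (1, 1), (1, 2), (1, 3), (2, -3), (2, -1), (2, 1), (2, 3),
    (3, -2), (3, -1), (3, 1), (3, 2)]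

/-- the positive labels -/
def VP (α β : ℤ) : Finset ℤ := (V16.map fun v => v.1 * α + v.2 * β).toFinset

/-- `0` and the labels `±` -/
def GS (α β : ℤ) : Finset ℤ := {0} ∪ VP α β ∪ (VP α β).image (fun x => -x)

/-- evaluation of a vector -/
private def ev (α β : ℤ) (v : ℤ × ℤ) : ℤ := v.1 * α + v.2 * β

private theorem ev_add (α β : ℤ) (v w : ℤ × ℤ) : ev α β (v + w) = ev α β v + ev α β w := by
  simp only [ev, Prod.fst_add, Prod.snd_add]; ring

private theorem ev_zero (α β : ℤ) : ev α β 0 = 0 := by simp [ev]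

private theorem ev_neg (α β : ℤ) (v : ℤ × ℤ) : ev α β (-v) = -ev α β v := by
  simp only [ev, Prod.fst_neg, Prod.snd_neg]; ring

private theorem ev_sum (α β : ℤ) (L : List (ℤ × ℤ)) : (L.map (ev α β)).sum = ev α β L.sum := by
  induction L with
  | nil => simp [ev_zero]
  | cons a L ih => simp [ih, ev_add]

private theorem ev_inj {α β : ℤ} (hβ : 1 ≤ β) (hα : 6 * β < α) {v w : ℤ × ℤ}
    (hv : -3 ≤ v.2 ∧ v.2 ≤ 3) (hw : -3 ≤ w.2 ∧ w.2 ≤ 3) (h : ev α β v = ev α β w) : v = w := by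
  obtain ⟨x, y⟩ := v
  obtain ⟨x', y'⟩ := w
  simp only [ev] at h hv hw
  have h1 : (x - x') * α = (y' - y) * β := by linarith
  have h2 : (y' - y) * β ≤ 6 * β := mul_le_mul_of_nonneg_right (by omega) (by omega)
  have h3 : -(6 * β) ≤ (y' - y) * β := by
    have := mul_le_mul_of_nonneg_right (show (-6 : ℤ) ≤ y' - y by omega) (show 0 ≤ β by omega)
    linarith
  have hx : x = x' := by
    rcases lt_trichotomy (x - x') 0 with h0 | h0 | h0
    · have : (x - x') * α ≤ (-1) * α := mul_le_mul_of_nonneg_right (by omega) (by omega)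
      omega
    · omega
    · have : 1 * α ≤ (x - x') * α := mul_le_mul_of_nonneg_right (by omega) (by omega)
      omega
  subst hx
  have : (y' - y) * β = 0 := by rw [← h1]; ring
  rcases mul_eq_zero.1 this with h0 | h0
  · have : y = y' := by omega
    rw [this]
  · omega

/-- a row: vector, equal signs, opposite signs, edge at `0` -/
private abbrev Row := (ℤ × ℤ) × List (ℤ × ℤ) × List (ℤ × ℤ) × Bool

/-- the neighbours of the vector -/
private def rowN (p : Row) : List (ℤ × ℤ) :=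
  p.2.1 ++ p.2.2.1.map (fun v => -v) ++ (if p.2.2.2 then [0] else [])

/-- all vertices with their neighbours -/
private def full (T : List Row) : List ((ℤ × ℤ) × List (ℤ × ℤ)) :=
  (0, (T.filter fun p => p.2.2.2).flatMap fun p => [p.1, -p.1]) ::
    (T.map (fun p => (p.1, rowN p)) ++ T.map fun p => (-p.1, (rowN p).map fun v => -v))

/-- the check -/
private def gchk (F : List ((ℤ × ℤ) × List (ℤ × ℤ))) (D : ℕ) : Bool :=
  decide ((F.map Prod.fst).Nodup) && F.all fun p =>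
    decide (-3 ≤ p.1.2) && decide (p.1.2 ≤ 3) && decide (p.2.Nodup) && decide (p.2.length = D) &&
      decide (p.2.sum = 0) && p.2.all fun w => decide (w ≠ p.1) &&
        F.any fun q => decide (q.1 = w) && decide (p.1 ∈ q.2)

/-- the neighbourhoods -/
private def gN (α β : ℤ) (F : List ((ℤ × ℤ) × List (ℤ × ℤ))) (x : ℤ) : Finset ℤ :=
  ((F.filter fun p => decide (ev α β p.1 = x)).flatMap fun p => p.2.map (ev α β)).toFinset

private theorem mem_gN {α β : ℤ} {F : List ((ℤ × ℤ) × List (ℤ × ℤ))} {x y : ℤ} :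
    y ∈ gN α β F x ↔ ∃ p ∈ F, ev α β p.1 = x ∧ ∃ w ∈ p.2, ev α β w = y := by
  simp only [gN, List.mem_toFinset, List.mem_flatMap, List.mem_filter, decide_eq_true_eq,
    List.mem_map]
  constructor
  · rintro ⟨p, ⟨h1, h2⟩, w, h3, h4⟩
    exact ⟨p, h1, h2, w, h3, h4⟩
  · rintro ⟨p, h1, h2, w, h3, h4⟩
    exact ⟨p, ⟨h1, h2⟩, w, h3, h4⟩

private theorem gmain {α β : ℤ} (hβ : 1 ≤ β) (hα : 6 * β < α)
    {F : List ((ℤ × ℤ) × List (ℤ × ℤ))} {D : ℕ} (h : gchk F D = true) :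
    IsLG (gN α β F) (F.map fun p => ev α β p.1).toFinset D 0 := by
  simp only [gchk, Bool.and_eq_true, decide_eq_true_eq, List.all_eq_true, List.any_eq_true] at h
  obtain ⟨hnd, hrow⟩ := h
  -- two rows with the same value are equal
  have huniq : ∀ p ∈ F, ∀ q ∈ F, ev α β p.1 = ev α β q.1 → p = q := by
    intro p hp q hq e
    have h1 := hrow p hp
    have h2 := hrow q hq
    have e1 := ev_inj hβ hα ⟨h1.1.1.1.1.1, h1.1.1.1.1.2⟩ ⟨h2.1.1.1.1.1, h2.1.1.1.1.2⟩ e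
    exact List.inj_on_of_nodup_map hnd hp hq e1
  have hval : ∀ p ∈ F, gN α β F (ev α β p.1) = (p.2.map (ev α β)).toFinset := by
    intro p hp
    ext y
    rw [mem_gN, List.mem_toFinset, List.mem_map]
    constructor
    · rintro ⟨q, hq, e, w, hw, rfl⟩
      have := huniq q hq p hp e
      subst this
      exact ⟨w, hw, rfl⟩
    · rintro ⟨w, hw, rfl⟩
      exact ⟨p, hp, rfl, w, hw, rfl⟩
  have hnd2 : ∀ p ∈ F, (p.2.map (ev α β)).Nodup := by
    intro p hp
    have h1 := hrow p hp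
    refine List.Nodup.map_on ?_ h1.1.1.1.2
    intro w hw w' hw' e
    obtain ⟨q, hq, e1, _⟩ := (h1.2 w hw).2
    obtain ⟨q', hq', e1', _⟩ := (h1.2 w' hw').2
    have h2 := hrow q hq
    have h3 := hrow q' hq'
    rw [← e1, ← e1'] at e ⊢
    exact ev_inj hβ hα ⟨h2.1.1.1.1.1, h2.1.1.1.1.2⟩ ⟨h3.1.1.1.1.1, h3.1.1.1.1.2⟩ e
  refine ⟨⟨?_, ?_⟩, ?_, ?_, ?_⟩
  · intro x y hy
    rw [mem_gN] at hy ⊢
    obtain ⟨p, hp, rfl, w, hw, rfl⟩ := hy
    obtain ⟨q, hq, e1, e2⟩ := ((hrow p hp).2 w hw).2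
    exact ⟨q, hq, by rw [e1], p.1, e2, rfl⟩
  · intro x hx
    rw [mem_gN] at hx
    obtain ⟨p, hp, rfl, w, hw, e⟩ := hx
    obtain ⟨hne, q, hq, e1, _⟩ := (hrow p hp).2 w hw
    rw [← e1] at e
    have := huniq q hq p hp e
    rw [this] at e1
    exact hne e1.symm
  · intro x hx
    rw [Finset.eq_empty_iff_forall_notMem]
    intro y hy
    rw [mem_gN] at hy
    obtain ⟨p, hp, rfl, _⟩ := hy
    exact hx (by
      rw [List.mem_toFinset, List.mem_map]
      exact ⟨p, hp, rfl⟩)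
  · intro x hx
    rw [List.mem_toFinset, List.mem_map] at hx
    obtain ⟨p, hp, rfl⟩ := hx
    rw [hval p hp, List.toFinset_card_of_nodup (hnd2 p hp), List.length_map]
    exact (hrow p hp).1.1.2
  · intro x hx
    rw [List.mem_toFinset, List.mem_map] at hx
    obtain ⟨p, hp, rfl⟩ := hx
    rw [hval p hp, List.sum_toFinset _ (hnd2 p hp), List.map_id', ev_sum, (hrow p hp).1.2, ev_zero,
      zero_mul]

private theorem gadget {α β : ℤ} (hβ : 1 ≤ β) (hα : 6 * β < α) {T : List Row} {D : ℕ}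
    (h : gchk (full T) D = true) (hT : ∀ p ∈ T, p.1 ∈ V16) (hnd : (T.map Prod.fst).Nodup) :
    ∃ (V : Finset ℤ) (N : ℤ → Finset ℤ), V ⊆ VP α β ∧ V.card = T.length ∧
      IsLG N ({0} ∪ V ∪ V.image (fun x => -x)) D 0 := by
  have hV16 : ∀ v ∈ V16, -3 ≤ v.2 ∧ v.2 ≤ 3 := by decide
  refine ⟨(T.map fun p => ev α β p.1).toFinset, gN α β (full T), ?_, ?_, ?_⟩
  · intro x hx
    rw [List.mem_toFinset, List.mem_map] at hx
    obtain ⟨p, hp, rfl⟩ := hx
    rw [VP, List.mem_toFinset, List.mem_map]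
    exact ⟨p.1, hT p hp, rfl⟩
  · rw [List.toFinset_card_of_nodup, List.length_map]
    have : (T.map fun p => ev α β p.1) = (T.map Prod.fst).map (ev α β) := by
      rw [List.map_map]; rfl
    rw [this]
    refine List.Nodup.map_on ?_ hnd
    intro v hv w hw e
    rw [List.mem_map] at hv hw
    obtain ⟨p, hp, rfl⟩ := hv
    obtain ⟨q, hq, rfl⟩ := hw
    exact ev_inj hβ hα (hV16 _ (hT p hp)) (hV16 _ (hT q hq)) e
  · have h1 := gmain (α := α) (β := β) hβ hα h
    have h2 : ((full T).map fun p => ev α β p.1).toFinset =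
        {0} ∪ (T.map fun p => ev α β p.1).toFinset ∪
          ((T.map fun p => ev α β p.1).toFinset).image (fun x => -x) := by
      ext x
      simp only [full, List.map_cons, List.map_append, List.map_map, List.toFinset_cons,
        List.toFinset_append, Finset.mem_insert, Finset.mem_union, List.mem_toFinset, List.mem_map,
        Finset.mem_image, Finset.mem_singleton, Function.comp, ev_zero, ev_neg]
      constructor
      · rintro (h | h | ⟨p, hp, rfl⟩)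
        · exact Or.inl (Or.inl h)
        · exact Or.inl (Or.inr h)
        · exact Or.inr ⟨_, ⟨p, hp, rfl⟩, rfl⟩
      · rintro ((h | h) | ⟨_, ⟨p, hp, rfl⟩, rfl⟩)
        · exact Or.inl h
        · exact Or.inr (Or.inl h)
        · exact Or.inr (Or.inr ⟨p, hp, rfl⟩)
    rw [h2] at h1
    exact h1

private def T4 : List Row :=
  [((0, 1), [(1, -1), (3, -1)], [(2, -3), (2, 1)], false),
    ((1, -2), [(1, 2), (3, -1)], [(1, 3), (3, -2)], false),
    ((1, -1), [(0, 1), (3, -2)], [(1, 2), (2, -3)], false),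
    ((1, 1), [(3, -2)], [(1, 1), (2, -3)], true),
    ((1, 2), [(1, -2), (3, -1)], [(1, -1), (3, -2)], false),
    ((1, 3), [(2, 1)], [(1, -2), (1, 3)], true),
    ((2, -3), [(2, 1)], [(0, 1), (1, -1), (1, 1)], false),
    ((2, 1), [(1, 3), (2, -3)], [(0, 1), (3, -1)], false),
    ((3, -2), [(1, -1), (1, 1)], [(1, -2), (1, 2)], false),
    ((3, -1), [(0, 1), (1, -2), (1, 2)], [(2, 1)], false)]

private def T6e : List Row :=
  [((0, 1), [(1, 0), (2, 1), (2, 3)], [(1, 0), (2, 1), (2, 3)], false),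
    ((1, -3), [(1, 2), (2, 3), (3, -2)], [(1, 2), (2, 3), (3, -2)], false),
    ((1, -1), [(2, 1), (3, 1)], [(1, -1), (1, 2), (3, 1)], true),
    ((1, 0), [(0, 1), (3, -2), (3, 2)], [(0, 1), (3, -2), (3, 2)], false),
    ((1, 2), [(1, -3), (2, 1)], [(1, -3), (1, -1), (1, 2)], true),
    ((2, 1), [(0, 1), (1, -1), (1, 2)], [(0, 1), (2, 1)], true),
    ((2, 3), [(0, 1), (1, -3), (3, 1)], [(0, 1), (1, -3), (3, 1)], false),
    ((3, -2), [(1, -3), (1, 0), (3, 2)], [(1, -3), (1, 0), (3, 2)], false),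
    ((3, 1), [(1, -1), (2, 3), (3, 2)], [(1, -1), (2, 3), (3, 2)], false),
    ((3, 2), [(1, 0), (3, -2), (3, 1)], [(1, 0), (3, -2), (3, 1)], false)]

private def T6o : List Row :=
  [((0, 1), [(3, -1), (3, 1)], [(1, -3), (2, 1), (3, 2)], true),
    ((1, -3), [(3, -1), (3, 2)], [(0, 1), (1, -2), (2, 1), (3, 1)], false),
    ((1, -2), [(1, -1), (3, -2), (3, 1)], [(1, -3), (3, -1), (3, 2)], false),
    ((1, -1), [(1, -2), (3, -1), (3, 2)], [(1, -1), (3, -1), (3, 1)], false),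
    ((2, 1), [(3, -2), (3, 2)], [(0, 1), (1, -3), (2, 1), (3, 1)], false),
    ((3, -2), [(1, -2), (2, 1), (3, 1)], [(3, -2), (3, 2)], true),
    ((3, -1), [(0, 1), (1, -3), (1, -1)], [(1, -2), (1, -1)], true),
    ((3, 1), [(0, 1), (1, -2), (3, -2)], [(1, -3), (1, -1), (2, 1)], false),
    ((3, 2), [(1, -3), (1, -1), (2, 1)], [(0, 1), (1, -2), (3, -2)], false)]

/-- HC-8a -/
theorem VP_pos {α β x : ℤ} (hβ : 1 ≤ β) (hα : 6 * β < α) (hx : x ∈ VP α β) :
    1 ≤ x ∧ x ≤ 3 * α + 3 * β := by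
  rw [VP, List.mem_toFinset] at hx
  simp only [V16, List.map_cons, List.map_nil, List.mem_cons, List.not_mem_nil, or_false] at hx
  omega

/-- HC-8b. degree 4, two edges at 0, ten labels:
`(vector, P, N, z)`; neighbours of `v`: the `P` vectors, minus the `N` vectors, and `0` if `z = 1`
`(0,1): P [(1,-1),(3,-1)], N [(2,-3),(2,1)], 0`
`(1,-2): [(1,2),(3,-1)], [(1,3),(3,-2)], 0`
`(1,-1): [(0,1),(3,-2)], [(1,2),(2,-3)], 0`
`(1,1): [(3,-2)], [(1,1),(2,-3)], 1`
`(1,2): [(1,-2),(3,-1)], [(1,-1),(3,-2)], 0`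
`(1,3): [(2,1)], [(1,-2),(1,3)], 1`
`(2,-3): [(2,1)], [(0,1),(1,-1),(1,1)], 0`
`(2,1): [(1,3),(2,-3)], [(0,1),(3,-1)], 0`
`(3,-2): [(1,-1),(1,1)], [(1,-2),(1,2)], 0`
`(3,-1): [(0,1),(1,-2),(1,2)], [(2,1)], 0` -/
theorem gad4 {α β : ℤ} (hβ : 1 ≤ β) (hα : 6 * β < α) :
    ∃ (V : Finset ℤ) (N : ℤ → Finset ℤ), V ⊆ VP α β ∧ V.card = 10 ∧
      IsLG N ({0} ∪ V ∪ V.image (fun x => -x)) 4 0 := by
  have h := gadget (T := T4) (D := 4) hβ hα (by decide) (by decide) (by decide)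
  exact h

/-- HC-8c. degree 6, three edges at 0, ten labels:
`(0, 1): P [(1, 0), (2, 1), (2, 3)], N [(1, 0), (2, 1), (2, 3)], 0`
`(1, -3): P [(1, 2), (2, 3), (3, -2)], N [(1, 2), (2, 3), (3, -2)], 0`
`(1, -1): P [(2, 1), (3, 1)], N [(1, -1), (1, 2), (3, 1)], 1`
`(1, 0): P [(0, 1), (3, -2), (3, 2)], N [(0, 1), (3, -2), (3, 2)], 0`
`(1, 2): P [(1, -3), (2, 1)], N [(1, -3), (1, -1), (1, 2)], 1`
`(2, 1): P [(0, 1), (1, -1), (1, 2)], N [(0, 1), (2, 1)], 1`
`(2, 3): P [(0, 1), (1, -3), (3, 1)], N [(0, 1), (1, -3), (3, 1)], 0`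
`(3, -2): P [(1, -3), (1, 0), (3, 2)], N [(1, -3), (1, 0), (3, 2)], 0`
`(3, 1): P [(1, -1), (2, 3), (3, 2)], N [(1, -1), (2, 3), (3, 2)], 0`
`(3, 2): P [(1, 0), (3, -2), (3, 1)], N [(1, 0), (3, -2), (3, 1)], 0` -/
theorem gad6e {α β : ℤ} (hβ : 1 ≤ β) (hα : 6 * β < α) :
    ∃ (V : Finset ℤ) (N : ℤ → Finset ℤ), V ⊆ VP α β ∧ V.card = 10 ∧
      IsLG N ({0} ∪ V ∪ V.image (fun x => -x)) 6 0 := by
  have h := gadget (T := T6e) (D := 6) hβ hα (by decide) (by decide) (by decide)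
  exact h

/-- HC-8d. degree 6, three edges at 0, nine labels:
`(0, 1): P [(3, -1), (3, 1)], N [(1, -3), (2, 1), (3, 2)], 1`
`(1, -3): P [(3, -1), (3, 2)], N [(0, 1), (1, -2), (2, 1), (3, 1)], 0`
`(1, -2): P [(1, -1), (3, -2), (3, 1)], N [(1, -3), (3, -1), (3, 2)], 0`
`(1, -1): P [(1, -2), (3, -1), (3, 2)], N [(1, -1), (3, -1), (3, 1)], 0`
`(2, 1): P [(3, -2), (3, 2)], N [(0, 1), (1, -3), (2, 1), (3, 1)], 0`
`(3, -2): P [(1, -2), (2, 1), (3, 1)], N [(3, -2), (3, 2)], 1`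
`(3, -1): P [(0, 1), (1, -3), (1, -1)], N [(1, -2), (1, -1)], 1`
`(3, 1): P [(0, 1), (1, -2), (3, -2)], N [(1, -3), (1, -1), (2, 1)], 0`
`(3, 2): P [(1, -3), (1, -1), (2, 1)], N [(0, 1), (1, -2), (3, -2)], 0` -/
theorem gad6o {α β : ℤ} (hβ : 1 ≤ β) (hα : 6 * β < α) :
    ∃ (V : Finset ℤ) (N : ℤ → Finset ℤ), V ⊆ VP α β ∧ V.card = 9 ∧
      IsLG N ({0} ∪ V ∪ V.image (fun x => -x)) 6 0 := by
  have h := gadget (T := T6o) (D := 6) hβ hα (by decide) (by decide) (by decide)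
  exact h

end Pool.Agent.Helper74.Hc
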