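import Pool.Agent.Helper74.Hc.Gadget

/-! HC-9. A place for a gadget: `{0} ∪ ±VP` spans no edge of the given graph. -/

namespace Pool.Agent.Helper74.Hc

open Finset

/-- the 33 signed vectors -/
private def placeW : List (ℤ × ℤ) := (0, 0) :: (V16 ++ V16.map fun v => (-v.1, -v.2))

private def placeEv (u p : ℤ × ℤ) : ℤ := u.1 * p.1 + u.2 * p.2

private theorem place_mem {α β x : ℤ} (hx : x ∈ GS α β) :
    ∃ u ∈ placeW.toFinset, x = placeEv u (α, β) := by
  unfold GS at hx
  rw [mem_union, mem_union, mem_singleton, mem_image] at hx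
  have key : ∀ y ∈ VP α β, ∃ v ∈ V16, v.1 * α + v.2 * β = y := by
    intro y hy
    unfold VP at hy
    rw [List.mem_toFinset, List.mem_map] at hy
    exact hy
  rcases hx with (h | h) | ⟨y, hy, h⟩
  · refine ⟨(0, 0), ?_, ?_⟩
    · rw [List.mem_toFinset]
      exact List.mem_cons_self
    · unfold placeEv
      simp [h]
  · obtain ⟨v, hv, e⟩ := key x h
    refine ⟨v, ?_, ?_⟩
    · rw [List.mem_toFinset]
      exact List.mem_cons_of_mem _ (List.mem_append_left _ hv)
    · unfold placeEv
      exact e.symm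
  · obtain ⟨v, hv, e⟩ := key y hy
    refine ⟨(-v.1, -v.2), ?_, ?_⟩
    · rw [List.mem_toFinset]
      refine List.mem_cons_of_mem _ (List.mem_append_right _ ?_)
      rw [List.mem_map]
      exact ⟨v, hv, rfl⟩
    · unfold placeEv
      simp only
      rw [← h, ← e]
      ring

private theorem place_cases : ∀ u ∈ placeW, ∀ w ∈ placeW,
    u = w ∨ (w = (-u.1, -u.2) ∧ u ≠ 0) ∨ (u = 0 ∧ w ≠ 0) ∨ (w = 0 ∧ u ≠ 0) ∨
      u.1 * w.2 - u.2 * w.1 ≠ 0 := by
  decide +kernel

private theorem place_bound : ∀ u ∈ placeW, (-3 ≤ u.1 ∧ u.1 ≤ 3) ∧ (-3 ≤ u.2 ∧ u.2 ≤ 3) := by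
  decide +kernel

private noncomputable def placeD (n : ℕ) : Finset (ℤ × ℤ) :=
  Icc (6 * (n : ℤ) + 1) (7 * n) ×ˢ Icc (1 : ℤ) n

private theorem placeD_card (n : ℕ) : (placeD n).card = n * n := by
  unfold placeD
  rw [card_product, Int.card_Icc, Int.card_Icc]
  congr 1 <;> omega

private theorem place_fiber (n : ℕ) (u : ℤ × ℤ) (hu : u ≠ 0) (x : ℤ) :
    ((placeD n).filter fun p => placeEv u p = x).card ≤ n := by
  by_cases h1 : u.1 = 0
  · have h2 : u.2 ≠ 0 := by
      intro h
      exact hu (Prod.ext h1 h)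
    have : ((placeD n).filter fun p => placeEv u p = x).card ≤
        (Icc (6 * (n : ℤ) + 1) (7 * n)).card := by
      refine card_le_card_of_injOn (fun p => p.1) ?_ ?_
      · intro p hp
        rw [mem_coe, mem_filter] at hp
        have := hp.1
        unfold placeD at this
        exact mem_coe.2 (mem_product.1 this).1
      · intro p hp q hq hpq
        rw [mem_coe, mem_filter] at hp hq
        have e : u.2 * p.2 = u.2 * q.2 := by
          have e1 := hp.2
          have e2 := hq.2
          unfold placeEv at e1 e2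
          rw [h1] at e1 e2
          linarith
        exact Prod.ext hpq (mul_left_cancel₀ h2 e)
    rw [Int.card_Icc] at this
    omega
  · have : ((placeD n).filter fun p => placeEv u p = x).card ≤ (Icc (1 : ℤ) n).card := by
      refine card_le_card_of_injOn (fun p => p.2) ?_ ?_
      · intro p hp
        rw [mem_coe, mem_filter] at hp
        have := hp.1
        unfold placeD at this
        exact mem_coe.2 (mem_product.1 this).2
      · intro p hp q hq hpq
        rw [mem_coe, mem_filter] at hp hq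
        have hpq' : p.2 = q.2 := hpq
        have e : u.1 * p.1 = u.1 * q.1 := by
          have e1 := hp.2
          have e2 := hq.2
          unfold placeEv at e1 e2
          rw [hpq'] at e1
          linarith
        exact Prod.ext (mul_left_cancel₀ h1 e) hpq
    rw [Int.card_Icc] at this
    omega

private theorem place_fibers (n : ℕ) (u : ℤ × ℤ) (hu : u ≠ 0) (S : Finset ℤ) :
    ((placeD n).filter fun p => placeEv u p ∈ S).card ≤ S.card * n := by
  have h : ((placeD n).filter fun p => placeEv u p ∈ S) ⊆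
      S.biUnion fun x => (placeD n).filter fun p => placeEv u p = x := by
    intro p hp
    rw [mem_filter] at hp
    rw [mem_biUnion]
    exact ⟨_, hp.2, mem_filter.2 ⟨hp.1, rfl⟩⟩
  exact (card_le_card h).trans (card_biUnion_le_card_mul _ _ _ fun x _ => place_fiber n u hu x)

private theorem place_range (n : ℕ) {u p : ℤ × ℤ} (hu : u ∈ placeW) (hp : p ∈ placeD n) :
    placeEv u p ∈ Icc (-(24 * (n : ℤ))) (24 * n) := by
  obtain ⟨⟨a1, a2⟩, b1, b2⟩ := place_bound u hu
  unfold placeD at hp
  rw [mem_product, mem_Icc, mem_Icc] at hp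
  obtain ⟨⟨c1, c2⟩, d1, d2⟩ := hp
  have hp1 : 0 ≤ p.1 := by omega
  have hp2 : 0 ≤ p.2 := by omega
  have e1 := mul_le_mul_of_nonneg_right a1 hp1
  have e2 := mul_le_mul_of_nonneg_right a2 hp1
  have e3 := mul_le_mul_of_nonneg_right b1 hp2
  have e4 := mul_le_mul_of_nonneg_right b2 hp2
  rw [mem_Icc]
  unfold placeEv
  constructor <;> linarith

private theorem place_indep (n r : ℕ) (N : ℤ → Finset ℤ) (hr : ∀ x, (N x).card ≤ r)
    {u w : ℤ × ℤ} (hu : u ∈ placeW) (hd : u.1 * w.2 - u.2 * w.1 ≠ 0) :
    ((placeD n).filter fun p => placeEv w p ∈ N (placeEv u p)).card ≤ (48 * n + 1) * r := by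
  have h : ((placeD n).filter fun p => placeEv w p ∈ N (placeEv u p)).card ≤
      ((Icc (-(24 * (n : ℤ))) (24 * n)).sigma fun x => N x).card := by
    refine card_le_card_of_injOn (fun p => (⟨placeEv u p, placeEv w p⟩ : Σ _ : ℤ, ℤ)) ?_ ?_
    · intro p hp
      rw [mem_coe, mem_filter] at hp
      rw [mem_coe, mem_sigma]
      exact ⟨place_range n hu hp.1, hp.2⟩
    · intro p _ q _ hpq
      have h1 : placeEv u p = placeEv u q := congrArg Sigma.fst hpq
      have h2 : placeEv w p = placeEv w q := by
        have := congrArg (fun s : (Σ _ : ℤ, ℤ) => s.2) hpq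
        exact this
      unfold placeEv at h1 h2
      have e1 : (u.1 * w.2 - u.2 * w.1) * p.1 = (u.1 * w.2 - u.2 * w.1) * q.1 := by
        linear_combination w.2 * h1 - u.2 * h2
      have e2 : (u.1 * w.2 - u.2 * w.1) * p.2 = (u.1 * w.2 - u.2 * w.1) * q.2 := by
        linear_combination u.1 * h2 - w.1 * h1
      exact Prod.ext (mul_left_cancel₀ hd e1) (mul_left_cancel₀ hd e2)
  refine h.trans ?_
  rw [card_sigma]
  refine (sum_le_card_nsmul _ _ r fun x _ => hr x).trans ?_
  rw [smul_eq_mul, Int.card_Icc]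
  apply Nat.mul_le_mul_right
  omega

private theorem place_bad (n r B : ℕ) (hn : 1 ≤ n) (N : ℤ → Finset ℤ) (hN : Gr N)
    (hr : ∀ x, (N x).card ≤ r) (S : Finset ℤ) (hS : S.card ≤ B) (hSl : ∀ x, -x ∈ N x → x ∈ S)
    {u w : ℤ × ℤ} (hu : u ∈ placeW) (hw : w ∈ placeW) :
    ((placeD n).filter fun p => placeEv w p ∈ N (placeEv u p)).card ≤ (50 * r + B) * n := by
  rcases place_cases u hu w hw with h | ⟨h, h0⟩ | ⟨h, h0⟩ | ⟨h, h0⟩ | h
  · have : ((placeD n).filter fun p => placeEv w p ∈ N (placeEv u p)) = ∅ := by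
      rw [filter_eq_empty_iff]
      intro p _ hp
      rw [h] at hp
      exact hN.irr _ hp
    rw [this, card_empty]
    exact Nat.zero_le _
  · have hsub : ((placeD n).filter fun p => placeEv w p ∈ N (placeEv u p)) ⊆
        ((placeD n).filter fun p => placeEv u p ∈ S) := by
      intro p hp
      rw [mem_filter] at hp ⊢
      refine ⟨hp.1, hSl _ ?_⟩
      have e : placeEv w p = -placeEv u p := by
        rw [h]
        unfold placeEv
        ring
      rw [← e]
      exact hp.2
    refine (card_le_card hsub).trans ((place_fibers n u h0 S).trans ?_)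
    apply Nat.mul_le_mul_right
    omega
  · have hsub : ((placeD n).filter fun p => placeEv w p ∈ N (placeEv u p)) ⊆
        ((placeD n).filter fun p => placeEv w p ∈ N 0) := by
      intro p hp
      rw [mem_filter] at hp ⊢
      refine ⟨hp.1, ?_⟩
      have e : placeEv u p = 0 := by
        rw [h]
        unfold placeEv
        simp
      rw [← e]
      exact hp.2
    refine (card_le_card hsub).trans ((place_fibers n w h0 (N 0)).trans ?_)
    apply Nat.mul_le_mul_right
    have := hr 0
    omega
  · have hsub : ((placeD n).filter fun p => placeEv w p ∈ N (placeEv u p)) ⊆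
        ((placeD n).filter fun p => placeEv u p ∈ N 0) := by
      intro p hp
      rw [mem_filter] at hp ⊢
      refine ⟨hp.1, ?_⟩
      have e : placeEv w p = 0 := by
        rw [h]
        unfold placeEv
        simp
      have := hp.2
      rw [e] at this
      exact hN.symm _ _ this
    refine (card_le_card hsub).trans ((place_fibers n u h0 (N 0)).trans ?_)
    apply Nat.mul_le_mul_right
    have := hr 0
    omega
  · refine (place_indep n r N hr hu h).trans ?_
    have h1 : (48 * n + 1) * r ≤ (49 * n) * r := Nat.mul_le_mul_right _ (by omega)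
    have h2 : (49 * n) * r = 49 * r * n := by ring
    have h3 : 49 * r * n ≤ (50 * r + B) * n := Nat.mul_le_mul_right _ (by omega)
    omega

/-- Count the pairs `(α, β)` with `1 ≤ β ≤ b`, `6 b < α ≤ A` (say `b = m / 40`, `A = m / 4`). A pair is
bad because of an edge between `± v_i` and `± v_j`, `i ≠ j`: it is determined by `i, j`, the value of `v_i`
(at most `m`) and the neighbour (at most `2 r` classes): at most `256 * 2 r * m` bad pairs; or because of
a loop `v_i — -v_i` or an edge `0 — v_i`: it is determined by `i`, the value of `v_i` (at most `B + r`)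
and one of `α, β` (at most `m`): at most `16 (B + r) m` bad pairs (for `(0, 1)` the pair is determined
by `β` and `α`). -/
theorem place (r B : ℕ) : ∃ M : ℤ, ∀ m, M ≤ m → ∀ N : ℤ → Finset ℤ, Gr N →
    (∀ x, (N x).card ≤ r) → Loops N B →
    ∃ α β : ℤ, 1 ≤ β ∧ 6 * β < α ∧ 3 * α + 3 * β ≤ m ∧
      ∀ u w, u ∈ GS α β → w ∈ GS α β → w ∉ N u := by
  refine ⟨24 * (1089 * (50 * r + B) + 2), fun m hm N hN hr hL => ?_⟩
  obtain ⟨S, hS, hSl⟩ := hL
  obtain ⟨n, hn⟩ : ∃ n : ℕ, (n : ℤ) = m / 24 := ⟨(m / 24).toNat, by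
    apply Int.toNat_of_nonneg
    omega⟩
  have hn1 : 1089 * (50 * r + B) + 1 ≤ n := by
    zify
    omega
  set Z := (placeW.toFinset ×ˢ placeW.toFinset).biUnion
    fun q => (placeD n).filter fun p => placeEv q.2 p ∈ N (placeEv q.1 p) with hZ
  have hcard : Z.card < (placeD n).card := by
    have h1 : Z.card ≤ (placeW.toFinset ×ˢ placeW.toFinset).card * ((50 * r + B) * n) := by
      rw [hZ]
      apply card_biUnion_le_card_mul
      intro q hq
      rw [mem_product, List.mem_toFinset, List.mem_toFinset] at hq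
      exact place_bad n r B (by omega) N hN hr S hS hSl hq.1 hq.2
    have h2 : (placeW.toFinset ×ˢ placeW.toFinset).card ≤ 33 * 33 := by
      rw [card_product]
      exact Nat.mul_le_mul (List.toFinset_card_le _) (List.toFinset_card_le _)
    have h3 := Nat.mul_le_mul_right ((50 * r + B) * n) h2
    have h4 : 33 * 33 * ((50 * r + B) * n) = 1089 * (50 * r + B) * n := by ring
    have h5 : 1089 * (50 * r + B) * n < n * n := by
      apply Nat.mul_lt_mul_of_pos_right <;> omega
    rw [placeD_card]
    omega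
  obtain ⟨p, hp, hpZ⟩ := exists_mem_notMem_of_card_lt_card hcard
  have hp' := hp
  unfold placeD at hp'
  rw [mem_product, mem_Icc, mem_Icc] at hp'
  obtain ⟨⟨c1, c2⟩, d1, d2⟩ := hp'
  refine ⟨p.1, p.2, d1, by omega, by omega, ?_⟩
  intro x y hx hy hxy
  obtain ⟨u, hu, eu⟩ := place_mem hx
  obtain ⟨w, hw, ew⟩ := place_mem hy
  apply hpZ
  rw [hZ, mem_biUnion]
  refine ⟨(u, w), mem_product.2 ⟨hu, hw⟩, mem_filter.2 ⟨hp, ?_⟩⟩
  have e1 : placeEv u p = x := eu.symm
  have e2 : placeEv w p = y := ew.symm
  simp only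
  rw [e1, e2]
  exact hxy

end Pool.Agent.Helper74.Hc
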