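import Pool.Agent.Helper74.Hc.Fill
import Pool.Agent.Helper74.Hc.Cover

/-! HC-4b, 4c. All large intervals from finitely many. -/

namespace Pool.Agent.Helper74.Hc

open Finset

theorem Rec_Loops_mono {N : ℤ → Finset ℤ} {B B' : ℕ} (h : Loops N B) (hB : B ≤ B') : Loops N B' := by
  obtain ⟨S, hS, h⟩ := h
  exact ⟨S, hS.trans hB, h⟩

/-- HC-4b. For each residue class `i` take the core and `P t := ∃ N, IsLG N (I (t-1)) (r+2) (σ+ε) ∧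
Loops N B` with `B` the loop bound of the core (`IsLG.loops`), `cover12` and `fill`; the maximum over the
twelve classes. -/
theorem big_of_cores {T : ℤ} {r : ℕ} {σ ε : ℤ} (hε : ε = 1 ∨ ε = -1)
    (hblk : ∀ u n : ℤ, 1 ≤ u → Even n → T ≤ n + 1 → LGS (SI u (u + n - 1)) r σ)
    (hcore : ∀ i : ℤ, 0 ≤ i → i < 12 → ∃ t, T ≤ t ∧ 14 ≤ t ∧ t % 12 = i ∧
      LG (I (t - 1)) (r + 2) (σ + ε)) : Big (r + 2) (σ + ε) := by
  have key : ∀ i : Fin 12, ∃ (M : ℤ) (B : ℕ), ∀ t : ℤ, M ≤ t → t % 12 = ((i : ℕ) : ℤ) →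
      ∃ N, IsLG N (I (t - 1)) (r + 2) (σ + ε) ∧ Loops N B := by
    intro i
    obtain ⟨t₀, hT, h14, hi, N, hN⟩ := hcore ((i : ℕ) : ℤ) (by positivity) (by
      have := i.2
      omega)
    obtain ⟨M, hM⟩ := cover12 (P := fun t => ∃ N, IsLG N (I (t - 1)) (r + 2) (σ + ε) ∧
      Loops N (I (t₀ - 1)).card) h14 ⟨N, hN, hN.loops⟩ (by
        intro t s ht hs hst hP
        obtain ⟨N₁, h1, h2⟩ := hP
        exact fill hs hst hε (fun u n hu hn htn => hblk u n hu hn (by linarith)) h1 h2)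
    refine ⟨M, (I (t₀ - 1)).card, fun t ht hti => ?_⟩
    exact hM t ht (by rw [hti, hi])
  choose M B h using key
  refine ⟨∑ i, |M i|, ∑ i, B i, fun m hm => ?_⟩
  have h1 : 0 ≤ (m + 1) % 12 := Int.emod_nonneg _ (by norm_num)
  have h2 : (m + 1) % 12 < 12 := Int.emod_lt_of_pos _ (by norm_num)
  have h3 : ((m + 1) % 12).toNat < 12 := by omega
  have h4 : M ⟨((m + 1) % 12).toNat, h3⟩ ≤ m := by
    refine (le_abs_self _).trans (le_trans ?_ hm)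
    exact Finset.single_le_sum (f := fun i => |M i|) (fun i _ => abs_nonneg _) (Finset.mem_univ _)
  obtain ⟨N, hN1, hN2⟩ := h ⟨((m + 1) % 12).toNat, h3⟩ (m + 1) (by linarith) (by
    simp only
    omega)
  rw [add_sub_cancel_right] at hN1
  refine ⟨N, hN1, Rec_Loops_mono hN2 ?_⟩
  exact Finset.single_le_sum (f := fun i => B i) (fun i _ => Nat.zero_le _) (Finset.mem_univ _)

theorem Rec_step {L : ℤ} {r : ℕ} {σ : ℤ}
    (hblk : ∀ u n : ℤ, 1 ≤ u → Even n → L ≤ n → LGS (SI u (u + n - 1)) r σ)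
    {m₀ : ℤ} (h0 : 0 ≤ m₀) (hLG : LG (I m₀) r σ) :
    ∃ (M : ℤ) (B : ℕ), ∀ m, M ≤ m → m % 2 = m₀ % 2 → ∃ N, IsLG N (I m) r σ ∧ Loops N B := by
  obtain ⟨N, hN⟩ := hLG
  refine ⟨m₀ + |L|, (I m₀).card, fun m hm hpar => ?_⟩
  have hL : L ≤ |L| := le_abs_self L
  have hL0 : 0 ≤ |L| := abs_nonneg L
  obtain ⟨N₂, h1, h2, -⟩ := hblk (m₀ + 1) (m - m₀) (by linarith)
    (by rw [Int.even_iff]; omega) (by linarith)
  have hset : I m = I m₀ ∪ SI (m₀ + 1) (m₀ + 1 + (m - m₀) - 1) := by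
    ext x
    rw [mem_union, mem_I, mem_I, mem_SI]
    omega
  have hd : Disjoint (I m₀) (SI (m₀ + 1) (m₀ + 1 + (m - m₀) - 1)) := by
    rw [Finset.disjoint_left]
    intro x hx hx'
    rw [mem_I] at hx
    rw [mem_SI] at hx'
    omega
  refine ⟨fun x => N x ∪ N₂ x, ?_, ?_⟩
  · rw [hset]
    exact hN.union h1 hd
  · exact hN.loops.union (loops_zero h2)

/-- HC-4c. even slopes: one block only. `I (m + n) = I m ∪ SI (m+1) (m+n)`, `n` even, `n ≥ L`. -/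
theorem big_of_two {L : ℤ} {r : ℕ} {σ : ℤ}
    (hblk : ∀ u n : ℤ, 1 ≤ u → Even n → L ≤ n → LGS (SI u (u + n - 1)) r σ)
    (h0 : ∃ m, 0 ≤ m ∧ m % 2 = 0 ∧ LG (I m) r σ) (h1 : ∃ m, 0 ≤ m ∧ m % 2 = 1 ∧ LG (I m) r σ) :
    Big r σ := by
  obtain ⟨m₀, hm₀, hp₀, hl₀⟩ := h0
  obtain ⟨m₁, hm₁, hp₁, hl₁⟩ := h1
  obtain ⟨M₀, B₀, H₀⟩ := Rec_step hblk hm₀ hl₀
  obtain ⟨M₁, B₁, H₁⟩ := Rec_step hblk hm₁ hl₁
  refine ⟨max M₀ M₁, B₀ + B₁, fun m hm => ?_⟩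
  rcases Int.emod_two_eq_zero_or_one m with h | h
  · obtain ⟨N, hN, hl⟩ := H₀ m ((le_max_left _ _).trans hm) (by rw [h, hp₀])
    exact ⟨N, hN, Rec_Loops_mono hl (by omega)⟩
  · obtain ⟨N, hN, hl⟩ := H₁ m ((le_max_right _ _).trans hm) (by rw [h, hp₁])
    exact ⟨N, hN, Rec_Loops_mono hl (by omega)⟩

end Pool.Agent.Helper74.Hc
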