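import Pool.Agent.Helper74.Hc.Basic

/-! HC-1. Disjoint unions, overlays, sign change. -/

namespace Pool.Agent.Helper74.Hc

open Finset

theorem IsLG.union {N₁ N₂ : ℤ → Finset ℤ} {X₁ X₂ : Finset ℤ} {r : ℕ} {s : ℤ}
    (h1 : IsLG N₁ X₁ r s) (h2 : IsLG N₂ X₂ r s) (hd : Disjoint X₁ X₂) :
    IsLG (fun x => N₁ x ∪ N₂ x) (X₁ ∪ X₂) r s := by
  have e1 : ∀ x ∈ X₁, N₁ x ∪ N₂ x = N₁ x := fun x hx => by
    rw [h2.supp x (Finset.disjoint_left.1 hd hx), Finset.union_empty]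
  have e2 : ∀ x ∈ X₂, N₁ x ∪ N₂ x = N₂ x := fun x hx => by
    rw [h1.supp x (Finset.disjoint_right.1 hd hx), Finset.empty_union]
  refine ⟨⟨fun x y hy => ?_, fun x hx => ?_⟩, fun x hx => ?_, fun x hx => ?_, fun x hx => ?_⟩
  · rcases Finset.mem_union.1 hy with h | h
    · exact Finset.mem_union_left _ (h1.gr.symm x y h)
    · exact Finset.mem_union_right _ (h2.gr.symm x y h)
  · rcases Finset.mem_union.1 hx with h | h
    · exact h1.gr.irr x h
    · exact h2.gr.irr x h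
  · rw [Finset.mem_union, not_or] at hx
    show N₁ x ∪ N₂ x = ∅
    rw [h1.supp x hx.1, h2.supp x hx.2, Finset.union_empty]
  · show (N₁ x ∪ N₂ x).card = r
    rcases Finset.mem_union.1 hx with h | h
    · rw [e1 x h]; exact h1.card x h
    · rw [e2 x h]; exact h2.card x h
  · show ∑ y ∈ N₁ x ∪ N₂ x, y = s * x
    rcases Finset.mem_union.1 hx with h | h
    · rw [e1 x h]; exact h1.sum x h
    · rw [e2 x h]; exact h2.sum x h

theorem IsLG.overlay {N₁ N₂ : ℤ → Finset ℤ} {X : Finset ℤ} {r₁ r₂ : ℕ} {s₁ s₂ : ℤ}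
    (h1 : IsLG N₁ X r₁ s₁) (h2 : IsLG N₂ X r₂ s₂) (hd : ∀ x, Disjoint (N₁ x) (N₂ x)) :
    IsLG (fun x => N₁ x ∪ N₂ x) X (r₁ + r₂) (s₁ + s₂) := by
  refine ⟨⟨fun x y hy => ?_, fun x hx => ?_⟩, fun x hx => ?_, fun x hx => ?_, fun x hx => ?_⟩
  · rcases Finset.mem_union.1 hy with h | h
    · exact Finset.mem_union_left _ (h1.gr.symm x y h)
    · exact Finset.mem_union_right _ (h2.gr.symm x y h)
  · rcases Finset.mem_union.1 hx with h | h
    · exact h1.gr.irr x h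
    · exact h2.gr.irr x h
  · show N₁ x ∪ N₂ x = ∅
    rw [h1.supp x hx, h2.supp x hx, Finset.union_empty]
  · show (N₁ x ∪ N₂ x).card = r₁ + r₂
    rw [Finset.card_union_of_disjoint (hd x), h1.card x hx, h2.card x hx]
  · show ∑ y ∈ N₁ x ∪ N₂ x, y = (s₁ + s₂) * x
    rw [Finset.sum_union (hd x), h1.sum x hx, h2.sum x hx]
    ring

theorem Loops.union {N₁ N₂ : ℤ → Finset ℤ} {B₁ B₂ : ℕ} (h1 : Loops N₁ B₁) (h2 : Loops N₂ B₂) :
    Loops (fun x => N₁ x ∪ N₂ x) (B₁ + B₂) := by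
  obtain ⟨S₁, c1, l1⟩ := h1
  obtain ⟨S₂, c2, l2⟩ := h2
  refine ⟨S₁ ∪ S₂, (Finset.card_union_le _ _).trans (Nat.add_le_add c1 c2), fun x hx => ?_⟩
  rcases Finset.mem_union.1 hx with h | h
  · exact Finset.mem_union_left _ (l1 x h)
  · exact Finset.mem_union_right _ (l2 x h)

theorem loops_zero {N : ℤ → Finset ℤ} (h : ∀ x, -x ∉ N x) : Loops N 0 :=
  ⟨∅, by simp, fun x hx => absurd hx (h x)⟩

/-- every label graph on an interval has finitely many loops -/
theorem IsLG.loops {N : ℤ → Finset ℤ} {X : Finset ℤ} {r : ℕ} {s : ℤ} (h : IsLG N X r s) :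
    Loops N X.card :=
  ⟨X, le_rfl, fun _ hx => (h.sub hx).1⟩

theorem LGS.union {X₁ X₂ : Finset ℤ} {r : ℕ} {s : ℤ} (h1 : LGS X₁ r s) (h2 : LGS X₂ r s)
    (hd : Disjoint X₁ X₂) : LGS (X₁ ∪ X₂) r s := by
  obtain ⟨N₁, a1, b1, c1⟩ := h1
  obtain ⟨N₂, a2, b2, c2⟩ := h2
  refine ⟨fun x => N₁ x ∪ N₂ x, a1.union a2 hd, fun x hx => ?_, fun x y hy => ?_⟩
  · rcases Finset.mem_union.1 hx with h | h
    · exact b1 x h
    · exact b2 x h
  · rcases Finset.mem_union.1 hy with h | h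
    · exact Finset.mem_union_left _ (c1 x y h)
    · exact Finset.mem_union_right _ (c2 x y h)

/-- replace every neighbour by its negative -/
theorem LGS.neg {X : Finset ℤ} {r : ℕ} {s : ℤ} (h : LGS X r s) : LGS X r (-s) := by
  obtain ⟨N, a, b, c⟩ := h
  have hm : ∀ x y, y ∈ (N x).image (fun z => -z) ↔ -y ∈ N x := by
    intro x y
    rw [Finset.mem_image]
    constructor
    · rintro ⟨z, hz, rfl⟩
      rwa [neg_neg]
    · intro hy
      exact ⟨-y, hy, neg_neg y⟩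
  have hinj : Function.Injective (fun z : ℤ => -z) := neg_injective
  refine ⟨fun x => (N x).image (fun z => -z), ⟨⟨fun x y hy => ?_, fun x hx => ?_⟩,
    fun x hx => ?_, fun x hx => ?_, fun x hx => ?_⟩, fun x hx => ?_, fun x y hy => ?_⟩
  · rw [hm] at hy ⊢
    have h1 := c x _ hy
    rw [neg_neg] at h1
    exact a.gr.symm _ _ h1
  · rw [hm] at hx
    exact b x hx
  · show (N x).image (fun z => -z) = ∅
    rw [a.supp x hx, Finset.image_empty]
  · show ((N x).image (fun z => -z)).card = r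
    rw [Finset.card_image_of_injective _ hinj]
    exact a.card x hx
  · show ∑ y ∈ (N x).image (fun z => -z), y = -s * x
    rw [Finset.sum_image (fun _ _ _ _ h => hinj h), Finset.sum_neg_distrib, a.sum x hx]
    ring
  · rw [hm, neg_neg] at hx
    exact a.gr.irr x hx
  · rw [hm] at hy ⊢
    exact c x _ hy

end Pool.Agent.Helper74.Hc
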